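import Pool.Agent.Lib_helper54.LongPath.Outer

/-!
# The whole program
-/

namespace Pool.Agent.Lib54.LP

open Finset

/-- First part of the program: the constants. -/
def pre1 (C : ℕ) : List Cmd :=
  [.set 0 (.inp (.lit 0)), .set 1 (.add (.var 0) (.lit 1)), .set 2 (.lit C)]

def pre2 (c : ℕ) : List Cmd := List.replicate c (.set 2 (.sum 0 (.var 2)))

def pre3 : List Cmd :=
  [.set 3 (.add (.sum 0 (.var 0)) (.lit 3)), .set 4 (.inp (.lit 1)), .set 5 (.inp (.lit 2)),
    .set 33 (.var 4)]

def mainL (Q : Prog) : List Cmd :=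
  [tablesC Q, .set 34 maxE, .put 0 (.lit 0) (.var 4), loopO Q, .set 0 (.var 34)]

/-- The whole program, as a list of top-level commands. -/
def progL (Q : Prog) (C c : ℕ) : List Cmd := pre1 C ++ (pre2 c ++ (pre3 ++ mainL Q))

/-- The machine program. -/
def theProg (Q : Prog) (C c : ℕ) : Prog := compL (progL Q C c) 0

lemma okTop_progL (Q : Prog) (C c : ℕ) : ∀ cmd ∈ progL Q C c, okTop cmd = true := by
  intro cmd h
  simp only [progL, List.mem_append] at h
  rcases h with h | h | h | h
  · simp only [pre1, List.mem_cons, List.not_mem_nil, or_false] at h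
    rcases h with rfl | rfl | rfl <;> rfl
  · have := List.eq_of_mem_replicate h
    subst this
    rfl
  · simp only [pre3, List.mem_cons, List.not_mem_nil, or_false] at h
    rcases h with rfl | rfl | rfl | rfl <;> rfl
  · simp only [mainL, List.mem_cons, List.not_mem_nil, or_false] at h
    rcases h with rfl | rfl | rfl | rfl | rfl
    · exact wf_tablesC Q
    · decide
    · rfl
    · exact wf_loopO Q
    · rfl

def st0 : St := ⟨fun _ => 0, fun _ _ => 0⟩

section
variable {I : ℕ → ℕ} {W : ℕ} {s : St}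

lemma bdd_setV (h : ∀ x, x < R0 → s.v x ≤ W) (x : ℕ) {c : ℕ} (hc : c ≤ W) :
    ∀ y, y < R0 → (s.setV x c).v y ≤ W := by
  intro y hy
  rw [St.setV_v]
  by_cases h' : y = x
  · subst h'; rw [Function.update_self]; exact hc
  · rw [Function.update_of_ne h']; exact h y hy

lemma bdd_run (h : ∀ x, x < R0 → s.v x ≤ W) {c : Cmd} (hc : wfC c = true) :
    ∀ y, y < R0 → (run I c s).v y ≤ W := by
  intro y hy
  rw [run_readonly I c hc s y hy]
  exact h y hy

/-- The second part: repeated multiplication. -/
lemma pre2_spec {n C : ℕ} : ∀ (c : ℕ) (s : St), s.v 0 = n → s.v 2 = C →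
    (∀ x, x < R0 → s.v x ≤ W) → (∀ i ≤ c, n ^ i * C ≤ W) →
    (runL I (pre2 c) s).v 2 = n ^ c * C ∧ (∀ x, x ≠ 2 → (runL I (pre2 c) s).v x = s.v x) ∧
    (runL I (pre2 c) s).a = s.a ∧ BddL I W (pre2 c) s ∧
    (∀ x, x < R0 → (runL I (pre2 c) s).v x ≤ W) := by
  intro c
  induction c generalizing C with
  | zero =>
    intro s h0 h2 hb hW
    exact ⟨by simpa [pre2, runL] using h2, fun x _ => rfl, rfl, trivial, hb⟩
  | succ c ih =>
    intro s h0 h2 hb hW
    have e : run I (.set 2 (.sum 0 (.var 2))) s = s.setV 2 (n * C) := by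
      simp only [run, eval_sum, eval_var, h0, h2, Finset.sum_const, Finset.card_range,
        smul_eq_mul]
    have hnC : n * C ≤ W := by
      have := hW 1 (by omega)
      rwa [pow_one] at this
    have hb' := bdd_setV hb 2 hnC
    obtain ⟨g1, g2, g3, g4, g5⟩ := ih (C := n * C) (s.setV 2 (n * C))
      (by rw [St.setV_v, Function.update_of_ne (by decide), h0])
      (by rw [St.setV_v, Function.update_self]) hb' (fun i hi => by
        have := hW (i + 1) (by omega)
        rw [pow_succ, mul_assoc] at this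
        exact this)
    have hrun : runL I (pre2 (c + 1)) s = runL I (pre2 c) (s.setV 2 (n * C)) := by
      show runL I (List.replicate (c + 1) _) s = _
      rw [List.replicate_succ]
      show runL I (pre2 c) (run I (.set 2 (.sum 0 (.var 2))) s) = _
      rw [e]
    rw [hrun]
    refine ⟨by rw [g1, pow_succ, mul_assoc], ?_, g3, ?_, g5⟩
    · intro x hx
      rw [g2 x hx, St.setV_v, Function.update_of_ne hx]
    · show BddL I W (List.replicate (c + 1) _) s
      rw [List.replicate_succ]
      refine ⟨hb, ?_⟩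
      rw [e]
      exact g4

end

/-! ### The tournament -/

section
variable {n : ℕ} {T : Fin n → Fin n → Bool} {x y : Fin n}

lemma arcI_input {u v : ℕ} (hu : u < n) (hv : v < n) :
    arcI (input T x y) n u v ↔ T ⟨u, hu⟩ ⟨v, hv⟩ = true := by
  have hn : 0 < n := by omega
  have h1 : (n * u + v) / n = u := by
    rw [Nat.mul_add_div hn, Nat.div_eq_of_lt hv, add_zero]
  have h2 : (n * u + v) % n = v := by
    rw [Nat.mul_add_mod, Nat.mod_eq_of_lt hv]
  have h3 : n * u + v < n * n := by
    calc n * u + v < n * u + n := by omega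
      _ = n * (u + 1) := by ring
      _ ≤ n * n := Nat.mul_le_mul_left _ hu
  unfold arcI
  rw [add_comm]
  simp only [input]
  rw [dif_pos h3]
  simp only [h1, h2]
  split_ifs with h <;> simp [h]

lemma arcI_iff {u v : ℕ} (hu : u < n) (hv : v < n) :
    arcI (input T x y) n u v ↔ arcT T u v := by
  rw [arcI_input hu hv]
  constructor
  · intro h; exact ⟨hu, hv, h⟩
  · rintro ⟨_, _, h⟩; exact h

lemma tour_input (hT : IsTournament T) : Tour (arcI (input T x y) n) (range n) := by
  constructor
  · intro u hu v hv h h'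
    rw [mem_range] at hu hv
    rw [arcI_input hu hv] at h
    rw [arcI_input hv hu] at h'
    by_cases huv : u = v
    · subst huv
      rw [hT.1] at h
      exact absurd h (by decide)
    · have := hT.2 ⟨u, hu⟩ ⟨v, hv⟩ (fun h0 => huv (Fin.mk.inj_iff.1 h0))
      rw [h, h'] at this
      exact absurd this (by decide)
  · intro u hu v hv huv
    rw [mem_range] at hu hv
    rw [arcI_input hu hv, arcI_input hv hu]
    have := hT.2 ⟨u, hu⟩ ⟨v, hv⟩ (fun h0 => huv (Fin.mk.inj_iff.1 h0))
    rw [this]
    cases T ⟨u, hu⟩ ⟨v, hv⟩ <;> simp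

lemma hasPath_congr {A A' : ℕ → ℕ → Prop} {S : Finset ℕ}
    (h : ∀ u ∈ S, ∀ v ∈ S, (A u v ↔ A' u v)) {b z m : ℕ} :
    HasPath A S b z m ↔ HasPath A' S b z m := by
  constructor
  · rintro ⟨q, hq⟩
    exact ⟨q, hq.pos, hq.first, hq.last, hq.mem, hq.inj, fun i hi =>
      (h _ (hq.mem i (by omega)) _ (hq.mem _ hi)).1 (hq.arc i hi)⟩
  · rintro ⟨q, hq⟩
    exact ⟨q, hq.pos, hq.first, hq.last, hq.mem, hq.inj, fun i hi =>
      (h _ (hq.mem i (by omega)) _ (hq.mem _ hi)).2 (hq.arc i hi)⟩

lemma works_of {Q : Prog} {C c : ℕ} (hQ : ∀ (n : ℕ) (T : Fin n → Fin n → Bool) (x y : Fin n),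
    IsTournament T → x ≠ y → Decides Q (input T x y) (C * n ^ c) (HasHamPath T x y))
    {I : ℕ → ℕ} (hT : Tour (arcI I n) (range n)) : Works Q I n (n ^ c * C) := by
  intro D hD b a hb ha hba
  have hTD : Tour (arcI I n) D := hT.mono fun v hv => mem_range.2 (hD v hv)
  have h1 := hQ D.card (subT (arcI I n) D n) ⟨rk D b, rk_lt hb⟩ ⟨rk D a, rk_lt ha⟩
    (subT_tour hTD hD) (fun h => hba (rk_inj hb ha (Fin.mk.inj_iff.1 h)))
  rw [h1.at (B' := n ^ c * C) ?_, subT_ham hD hb ha]
  rw [mul_comm C]
  exact Nat.mul_le_mul_right _ (Nat.pow_le_pow_left (card_le_of hD) c)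

/-- The program computes the right answer. -/
theorem progL_spec {Q : Prog} {C c : ℕ}
    (hQ : ∀ (n : ℕ) (T : Fin n → Fin n → Bool) (x y : Fin n),
      IsTournament T → x ≠ y → Decides Q (input T x y) (C * n ^ c) (HasHamPath T x y))
    (hT : IsTournament T) {W : ℕ} (hW : n + 1 + C * n ^ c + (n * n + 3) ≤ W) :
    BddL (input T x y) W (progL Q C c) st0 ∧
    ((∃ l, IsPath T x y l ∧ (∀ l', IsPath T x y l' → l'.length ≤ l.length) ∧
      (runL (input T x y) (progL Q C c) st0).v 0 = l.length ∧
      ∀ i (hi : i < l.length), (runL (input T x y) (progL Q C c) st0).a 0 i = l[i]) ∨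
    ((∀ l, ¬ IsPath T x y l) ∧ (runL (input T x y) (progL Q C c) st0).v 0 = 0)) := by
  set I := input T x y with hI
  have hn : 0 < n := by have := x.2; omega
  have hTour : Tour (arcI I n) (range n) := tour_input hT
  have hworks : Works Q I n (n ^ c * C) := works_of hQ hTour
  have hWC : ∀ i ≤ c, n ^ i * C ≤ W := by
    intro i hi
    calc n ^ i * C ≤ n ^ c * C := Nat.mul_le_mul_right _ (Nat.pow_le_pow_right hn hi)
      _ = C * n ^ c := mul_comm _ _
      _ ≤ W := by omega
  -- first part
  have b0 : ∀ x, x < R0 → st0.v x ≤ W := fun x _ => Nat.zero_le _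
  have b1 := bdd_setV b0 0 (show n ≤ W by omega)
  have b2 := bdd_setV b1 1 (show n + 1 ≤ W by omega)
  have b3 := bdd_setV b2 2 (show C ≤ W by have := hWC 0 (by omega); simpa using this)
  set s1 : St := ((st0.setV 0 n).setV 1 (n + 1)).setV 2 C with hs1
  have r1 : run I (.set 0 (.inp (.lit 0))) st0 = st0.setV 0 n := rfl
  have r2 : run I (.set 1 (.add (.var 0) (.lit 1))) (st0.setV 0 n) =
      (st0.setV 0 n).setV 1 (n + 1) := by
    simp only [run, eval_add, eval_var, eval_lit, St.setV_v, Function.update_self]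
  have e1 : runL I (pre1 C) st0 = s1 := by
    simp only [runL, pre1]
    rw [r1, r2]
    rfl
  have B1 : BddL I W (pre1 C) st0 := by
    simp only [BddL, pre1]
    rw [r1, r2]
    exact ⟨b0, b1, b2, trivial⟩
  -- second part
  obtain ⟨p1, p2, p3, B2, b4⟩ := pre2_spec (I := I) (W := W) (n := n) (C := C) c s1
    (by simp [hs1, Function.update_of_ne]) (by simp [hs1]) b3 hWC
  set s2 := runL I (pre2 c) s1 with hs2
  have v20 : s2.v 0 = n := by rw [p2 0 (by decide)]; simp [hs1, Function.update_of_ne]
  have v21 : s2.v 1 = n + 1 := by rw [p2 1 (by decide)]; simp [hs1, Function.update_of_ne]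
  -- third part
  set s3 : St := s2.setV 3 (n * n + 3) with hs3
  have r3 : run I (.set 3 (.add (.sum 0 (.var 0)) (.lit 3))) s2 = s3 := by
    simp only [run, eval_add, eval_sum, eval_var, eval_lit, v20, Finset.sum_const,
      Finset.card_range, smul_eq_mul, hs3]
  have b5 := bdd_setV b4 3 (show n * n + 3 ≤ W by omega)
  rw [← hs3] at b5
  set s4 : St := s3.setV 4 x with hs4
  have r4 : run I (.set 4 (.inp (.lit 1))) s3 = s4 := rfl
  have b6 := bdd_setV b5 4 (show (x : ℕ) ≤ W by have := x.2; omega)
  rw [← hs4] at b6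
  set s5 : St := s4.setV 5 y with hs5
  have r5 : run I (.set 5 (.inp (.lit 2))) s4 = s5 := rfl
  have b7 := bdd_setV b6 5 (show (y : ℕ) ≤ W by have := y.2; omega)
  rw [← hs5] at b7
  set s6 : St := s5.setV 33 x with hs6
  have r6 : run I (.set 33 (.var 4)) s5 = s6 := by
    simp [run, hs6, hs5, hs4, Function.update_of_ne]
  have b8 := bdd_setV b7 33 (show (x : ℕ) ≤ W by have := x.2; omega)
  rw [← hs6] at b8
  have e3 : runL I pre3 s2 = s6 := by
    simp only [runL, pre3]
    rw [r3, r4, r5, r6]
  have B3 : BddL I W pre3 s2 := by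
    simp only [BddL, pre3]
    rw [r3, r4, r5]
    exact ⟨b4, b5, b6, b7, trivial⟩
  -- the state before the main part
  have w0 : s6.v 0 = n := by
    simp [hs6, hs5, hs4, hs3, Function.update_of_ne, v20]
  have w1 : s6.v 1 = n + 1 := by
    simp [hs6, hs5, hs4, hs3, Function.update_of_ne, v21]
  have w2 : s6.v 2 = n ^ c * C := by
    simp [hs6, hs5, hs4, hs3, Function.update_of_ne, p1]
  have w3 : s6.v 3 = n * n + 3 := by
    simp [hs6, hs5, hs4, hs3, Function.update_of_ne]
  have w4 : s6.v 4 = x := by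
    simp [hs6, hs5, hs4, Function.update_of_ne]
  have w5 : s6.v 5 = y := by
    simp [hs6, hs5, Function.update_of_ne]
  have w33 : s6.v 33 = x := by simp [hs6]
  have wa : ∀ b i, s6.a b i = 0 := by
    intro b i
    show s2.a b i = 0
    rw [p3]
    rfl
  have ctx : Ctx n (n ^ c * C) (s6.a 1) s6 :=
    ⟨w0, w1, w2, w3, rfl, fun i => by rw [wa]; exact Nat.zero_le _, fun i _ => wa 5 i⟩
  have halive : aliveS n (s6.a 1) = range n := by
    ext v
    rw [mem_aliveS, mem_range]
    exact ⟨fun h => h.1, fun h => ⟨h, wa 1 v⟩⟩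
  obtain ⟨t1, t2⟩ := tablesC_spec hworks hTour y.2 ctx w5
  rw [halive] at t2
  set s7 := run I (tablesC Q) s6 with hs7
  have b9 := bdd_run (I := I) b8 (wf_tablesC Q)
  rw [← hs7] at b9
  have v7 : ∀ z, z < 16 ∨ 32 ≤ z → s7.v z = s6.v z := fun z hz => by
    rw [hs7, run_v I _ (okV_tablesC Q z hz)]
  have a70 : s7.a 0 = s6.a 0 := by rw [hs7, run_a I _ (okA_tablesC Q 0 (by decide))]
  have a71 : s7.a 1 = s6.a 1 := by rw [hs7, run_a I _ (okA_tablesC Q 1 (by decide))]
  obtain ⟨M, hMn, hmax, hM⟩ := exists_max (arcI I n) n x y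
  have hS : ∀ v ∈ range n, v < n := fun v hv => mem_range.1 hv
  have hmaxE : eval I s7 maxE [] = M := by
    refine eval_maxE (n := n) (x := x) (by rw [v7 0 (by decide), w0])
      (by rw [v7 1 (by decide), w1]) (by rw [v7 4 (by decide), w4]) hMn ?_ ?_
    · intro hpos
      rw [t2 M n n x (by omega) (by omega) (by omega) x.2]
      exact Dec.complete hTour hS (hM hpos) hmax
    · intro m hm hmn
      by_contra hcon
      have h1 := (t2 m n n x (by omega) (by omega) (by omega) x.2).1 hcon
      exact hmax m hm ((h1.sound hTour hS).mono fun v hv => (mem_LL.1 hv).1)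
  set s8 : St := s7.setV 34 M with hs8
  have r8 : run I (.set 34 maxE) s7 = s8 := by
    simp only [run, hmaxE, hs8]
  have b10 := bdd_setV b9 34 (show M ≤ W by omega)
  rw [← hs8] at b10
  set s9 : St := s8.setA 0 0 x with hs9
  have w84 : s8.v 4 = x := by
    rw [hs8, St.setV_v, Function.update_of_ne (by decide), v7 4 (by decide), w4]
  have r9 : run I (.put 0 (.lit 0) (.var 4)) s8 = s9 := by
    simp only [run, eval_lit, eval_var, w84, hs9]
  have b11 : ∀ x, x < R0 → s9.v x ≤ W := b10
  set s10 := run I (loopO Q) s9 with hs10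
  have b12 := bdd_run (I := I) b11 (wf_loopO Q)
  rw [← hs10] at b12
  set s11 : St := s10.setV 0 (s10.v 34) with hs11
  have e4 : runL I (mainL Q) s6 = s11 := by
    simp only [runL, mainL]
    rw [← hs7, r8, r9, ← hs10]
    rfl
  have B4 : BddL I W (mainL Q) s6 := by
    simp only [BddL, mainL]
    rw [← hs7, r8, r9, ← hs10]
    exact ⟨b8, b9, b10, b11, b12, trivial⟩
  have eAll : runL I (progL Q C c) st0 = s11 := by
    rw [progL, runL_append, runL_append, runL_append, e1, e3, e4]
  refine ⟨?_, ?_⟩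
  · apply BddL_append _ _ _ _ _ B1
    rw [e1]
    apply BddL_append _ _ _ _ _ B2
    apply BddL_append _ _ _ _ _ B3
    rw [e3]
    exact B4
  · rw [eAll]
    have v34 : s9.v 34 = M := by simp [hs9, hs8]
    have e11 : s11.v 0 = s10.v 34 := by simp [hs11]
    rcases Nat.eq_zero_or_pos M with h0 | hpos
    · right
      refine ⟨?_, ?_⟩
      · intro l hl
        have h1 := hl.pathF
        have h2 : HasPath (arcI I n) (range n) x y l.length :=
          (hasPath_congr (fun u hu v hv => arcI_iff (hS u hu) (hS v hv))).2 ⟨_, h1⟩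
        exact hmax _ (by rw [h0]; exact h1.pos) h2
      · rw [e11, hs10, run_v I _ (okV_loopO Q 34 (by decide)), v34, h0]
    · left
      have hJ : JJ I n (n ^ c * C) x y M 0 s9 := by
        have a91 : s9.a 1 = s6.a 1 := by
          rw [hs9, St.setA_a, Function.update_of_ne (by decide), hs8, St.setV_a, a71]
        have w9 : ∀ z, z ≠ 34 → s9.v z = s7.v z := by
          intro z hz
          rw [hs9, St.setA_v, hs8, St.setV_v, Function.update_of_ne hz]
        have a9 : ∀ b, b ≠ 0 → s9.a b = s7.a b := by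
          intro b hb
          rw [hs9, St.setA_a, Function.update_of_ne hb, hs8, St.setV_a]
        have a90 : s9.a 0 0 = x := by
          rw [hs9, St.setA_a, Function.update_self, Function.update_self]
        refine ⟨?_, ?_, v34, ?_, a90, ?_, ?_, ?_, ?_, ?_⟩
        · rw [a91]
          exact t1.congr (w9 0 (by decide)) (w9 1 (by decide)) (w9 2 (by decide))
            (w9 3 (by decide)) (a9 1 (by decide)) (a9 7 (by decide)) (w9 27 (by decide))
            (a9 5 (by decide))
        · rw [w9 5 (by decide), v7 5 (by decide), w5]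
        · rw [w9 33 (by decide), v7 33 (by decide), w33, a90]
        · intro v
          rw [a91, wa]
          simp
        · intro i hi
          have : i = 0 := by omega
          subst this
          rw [a90]
          exact x.2
        · intro i j hi hj _
          omega
        · intro i hi
          omega
        · rw [a91, halive, a90]
          exact hM hpos
      have hJ' := loopO_spec hworks hTour y.2 hMn hpos hmax hJ
      rw [← hs10] at hJ'
      have hlast : s10.a 0 (M - 1) = y := by
        obtain ⟨q, hq⟩ := hJ'.rest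
        have h1 := hq.last
        rw [show M - (M - 1) - 1 = 0 by omega, hq.first] at h1
        exact h1
      have hpath : PathF (arcT T) (range n) x y M (s10.a 0) := by
        refine ⟨hpos, hJ'.q0, hlast, fun i hi => mem_range.2 (hJ'.lt i (by omega)),
          fun i j hi hj => hJ'.inj i j (by omega) (by omega), fun i hi => ?_⟩
        exact (arcI_iff (hJ'.lt i (by omega)) (hJ'.lt (i + 1) (by omega))).1
          (hJ'.arc i (by omega))
      obtain ⟨l, hl, hlen, hval⟩ := hpath.isPath
      refine ⟨l, hl, ?_, ?_, ?_⟩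
      · intro l' hl'
        by_contra hcon
        have h1 := hl'.pathF
        have h2 : HasPath (arcI I n) (range n) x y l'.length :=
          (hasPath_congr (fun u hu v hv => arcI_iff (hS u hu) (hS v hv))).2 ⟨_, h1⟩
        exact hmax _ (by omega) h2
      · rw [e11, hJ'.v34, hlen]
      · intro i hi
        rw [hval i hi]
        rfl

end

/-! ### Cost -/

/-- The program `P`, started on `inp`, halts within the cost `B`, and then register `0` contains
the number of vertices of a longest `(x, y)`-path and register `32 * i + 1` the `i`-th vertex of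
the path; if there is no `(x, y)`-path then register `0` contains `0`. -/
def FindsLongest {n : ℕ} (T : Fin n → Fin n → Bool) (x y : Fin n) (P : Prog) (B : ℕ) : Prop :=
  ∃ t, P.length ≤ (runFor P (input T x y) t).pc ∧ costFor P (input T x y) t ≤ B ∧
    ((∃ l, IsPath T x y l ∧ (∀ l', IsPath T x y l' → l'.length ≤ l.length) ∧
      (runFor P (input T x y) t).mem 0 = l.length ∧
      ∀ i (hi : i < l.length), (runFor P (input T x y) t).mem (32 * i + 1) = l[i]) ∨
    ((∀ l, ¬ IsPath T x y l) ∧ (runFor P (input T x y) t).mem 0 = 0))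

lemma input_le {n : ℕ} (T : Fin n → Fin n → Bool) (x y : Fin n) (i : ℕ) :
    input T x y i ≤ n + 1 := by
  match i with
  | 0 => exact Nat.le_succ n
  | 1 => have := x.2; simp only [input]; omega
  | 2 => have := y.2; simp only [input]; omega
  | a + 3 =>
    simp only [input]
    split_ifs <;> omega

theorem main {Q : Prog} {C c : ℕ}
    (hQ : ∀ (n : ℕ) (T : Fin n → Fin n → Bool) (x y : Fin n),
      IsTournament T → x ≠ y → Decides Q (input T x y) (C * n ^ c) (HasHamPath T x y)) :
    ∃ (P : Prog) (C' c' : ℕ), ∀ (n : ℕ) (T : Fin n → Fin n → Bool) (x y : Fin n),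
      IsTournament T → FindsLongest T x y P (C' * n ^ c') := by
  obtain ⟨C1, D1, hC⟩ := timeL_poly (progL Q C c)
  set N := numP (theProg Q C c) with hN
  set K := C + 7 with hK
  set E := C1 * K ^ D1 with hE
  set e := (c + 2) * D1 with he
  refine ⟨theProg Q C c, E * (1 + 3 * (N + 2) + 2 * E), 2 * e + 1, fun n T x y hT => ?_⟩
  have hn : 1 ≤ n := by have := x.2; omega
  set W := n + 1 + C * n ^ c + (n * n + 3) with hW
  obtain ⟨hB, hres⟩ := progL_spec (x := x) (y := y) hQ hT (le_refl W)
  have hcode : CodeAt (theProg Q C c) 0 (compL (progL Q C c) 0) := by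
    intro i _
    rw [Nat.zero_add]
    rfl
  have hEnc : Enc st0 (fun _ => 0) := ⟨fun x _ => rfl, fun b _ i => rfl⟩
  obtain ⟨m', t, r, e1, l⟩ := list_spec (theProg Q C c) (input T x y) W (progL Q C c) st0 0
    (fun _ => 0) (okTop_progL Q C c) hB hEnc hcode
  have hrun : runFor (theProg Q C c) (input T x y) t =
      ⟨0 + (compL (progL Q C c) 0).length, m'⟩ := r
  refine ⟨t, ?_, ?_, ?_⟩
  · rw [hrun]
    simp [theProg]
  · have hW1 : W + 1 ≤ K * n ^ (c + 2) := by
      have h1 : n ≤ n ^ (c + 2) := by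
        calc n = n ^ 1 := (pow_one n).symm
          _ ≤ _ := Nat.pow_le_pow_right hn (by omega)
      have h2 : n ^ c ≤ n ^ (c + 2) := Nat.pow_le_pow_right hn (by omega)
      have h3 : n * n ≤ n ^ (c + 2) := by
        calc n * n = n ^ 2 := (sq n).symm
          _ ≤ _ := Nat.pow_le_pow_right hn (by omega)
      have h4 : 1 ≤ n ^ (c + 2) := Nat.one_le_pow _ _ hn
      have h5 : C * n ^ c ≤ C * n ^ (c + 2) := Nat.mul_le_mul_left _ h2
      have h6 : K * n ^ (c + 2) = C * n ^ (c + 2) + 7 * n ^ (c + 2) := by rw [hK]; ring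
      omega
    have ht : t ≤ E * n ^ e := by
      calc t ≤ timeL W (progL Q C c) := l
        _ ≤ C1 * (W + 1) ^ D1 := hC W
        _ ≤ C1 * (K * n ^ (c + 2)) ^ D1 :=
            Nat.mul_le_mul_left _ (Nat.pow_le_pow_left hW1 D1)
        _ = E * n ^ e := by rw [mul_pow, ← pow_mul, hE, he]; ring
    have hcost := costFor_le (P := theProg Q C c) (inp := input T x y) (M := N + n + 1)
      (by omega) (fun i => (input_le T x y i).trans (by omega)) t
    have hp1 : 1 ≤ n ^ e := Nat.one_le_pow _ _ hn
    have hp2 : n ≤ n ^ (e + 1) := by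
      calc n = n ^ 1 := (pow_one n).symm
        _ ≤ n ^ (e + 1) := Nat.pow_le_pow_right hn (by omega)
    have hp3 : n ^ e ≤ n ^ (e + 1) := Nat.pow_le_pow_right hn (by omega)
    calc costFor (theProg Q C c) (input T x y) t ≤
        t * (1 + (N + n + 1) + 2 * (N + n + 1 + t)) := hcost
      _ ≤ (E * n ^ e) * (1 + (N + n + 1) + 2 * (N + n + 1 + E * n ^ e)) := by
          gcongr
      _ ≤ (E * n ^ e) * ((1 + 3 * (N + 2) + 2 * E) * n ^ (e + 1)) := by
          gcongr
          have : N ≤ N * n ^ (e + 1) := Nat.le_mul_of_pos_right _ (by omega)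
          have : E * n ^ e ≤ E * n ^ (e + 1) := Nat.mul_le_mul_left _ hp3
          nlinarith
      _ = E * (1 + 3 * (N + 2) + 2 * E) * n ^ (2 * e + 1) := by ring
  · have h0 : m' 0 = (runL (input T x y) (progL Q C c) st0).v 0 := by
      have := e1.1 0 (by decide)
      rwa [mul_zero] at this
    have h1 : ∀ i, m' (32 * i + 1) = (runL (input T x y) (progL Q C c) st0).a 0 i := by
      intro i
      have := e1.2 0 (by decide) i
      rwa [add_zero] at this
    rw [hrun]
    rcases hres with ⟨l, g1, g2, g3, g4⟩ | ⟨g1, g2⟩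
    · left
      refine ⟨l, g1, g2, h0.trans g3, fun i hi => (h1 i).trans (g4 i hi)⟩
    · right
      exact ⟨g1, h0.trans g2⟩

end Pool.Agent.Lib54.LP
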