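import Mathlib

/-!
# Longest paths between two vertices of a tournament: the combinatorial core

A longest `(b, y)`-path of a tournament is cut into blocks; each block is a hamiltonian path
of a subtournament that is determined by two vertices missed by the path and two degrees.
-/

namespace Pool.Agent.Lib54.LP

/-- `q 0, …, q (m - 1)` is a path with `m` vertices from `b` to `y` inside `S`. -/
structure PathF (A : ℕ → ℕ → Prop) (S : Finset ℕ) (b y m : ℕ) (q : ℕ → ℕ) : Prop where
  pos : 0 < m
  first : q 0 = b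
  last : q (m - 1) = y
  mem : ∀ i, i < m → q i ∈ S
  inj : ∀ i j, i < m → j < m → q i = q j → i = j
  arc : ∀ i, i + 1 < m → A (q i) (q (i + 1))

/-- There is a `(b, y)`-path with `m` vertices inside `S`. -/
def HasPath (A : ℕ → ℕ → Prop) (S : Finset ℕ) (b y m : ℕ) : Prop := ∃ q, PathF A S b y m q

/-- `A` is a tournament on `S`. -/
structure Tour (A : ℕ → ℕ → Prop) (S : Finset ℕ) : Prop where
  asym : ∀ u ∈ S, ∀ v ∈ S, A u v → ¬ A v u
  total : ∀ u ∈ S, ∀ v ∈ S, u ≠ v → A u v ∨ A v u

lemma Tour.irr {A : ℕ → ℕ → Prop} {S : Finset ℕ} (h : Tour A S) {u : ℕ} (hu : u ∈ S) :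
    ¬ A u u := fun h' => h.asym u hu u hu h' h'

lemma Tour.of_not {A : ℕ → ℕ → Prop} {S : Finset ℕ} (h : Tour A S) {u v : ℕ} (hu : u ∈ S)
    (hv : v ∈ S) (huv : u ≠ v) (hA : ¬ A u v) : A v u :=
  (h.total u hu v hv huv).resolve_left hA

lemma Tour.mono {A : ℕ → ℕ → Prop} {S S' : Finset ℕ} (h : Tour A S) (hs : S' ⊆ S) : Tour A S' :=
  ⟨fun u hu v hv => h.asym u (hs hu) v (hs hv), fun u hu v hv => h.total u (hs hu) v (hs hv)⟩

section Basic

variable {A : ℕ → ℕ → Prop} {S : Finset ℕ} {b y m : ℕ} {q : ℕ → ℕ}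

lemma PathF.mono (h : PathF A S b y m q) {S' : Finset ℕ} (hs : ∀ i, i < m → q i ∈ S') :
    PathF A S' b y m q := ⟨h.pos, h.first, h.last, hs, h.inj, h.arc⟩

lemma HasPath.mono (h : HasPath A S b y m) {S' : Finset ℕ} (hs : S ⊆ S') :
    HasPath A S' b y m := by
  obtain ⟨q, hq⟩ := h
  exact ⟨q, hq.mono fun i hi => hs (hq.mem i hi)⟩

lemma pathF_single {z : ℕ} (hz : z ∈ S) : PathF A S z z 1 (fun _ => z) :=
  ⟨one_pos, rfl, rfl, fun _ _ => hz, fun i j hi hj _ => by omega, fun i hi => by omega⟩

/-- Insertion of a path into a path. -/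
lemma PathF.insert (h : PathF A S b y m q) {k : ℕ} (hk : k + 1 < m) {r : ℕ → ℕ} {s z z' : ℕ}
    (hr : PathF A S z z' s r) (hd : ∀ i j, i < m → j < s → q i ≠ r j)
    (h1 : A (q k) z) (h2 : A z' (q (k + 1))) : HasPath A S b y (m + s) := by
  have hs := hr.pos
  refine ⟨fun i => if i ≤ k then q i else if i ≤ k + s then r (i - k - 1) else q (i - s),
    by omega, ?_, ?_, ?_, ?_, ?_⟩
  · simp [h.first]
  · rw [if_neg (by omega), if_neg (by omega), show m + s - 1 - s = m - 1 by omega, h.last]
  · intro i hi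
    split_ifs
    · exact h.mem _ (by omega)
    · exact hr.mem _ (by omega)
    · exact h.mem _ (by omega)
  · intro i j hi hj
    split_ifs <;> intro hij
    · exact h.inj _ _ (by omega) (by omega) hij
    · exact absurd hij (hd _ _ (by omega) (by omega))
    · have := h.inj _ _ (by omega) (by omega) hij
      omega
    · exact absurd hij.symm (hd _ _ (by omega) (by omega))
    · have := hr.inj _ _ (by omega) (by omega) hij
      omega
    · exact absurd hij.symm (hd _ _ (by omega) (by omega))
    · have := h.inj _ _ (by omega) (by omega) hij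
      omega
    · exact absurd hij (hd _ _ (by omega) (by omega))
    · have := h.inj _ _ (by omega) (by omega) hij
      omega
  · intro i hi
    have f1 : ∀ i, i ≤ k → (if i ≤ k then q i else if i ≤ k + s then r (i - k - 1)
        else q (i - s)) = q i := fun i hi => if_pos hi
    have f2 : ∀ i, k < i → i ≤ k + s → (if i ≤ k then q i else if i ≤ k + s then r (i - k - 1)
        else q (i - s)) = r (i - k - 1) := fun i hi hi' => by
      rw [if_neg (by omega), if_pos hi']
    have f3 : ∀ i, k + s < i → (if i ≤ k then q i else if i ≤ k + s then r (i - k - 1)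
        else q (i - s)) = q (i - s) := fun i hi => by
      rw [if_neg (by omega), if_neg (by omega)]
    rcases Nat.lt_trichotomy i k with hik | hik | hik
    · rw [f1 i (by omega), f1 (i + 1) (by omega)]
      exact h.arc i (by omega)
    · subst hik
      rw [f1 i le_rfl, f2 (i + 1) (by omega) (by omega),
        show i + 1 - i - 1 = 0 by omega, hr.first]
      exact h1
    · rcases Nat.lt_trichotomy i (k + s) with his | his | his
      · rw [f2 i hik (by omega), f2 (i + 1) (by omega) (by omega),
          show i + 1 - k - 1 = (i - k - 1) + 1 by omega]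
        exact hr.arc _ (by omega)
      · subst his
        rw [f2 _ hik le_rfl, f3 _ (by omega), show k + s - k - 1 = s - 1 by omega, hr.last,
          show k + s + 1 - s = k + 1 by omega]
        exact h2
      · rw [f3 i his, f3 (i + 1) (by omega), show i + 1 - s = (i - s) + 1 by omega]
        exact h.arc _ (by omega)

/-- Concatenation of two paths. -/
lemma PathF.append (h : PathF A S b y m q) {r : ℕ → ℕ} {s z a : ℕ}
    (hr : PathF A S z a s r) (hd : ∀ i j, i < m → j < s → q i ≠ r j)
    (h1 : A a b) : HasPath A S z y (m + s) := by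
  have hs := hr.pos
  have hm := h.pos
  refine ⟨fun i => if i < s then r i else q (i - s), by omega, ?_, ?_, ?_, ?_, ?_⟩
  · rw [if_pos hs, hr.first]
  · rw [if_neg (by omega), show m + s - 1 - s = m - 1 by omega, h.last]
  · intro i hi
    split_ifs
    · exact hr.mem _ (by omega)
    · exact h.mem _ (by omega)
  · intro i j hi hj
    split_ifs <;> intro hij
    · exact hr.inj _ _ (by omega) (by omega) hij
    · exact absurd hij.symm (hd _ _ (by omega) (by omega))
    · exact absurd hij (hd _ _ (by omega) (by omega))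
    · have := h.inj _ _ (by omega) (by omega) hij
      omega
  · intro i hi
    rcases Nat.lt_trichotomy (i + 1) s with hik | hik | hik
    · rw [if_pos (by omega), if_pos (by omega)]
      exact hr.arc i (by omega)
    · rw [if_pos (by omega), if_neg (by omega), show i + 1 - s = 0 by omega,
        show i = s - 1 by omega, hr.last, h.first]
      exact h1
    · rw [if_neg (by omega), if_neg (by omega), show i + 1 - s = i - s + 1 by omega]
      exact h.arc _ (by omega)

/-- A segment of a path. -/
lemma PathF.segment (h : PathF A S b y m q) {k k' : ℕ} (hk : k < k') (hk' : k' ≤ m)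
    {S' : Finset ℕ} (hs : ∀ i, k ≤ i → i < k' → q i ∈ S') :
    PathF A S' (q k) (q (k' - 1)) (k' - k) (fun i => q (k + i)) := by
  refine ⟨by omega, rfl, ?_, fun i hi => hs _ (by omega) (by omega), ?_, ?_⟩
  · show q (k + (k' - k - 1)) = q (k' - 1)
    congr 1
    omega
  · intro i j hi hj hij
    have := h.inj _ _ (by omega) (by omega) hij
    omega
  · intro i hi
    exact h.arc (k + i) (by omega)

end Basic

section Dec

variable (A : ℕ → ℕ → Prop) [DecidableRel A] (S : Finset ℕ) (N y : ℕ)

/-- `v` is an in-neighbour of `z`, or `z` is the dummy `N`. -/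
def nm (z v : ℕ) : Prop := z = N ∨ A v z

/-- `v` is an out-neighbour of `w`, or `w` is the dummy `N`. -/
def np (w v : ℕ) : Prop := w = N ∨ A w v

instance (z v : ℕ) : Decidable (nm A N z v) := by unfold nm; infer_instance

instance (z v : ℕ) : Decidable (np A N z v) := by unfold np; infer_instance

/-- The vertices after `w` and before `z`. -/
def GG (z w : ℕ) : Finset ℕ := S.filter fun v => nm A N z v ∧ np A N w v

/-- Outdegree inside `G`. -/
def dg (G : Finset ℕ) (v : ℕ) : ℕ := (G.filter fun u => A v u).card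

/-- The vertices of `GG z w` of outdegree at least `i` and less than `j`. -/
def DD (z w i j : ℕ) : Finset ℕ :=
  (GG A S N z w).filter fun v => i ≤ dg A (GG A S N z w) v ∧ dg A (GG A S N z w) v < j

/-- Common in-neighbours of `z` and `w` are in-neighbours of `p`. -/
def chain (p z w : ℕ) : Prop := ∀ v ∈ S, nm A N z v → nm A N w v → nm A N p v

/-- The decomposition. -/
inductive Dec : ℕ → ℕ → ℕ → ℕ → Prop
  | L1 (p z : ℕ) : y ∈ GG A S N z N → nm A N p y → Dec 1 p z y
  | L2 (p z b i j : ℕ) : i ≤ N → j ≤ N → b ≠ y → (∀ v ∈ DD A S N z N i j, nm A N p v) →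
      HasPath A (DD A S N z N i j) b y (DD A S N z N i j).card →
      Dec (DD A S N z N i j).card p z b
  | T1 (m p z w b b' : ℕ) : w ∈ S → chain A S N p z w → b ∈ GG A S N z w → nm A N p b →
      A b b' → Dec m z w b' → Dec (m + 1) p z b
  | T2 (m p z w b b' a i j : ℕ) : i ≤ N → j ≤ N → w ∈ S → chain A S N p z w →
      (∀ v ∈ DD A S N z w i j, nm A N p v) → b ≠ a →
      HasPath A (DD A S N z w i j) b a (DD A S N z w i j).card → A a b' → Dec m z w b' →
      Dec (m + (DD A S N z w i j).card) p z b

/-- Common in-neighbours. -/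
def LL (p z : ℕ) : Finset ℕ := S.filter fun v => nm A N p v ∧ nm A N z v

variable {A S N y}

lemma mem_GG {z w v : ℕ} : v ∈ GG A S N z w ↔ v ∈ S ∧ nm A N z v ∧ np A N w v := by
  simp [GG]

lemma mem_LL {p z v : ℕ} : v ∈ LL A S N p z ↔ v ∈ S ∧ nm A N p v ∧ nm A N z v := by
  simp [LL]

lemma DD_sub {z w i j v : ℕ} (h : v ∈ DD A S N z w i j) : v ∈ GG A S N z w :=
  (Finset.mem_filter.1 h).1

theorem Dec.sound (hT : Tour A S) (hS : ∀ v ∈ S, v < N) {m p z b : ℕ}
    (h : Dec A S N y m p z b) : HasPath A (LL A S N p z) b y m := by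
  induction h with
  | L1 p z h1 h2 =>
    rw [mem_GG] at h1
    exact ⟨_, pathF_single (mem_LL.2 ⟨h1.1, h2, h1.2.1⟩)⟩
  | L2 p z b i j _ _ _ h1 h2 =>
    refine h2.mono fun v hv => ?_
    have := mem_GG.1 (DD_sub hv)
    exact mem_LL.2 ⟨this.1, h1 v hv, this.2.1⟩
  | T1 m p z w b b' hw hc hb hp hbb _ ih =>
    obtain ⟨q, hq⟩ := ih
    rw [mem_GG] at hb
    have hwN : w ≠ N := (hS w hw).ne
    have hwb : A w b := hb.2.2.resolve_left hwN
    have hq' : PathF A (LL A S N p z) b' y m q := hq.mono fun i hi => by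
      have := mem_LL.1 (hq.mem i hi)
      exact mem_LL.2 ⟨this.1, hc _ this.1 this.2.1 this.2.2, this.2.1⟩
    refine hq'.append (pathF_single (mem_LL.2 ⟨hb.1, hp, hb.2.1⟩)) ?_ hbb
    intro i j hi _ hij
    have := mem_LL.1 (hq.mem i hi)
    rw [hij] at this
    exact hT.asym w hw b hb.1 hwb (this.2.2.resolve_left hwN)
  | T2 m p z w b b' a i j _ _ hw hc hp _ hD hab _ ih =>
    obtain ⟨q, hq⟩ := ih
    obtain ⟨r, hr⟩ := hD
    have hwN : w ≠ N := (hS w hw).ne
    have hq' : PathF A (LL A S N p z) b' y m q := hq.mono fun i hi => by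
      have := mem_LL.1 (hq.mem i hi)
      exact mem_LL.2 ⟨this.1, hc _ this.1 this.2.1 this.2.2, this.2.1⟩
    have hr' : PathF A (LL A S N p z) b a _ r := hr.mono fun i hi => by
      have := mem_GG.1 (DD_sub (hr.mem i hi))
      exact mem_LL.2 ⟨this.1, hp _ (hr.mem i hi), this.2.1⟩
    refine hq'.append hr' ?_ hab
    intro i j hi hj hij
    have h1 := mem_LL.1 (hq.mem i hi)
    have h2 := mem_GG.1 (DD_sub (hr.mem j hj))
    rw [hij] at h1
    exact hT.asym w hw _ h2.1 (h2.2.2.resolve_left hwN) (h1.2.2.resolve_left hwN)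

end Dec

end Pool.Agent.Lib54.LP
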