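import Pool.Agent.Lib_helper54.LongPath.Defs
import Pool.Agent.Lib_helper54.LongPath.Core

/-!
# Paths as lists and as functions, and relabelling of subtournaments
-/

namespace Pool.Agent.Lib54.LP

open Finset

/-- Transport of paths. -/
lemma HasPath.map {A A' : ℕ → ℕ → Prop} {S S' : Finset ℕ} {b y m : ℕ} {f : ℕ → ℕ}
    (h : HasPath A S b y m) (hf : ∀ u ∈ S, f u ∈ S') (hinj : ∀ u ∈ S, ∀ v ∈ S, f u = f v → u = v)
    (hA : ∀ u ∈ S, ∀ v ∈ S, A u v → A' (f u) (f v)) : HasPath A' S' (f b) (f y) m := by
  obtain ⟨q, hq⟩ := h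
  refine ⟨fun i => f (q i), hq.pos, by simp only [hq.first], by simp only [hq.last],
    fun i hi => hf _ (hq.mem i hi), fun i j hi hj hij => ?_, fun i hi => ?_⟩
  · exact hq.inj i j hi hj (hinj _ (hq.mem i hi) _ (hq.mem j hj) hij)
  · exact hA _ (hq.mem i (by omega)) _ (hq.mem _ hi) (hq.arc i hi)

/-- The arcs of a tournament on `Fin n` as a relation of natural numbers. -/
def arcT {n : ℕ} (T : Fin n → Fin n → Bool) (u v : ℕ) : Prop :=
  ∃ (hu : u < n) (hv : v < n), T ⟨u, hu⟩ ⟨v, hv⟩ = true

lemma arcT_fin {n : ℕ} {T : Fin n → Fin n → Bool} {u v : Fin n} :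
    arcT T u v ↔ T u v = true := by
  constructor
  · rintro ⟨_, _, h⟩; exact h
  · intro h; exact ⟨u.2, v.2, h⟩

/-- The function of a list. -/
def fn {n : ℕ} (l : List (Fin n)) (i : ℕ) : ℕ := if h : i < l.length then (l[i] : ℕ) else 0

lemma fn_of_lt {n : ℕ} {l : List (Fin n)} {i : ℕ} (h : i < l.length) : fn l i = l[i] :=
  dif_pos h

lemma IsPath.pathF {n : ℕ} {T : Fin n → Fin n → Bool} {x y : Fin n} {l : List (Fin n)}
    (h : IsPath T x y l) : PathF (arcT T) (range n) x y l.length (fn l) := by
  have hne : l ≠ [] := by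
    intro h0
    have := h.first
    rw [h0] at this
    simp at this
  have hpos : 0 < l.length := List.length_pos_iff.2 hne
  refine ⟨hpos, ?_, ?_, ?_, ?_, ?_⟩
  · rw [fn_of_lt hpos]
    have := h.first
    rw [List.head?_eq_getElem?, List.getElem?_eq_getElem hpos] at this
    rw [Option.some.inj this]
  · rw [fn_of_lt (by omega)]
    have := h.last
    rw [List.getLast?_eq_getElem?, List.getElem?_eq_getElem (by omega)] at this
    rw [Option.some.inj this]
  · intro i hi
    rw [fn_of_lt hi, mem_range]
    exact Fin.is_lt _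
  · intro i j hi hj hij
    rw [fn_of_lt hi, fn_of_lt hj] at hij
    exact (List.Nodup.getElem_inj_iff h.nodup).1 (Fin.ext hij)
  · intro i hi
    rw [fn_of_lt (by omega), fn_of_lt hi, arcT_fin]
    exact List.isChain_iff_getElem.1 h.arcs i hi

lemma PathF.isPath {n : ℕ} {T : Fin n → Fin n → Bool} {x y : Fin n} {m : ℕ} {q : ℕ → ℕ}
    (h : PathF (arcT T) (range n) x y m q) : ∃ l, IsPath T x y l ∧ l.length = m ∧
      ∀ i (hi : i < l.length), (l[i] : ℕ) = q i := by
  have hq : ∀ i : Fin m, q i < n := fun i => mem_range.1 (h.mem i i.2)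
  have hpos := h.pos
  refine ⟨List.ofFn fun i : Fin m => (⟨q i, hq i⟩ : Fin n), ⟨?_, ?_, ?_, ?_⟩, by simp, ?_⟩
  · rw [List.nodup_ofFn]
    intro i j hij
    exact Fin.ext (h.inj i j i.2 j.2 (Fin.mk.inj_iff.1 hij))
  · rw [List.isChain_iff_getElem]
    intro i hi
    rw [List.length_ofFn] at hi
    simp only [List.getElem_ofFn]
    obtain ⟨_, _, h'⟩ := h.arc i hi
    exact h'
  · rw [List.head?_eq_getElem?, List.getElem?_eq_getElem (by rw [List.length_ofFn]; exact hpos)]
    simp only [List.getElem_ofFn]
    congr 1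
    exact Fin.ext h.first
  · rw [List.getLast?_eq_getElem?, List.getElem?_eq_getElem (by rw [List.length_ofFn]; omega)]
    simp only [List.getElem_ofFn]
    congr 1
    apply Fin.ext
    simp only [List.length_ofFn]
    exact h.last
  · intro i hi
    simp only [List.getElem_ofFn]

lemma hasHamPath_iff {n : ℕ} {T : Fin n → Fin n → Bool} {x y : Fin n} :
    HasHamPath T x y ↔ HasPath (arcT T) (range n) x y n := by
  constructor
  · rintro ⟨l, hl, hall⟩
    have h1 : l.length = n := by
      have h2 : l.toFinset = Finset.univ := by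
        ext v; simp [hall v]
      have h3 := List.toFinset_card_of_nodup hl.nodup
      rw [h2, Finset.card_univ, Fintype.card_fin] at h3
      exact h3.symm
    have := hl.pathF
    rw [h1] at this
    exact ⟨_, this⟩
  · rintro ⟨q, hq⟩
    obtain ⟨l, hl, hlen, _⟩ := hq.isPath
    refine ⟨l, hl, fun v => ?_⟩
    have h3 := List.toFinset_card_of_nodup hl.nodup
    have h4 : l.toFinset = Finset.univ := by
      rw [← Finset.card_eq_iff_eq_univ, h3, hlen, Fintype.card_fin]
    have : v ∈ l.toFinset := by rw [h4]; exact Finset.mem_univ v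
    simpa using this

/-! ### Ranks -/

/-- The rank of `v` in `D`. -/
def rk (D : Finset ℕ) (v : ℕ) : ℕ := (D.filter fun u => u < v).card

/-- The element of rank `r`. -/
def el (D : Finset ℕ) (n r : ℕ) : ℕ := ∑ v ∈ range n, if v ∈ D ∧ rk D v = r then v else 0

section Rank
variable {D : Finset ℕ} {n : ℕ}

lemma rk_lt {v : ℕ} (hv : v ∈ D) : rk D v < D.card := by
  apply Finset.card_lt_card
  rw [Finset.ssubset_iff_of_subset (Finset.filter_subset _ _)]
  exact ⟨v, hv, fun h => lt_irrefl _ (Finset.mem_filter.1 h).2⟩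

lemma rk_mono {u v : ℕ} (hu : u ∈ D) (huv : u < v) : rk D u < rk D v := by
  apply Finset.card_lt_card
  rw [Finset.ssubset_iff_of_subset]
  · exact ⟨u, Finset.mem_filter.2 ⟨hu, huv⟩, fun h => lt_irrefl _ (Finset.mem_filter.1 h).2⟩
  · intro w hw
    rw [Finset.mem_filter] at hw ⊢
    exact ⟨hw.1, hw.2.trans huv⟩

lemma rk_inj {u v : ℕ} (hu : u ∈ D) (hv : v ∈ D) (h : rk D u = rk D v) : u = v := by
  rcases Nat.lt_trichotomy u v with h' | h' | h'
  · exact absurd h (rk_mono hu h').ne
  · exact h'
  · exact absurd h.symm (rk_mono hv h').ne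

lemma el_rk (hD : ∀ v ∈ D, v < n) {v : ℕ} (hv : v ∈ D) : el D n (rk D v) = v := by
  unfold el
  rw [Finset.sum_eq_single v]
  · rw [if_pos ⟨hv, rfl⟩]
  · intro u _ hne
    rw [if_neg]
    rintro ⟨hu, h⟩
    exact hne (rk_inj hu hv h)
  · intro h
    exact absurd (mem_range.2 (hD v hv)) h

lemma rk_surj {r : ℕ} (hr : r < D.card) : ∃ v ∈ D, rk D v = r := by
  have h1 : D.image (rk D) = range D.card := by
    apply Finset.eq_of_subset_of_card_le
    · intro r hr
      obtain ⟨v, hv, rfl⟩ := Finset.mem_image.1 hr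
      exact mem_range.2 (rk_lt hv)
    · rw [card_range, Finset.card_image_of_injOn]
      intro u hu v hv h
      exact rk_inj hu hv h
  have : r ∈ D.image (rk D) := by rw [h1]; exact mem_range.2 hr
  obtain ⟨v, hv, h⟩ := Finset.mem_image.1 this
  exact ⟨v, hv, h⟩

lemma el_mem (hD : ∀ v ∈ D, v < n) {r : ℕ} (hr : r < D.card) : el D n r ∈ D := by
  obtain ⟨v, hv, rfl⟩ := rk_surj hr
  rw [el_rk hD hv]
  exact hv

lemma rk_el (hD : ∀ v ∈ D, v < n) {r : ℕ} (hr : r < D.card) : rk D (el D n r) = r := by
  obtain ⟨v, hv, rfl⟩ := rk_surj hr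
  rw [el_rk hD hv]

lemma card_le_of (hD : ∀ v ∈ D, v < n) : D.card ≤ n := by
  calc D.card ≤ (range n).card := Finset.card_le_card fun v hv => mem_range.2 (hD v hv)
    _ = n := card_range n

end Rank

/-! ### The relabelled subtournament -/

section Sub
variable (A : ℕ → ℕ → Prop) [DecidableRel A] (D : Finset ℕ) (n : ℕ)

/-- The subtournament `D`, with vertices `0, …, |D| - 1`. -/
def subT : Fin D.card → Fin D.card → Bool := fun r c => decide (A (el D n r) (el D n c))

variable {A D n}

lemma subT_tour (hT : Tour A D) (hD : ∀ v ∈ D, v < n) : IsTournament (subT A D n) := by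
  constructor
  · intro u
    simp only [subT, decide_eq_false_iff_not]
    exact hT.irr (el_mem hD u.2)
  · intro u v huv
    have hne : el D n u ≠ el D n v := by
      intro h
      apply huv
      apply Fin.ext
      rw [← rk_el hD u.2, ← rk_el hD v.2, h]
    have h1 := hT.asym _ (el_mem hD u.2) _ (el_mem hD v.2)
    have h2 := hT.total _ (el_mem hD u.2) _ (el_mem hD v.2) hne
    simp only [subT]
    by_cases h : A (el D n u) (el D n v)
    · simp [h, h1 h]
    · simp [h, h2.resolve_left h]

lemma subT_ham (hD : ∀ v ∈ D, v < n) {b a : ℕ} (hb : b ∈ D) (ha : a ∈ D) :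
    HasHamPath (subT A D n) ⟨rk D b, rk_lt hb⟩ ⟨rk D a, rk_lt ha⟩ ↔ HasPath A D b a D.card := by
  rw [hasHamPath_iff]
  constructor
  · intro h
    have := h.map (A' := A) (S' := D) (f := el D n) (fun r hr => el_mem hD (mem_range.1 hr))
      (fun u hu v hv h => by
        rw [← rk_el hD (mem_range.1 hu), ← rk_el hD (mem_range.1 hv), h])
      (fun u hu v hv h => by
        obtain ⟨_, _, h'⟩ := h
        simpa [subT] using h')
    simpa only [el_rk hD hb, el_rk hD ha] using this
  · intro h
    exact h.map (A' := arcT (subT A D n)) (S' := range D.card) (f := rk D)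
      (fun v hv => mem_range.2 (rk_lt hv)) (fun u hu v hv h => rk_inj hu hv h)
      (fun u hu v hv h => ⟨rk_lt hu, rk_lt hv, by
        simp only [subT, decide_eq_true_eq, el_rk hD hu, el_rk hD hv]
        exact h⟩)

/-- The input of the relabelled tournament, computed by sums. -/
lemma input_subT (hD : ∀ v ∈ D, v < n) (x y : Fin D.card) (i : ℕ) :
    input (subT A D n) x y i = if i < n * n + 3 then
      (if i = 0 then D.card else if i = 1 then (x : ℕ) else if i = 2 then (y : ℕ) else
        ∑ r ∈ range n, ∑ c ∈ range n, if (r < D.card ∧ c < D.card) ∧ i = 3 + (r * D.card + c) ∧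
          A (el D n r) (el D n c) then 1 else 0) else 0 := by
  have hk : D.card ≤ n := card_le_of hD
  have hkk : D.card * D.card ≤ n * n := Nat.mul_le_mul hk hk
  match i with
  | 0 => simp [input]
  | 1 => simp [input]
  | 2 => simp [input]
  | a + 3 =>
    simp only [input]
    rw [if_neg (show a + 3 ≠ 0 by omega), if_neg (show a + 3 ≠ 1 by omega),
      if_neg (show a + 3 ≠ 2 by omega)]
    by_cases ha : a < D.card * D.card
    · rw [dif_pos ha, if_pos (show a + 3 < n * n + 3 by omega)]
      have hk0 : 0 < D.card := Nat.pos_of_ne_zero fun h0 => by simp [h0] at ha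
      have hr : a / D.card < D.card := Nat.div_lt_of_lt_mul ha
      have hc : a % D.card < D.card := Nat.mod_lt _ hk0
      rw [Finset.sum_eq_single (a / D.card), Finset.sum_eq_single (a % D.card)]
      · have e1 : a + 3 = 3 + (a / D.card * D.card + a % D.card) := by
          rw [Nat.div_add_mod' a D.card]; omega
        simp only [subT, decide_eq_true_eq]
        by_cases hA : A (el D n (a / D.card)) (el D n (a % D.card))
        · rw [if_pos hA, if_pos ⟨⟨hr, hc⟩, e1, hA⟩]
        · rw [if_neg hA, if_neg fun h => hA h.2.2]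
      · intro c _ hne
        rw [if_neg]
        rintro ⟨⟨_, h2⟩, h3, _⟩
        apply hne
        have h4 : a = a / D.card * D.card + c := by omega
        have h5 := Nat.div_add_mod' a D.card
        omega
      · intro h
        exact absurd (mem_range.2 (hc.trans_le hk)) h
      · intro r _ hne
        apply Finset.sum_eq_zero
        intro c _
        rw [if_neg]
        rintro ⟨⟨_, h2⟩, h3, _⟩
        apply hne
        have h4 : a = c + D.card * r := by rw [mul_comm]; omega
        rw [h4, Nat.add_mul_div_left _ _ hk0, Nat.div_eq_of_lt h2, zero_add]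
      · intro h
        exact absurd (mem_range.2 (hr.trans_le hk)) h
    · rw [dif_neg ha]
      symm
      split_ifs with h
      · apply Finset.sum_eq_zero
        intro r _
        apply Finset.sum_eq_zero
        intro c _
        rw [if_neg]
        rintro ⟨⟨h1, h2⟩, h3, _⟩
        apply ha
        have h4 : a = r * D.card + c := by omega
        calc a < r * D.card + D.card := by omega
          _ = (r + 1) * D.card := by ring
          _ ≤ D.card * D.card := Nat.mul_le_mul_right _ h1
      · rfl

end Sub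

end Pool.Agent.Lib54.LP
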