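import Pool.Agent.Lib_helper54.LongPath.Base
import Pool.Agent.Lib_helper54.LongPath.Inst

/-!
# The expressions of the program

Read-only variables: 0 `n`, 1 `n + 1`, 2 number of simulated steps, 3 `n * n + 3`, 4 `x`, 5 `y`.
Arrays: 0 output, 1 marks of the deleted vertices, 2 marks of a block, 3 ranks in the block,
4 elements by rank, 5 input of the simulated machine, 6 and 7 its memory, 8 table of hamiltonian
paths of blocks, 9 table of the decompositions.
-/

namespace Pool.Agent.Lib54.LP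

open Finset

/-- The arcs given by the input. -/
def arcI (I : ℕ → ℕ) (n u v : ℕ) : Prop := I (3 + (n * u + v)) ≠ 0

instance (I : ℕ → ℕ) (n : ℕ) : DecidableRel (arcI I n) := fun _ _ =>
  inferInstanceAs (Decidable (_ ≠ _))

/-- The vertices that are not deleted. -/
def aliveS (n : ℕ) (d : ℕ → ℕ) : Finset ℕ := (range n).filter fun v => d v = 0

lemma mem_aliveS {n : ℕ} {d : ℕ → ℕ} {v : ℕ} : v ∈ aliveS n d ↔ v < n ∧ d v = 0 := by
  simp [aliveS]

def alE (x : Expr) : Expr := notE (.arr 1 x)
def arcE (u v : Expr) : Expr := .inp (.add (.lit 3) (.add (.sum 0 u) v))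
def nmE (z v : Expr) : Expr := orE (eqE z (.var 0)) (arcE v z)
def npE (w v : Expr) : Expr := orE (eqE w (.var 0)) (arcE w v)
def ggE (z w v : Expr) : Expr := andE (alE v) (andE (nmE z v) (npE w v))
/-- `l` is the number of bound variables. -/
def dgE (l : ℕ) (z w v : Expr) : Expr :=
  .sum 0 (boolE (andE (ggE z w (.bv l)) (arcE v (.bv l))))
def ddE (l : ℕ) (z w i j v : Expr) : Expr :=
  andE (ggE z w v) (andE (leE i (dgE l z w v)) (ltE (dgE l z w v) j))
def cardE (l : ℕ) (z w i j : Expr) : Expr := .sum 0 (boolE (ddE (l + 1) z w i j (.bv l)))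
def chE (l : ℕ) (p z w : Expr) : Expr :=
  allE 0 (impE (andE (alE (.bv l)) (andE (nmE z (.bv l)) (nmE w (.bv l)))) (nmE p (.bv l)))
def suE (l : ℕ) (p z w i j : Expr) : Expr :=
  allE 0 (impE (ddE (l + 1) z w i j (.bv l)) (nmE p (.bv l)))
def pairE (e f : Expr) : Expr := .add (.sum 1 e) f

section Eval
variable {I : ℕ → ℕ} {s : St} {n l : ℕ} {env : List ℕ} {z w i j v u p e f : Expr}

lemma eval_bv_last (hl : env.length = l) (t : ℕ) : eval I s (.bv l) (env ++ [t]) = t := by
  subst hl
  simp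

lemma tr_alE : tr I s (alE v) env ↔ s.a 1 (eval I s v env) = 0 := by
  rw [alE, tr_notE]
  exact not_not

lemma eval_arcE (hn : s.v 0 = n) (hu : Stab l u) (hl : l ≤ env.length) :
    eval I s (arcE u v) env = I (3 + (n * eval I s u env + eval I s v env)) := by
  rw [arcE, eval_inp, eval_add, eval_add, eval_lit, hu.eval_mul 0 I s env hl, hn]

lemma tr_arcE (hn : s.v 0 = n) (hu : Stab l u) (hl : l ≤ env.length) :
    tr I s (arcE u v) env ↔ arcI I n (eval I s u env) (eval I s v env) := by
  rw [tr_def, eval_arcE hn hu hl]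
  rfl

lemma tr_nmE (hn : s.v 0 = n) (hv : Stab l v) (hl : l ≤ env.length) :
    tr I s (nmE z v) env ↔ nm (arcI I n) n (eval I s z env) (eval I s v env) := by
  rw [nmE, tr_orE, tr_eqE, tr_arcE hn hv hl, eval_var, hn]
  rfl

lemma tr_npE (hn : s.v 0 = n) (hw : Stab l w) (hl : l ≤ env.length) :
    tr I s (npE w v) env ↔ np (arcI I n) n (eval I s w env) (eval I s v env) := by
  rw [npE, tr_orE, tr_eqE, tr_arcE hn hw hl, eval_var, hn]
  rfl

lemma tr_ggE (hn : s.v 0 = n) (hv : Stab l v) (hw : Stab l w) (hl : l ≤ env.length)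
    (hlt : eval I s v env < n) : tr I s (ggE z w v) env ↔
    eval I s v env ∈ GG (arcI I n) (aliveS n (s.a 1)) n (eval I s z env) (eval I s w env) := by
  rw [ggE, tr_andE, tr_andE, tr_alE, tr_nmE hn hv hl, tr_npE hn hw hl, mem_GG, mem_aliveS]
  constructor
  · rintro ⟨h1, h2, h3⟩; exact ⟨⟨hlt, h1⟩, h2, h3⟩
  · rintro ⟨⟨_, h1⟩, h2, h3⟩; exact ⟨h1, h2, h3⟩

lemma eval_dgE (hn : s.v 0 = n) (hz : Stab l z) (hv : Stab l v) (hw : Stab l w)
    (hl : env.length = l) : eval I s (dgE l z w v) env =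
    dg (arcI I n) (GG (arcI I n) (aliveS n (s.a 1)) n (eval I s z env) (eval I s w env))
      (eval I s v env) := by
  rw [dgE, eval_card, dg, hn]
  congr 1
  ext u
  have hlast : eval I s (.bv l) (env ++ [u]) = u := eval_bv_last hl u
  have hlen : l + 1 ≤ (env ++ [u]).length := by simp [hl]
  have ez : eval I s z (env ++ [u]) = eval I s z env := hz I s env [u] hl.ge
  have ew : eval I s w (env ++ [u]) = eval I s w env := hw I s env [u] hl.ge
  have ev : eval I s v (env ++ [u]) = eval I s v env := hv I s env [u] hl.ge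
  rw [mem_filter, mem_filter, mem_range, tr_andE, tr_arcE hn (hv.mono (Nat.le_succ l)) hlen,
    hlast, ev]
  constructor
  · rintro ⟨h1, h2, h3⟩
    rw [tr_ggE hn (stab_bv (Nat.lt_succ_self l)) (hw.mono (Nat.le_succ l)) hlen
      (by rw [hlast]; exact h1), hlast, ez, ew] at h2
    exact ⟨h2, h3⟩
  · rintro ⟨h2, h3⟩
    have h1 : u < n := (mem_aliveS.1 (mem_GG.1 h2).1).1
    refine ⟨h1, ?_, h3⟩
    rw [tr_ggE hn (stab_bv (Nat.lt_succ_self l)) (hw.mono (Nat.le_succ l)) hlen
      (by rw [hlast]; exact h1), hlast, ez, ew]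
    exact h2

lemma tr_ddE (hn : s.v 0 = n) (hz : Stab l z) (hv : Stab l v) (hw : Stab l w)
    (hl : env.length = l) (hlt : eval I s v env < n) : tr I s (ddE l z w i j v) env ↔
    eval I s v env ∈ DD (arcI I n) (aliveS n (s.a 1)) n (eval I s z env) (eval I s w env)
      (eval I s i env) (eval I s j env) := by
  rw [ddE, tr_andE, tr_andE, tr_leE, tr_ltE, tr_ggE hn hv hw hl.ge hlt,
    eval_dgE hn hz hv hw hl, DD, mem_filter]

lemma eval_cardE (hn : s.v 0 = n) (hz : Stab l z) (hi : Stab l i) (hj : Stab l j)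
    (hw : Stab l w) (hl : env.length = l) : eval I s (cardE l z w i j) env =
    (DD (arcI I n) (aliveS n (s.a 1)) n (eval I s z env) (eval I s w env)
      (eval I s i env) (eval I s j env)).card := by
  rw [cardE, eval_card, hn]
  congr 1
  ext u
  have hlast : eval I s (.bv l) (env ++ [u]) = u := eval_bv_last hl u
  have hlen : (env ++ [u]).length = l + 1 := by simp [hl]
  have ez : eval I s z (env ++ [u]) = eval I s z env := hz I s env [u] hl.ge
  have ew : eval I s w (env ++ [u]) = eval I s w env := hw I s env [u] hl.ge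
  have ei : eval I s i (env ++ [u]) = eval I s i env := hi I s env [u] hl.ge
  have ej : eval I s j (env ++ [u]) = eval I s j env := hj I s env [u] hl.ge
  rw [mem_filter, mem_range]
  constructor
  · rintro ⟨h1, h2⟩
    rw [tr_ddE hn (hz.mono (Nat.le_succ l)) (stab_bv (Nat.lt_succ_self l))
      (hw.mono (Nat.le_succ l)) hlen (by rw [hlast]; exact h1), hlast, ez, ew, ei, ej] at h2
    exact h2
  · intro h2
    have h1 : u < n := (mem_aliveS.1 (mem_GG.1 (DD_sub h2)).1).1
    refine ⟨h1, ?_⟩
    rw [tr_ddE hn (hz.mono (Nat.le_succ l)) (stab_bv (Nat.lt_succ_self l))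
      (hw.mono (Nat.le_succ l)) hlen (by rw [hlast]; exact h1), hlast, ez, ew, ei, ej]
    exact h2

lemma tr_chE (hn : s.v 0 = n) (hp : Stab l p) (hz : Stab l z) (hw : Stab l w)
    (hl : env.length = l) : tr I s (chE l p z w) env ↔
    chain (arcI I n) (aliveS n (s.a 1)) n (eval I s p env) (eval I s z env)
      (eval I s w env) := by
  rw [chE, tr_allE, hn]
  have key : ∀ u, tr I s (impE (andE (alE (.bv l)) (andE (nmE z (.bv l)) (nmE w (.bv l))))
      (nmE p (.bv l))) (env ++ [u]) ↔ (s.a 1 u = 0 → nm (arcI I n) n (eval I s z env) u →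
      nm (arcI I n) n (eval I s w env) u → nm (arcI I n) n (eval I s p env) u) := by
    intro u
    have hlast : eval I s (.bv l) (env ++ [u]) = u := eval_bv_last hl u
    have hlen : l + 1 ≤ (env ++ [u]).length := by simp [hl]
    have ez : eval I s z (env ++ [u]) = eval I s z env := hz I s env [u] hl.ge
    have ew : eval I s w (env ++ [u]) = eval I s w env := hw I s env [u] hl.ge
    have ep : eval I s p (env ++ [u]) = eval I s p env := hp I s env [u] hl.ge
    have hb : Stab (l + 1) (.bv l) := stab_bv (Nat.lt_succ_self l)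
    rw [tr_impE, tr_andE, tr_andE, tr_alE, tr_nmE hn hb hlen, tr_nmE hn hb hlen,
      tr_nmE hn hb hlen, hlast, ez, ew, ep]
    constructor
    · intro h h1 h2 h3; exact h ⟨h1, h2, h3⟩
    · rintro h ⟨h1, h2, h3⟩; exact h h1 h2 h3
  constructor
  · intro h u hu h2 h3
    rw [mem_aliveS] at hu
    exact (key u).1 (h u hu.1) hu.2 h2 h3
  · intro h u hu
    rw [key]
    intro h1
    exact h u (mem_aliveS.2 ⟨hu, h1⟩)

lemma tr_suE (hn : s.v 0 = n) (hp : Stab l p) (hz : Stab l z) (hi : Stab l i) (hj : Stab l j)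
    (hw : Stab l w) (hl : env.length = l) : tr I s (suE l p z w i j) env ↔
    ∀ v ∈ DD (arcI I n) (aliveS n (s.a 1)) n (eval I s z env) (eval I s w env)
      (eval I s i env) (eval I s j env), nm (arcI I n) n (eval I s p env) v := by
  rw [suE, tr_allE, hn]
  have key : ∀ u, u < n → (tr I s (impE (ddE (l + 1) z w i j (.bv l)) (nmE p (.bv l)))
      (env ++ [u]) ↔ (u ∈ DD (arcI I n) (aliveS n (s.a 1)) n (eval I s z env)
      (eval I s w env) (eval I s i env) (eval I s j env) →
      nm (arcI I n) n (eval I s p env) u)) := by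
    intro u hu
    have hlast : eval I s (.bv l) (env ++ [u]) = u := eval_bv_last hl u
    have hlen : (env ++ [u]).length = l + 1 := by simp [hl]
    have ez : eval I s z (env ++ [u]) = eval I s z env := hz I s env [u] hl.ge
    have ew : eval I s w (env ++ [u]) = eval I s w env := hw I s env [u] hl.ge
    have ei : eval I s i (env ++ [u]) = eval I s i env := hi I s env [u] hl.ge
    have ej : eval I s j (env ++ [u]) = eval I s j env := hj I s env [u] hl.ge
    have ep : eval I s p (env ++ [u]) = eval I s p env := hp I s env [u] hl.ge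
    have hb : Stab (l + 1) (.bv l) := stab_bv (Nat.lt_succ_self l)
    rw [tr_impE, tr_nmE hn hb hlen.ge, tr_ddE hn (hz.mono (Nat.le_succ l)) hb
      (hw.mono (Nat.le_succ l)) hlen (by rw [hlast]; exact hu), hlast, ez, ew, ei, ej, ep]
  constructor
  · intro h u hu
    have h1 : u < n := (mem_aliveS.1 (mem_GG.1 (DD_sub hu)).1).1
    exact (key u h1).1 (h u h1) hu
  · intro h u hu
    rw [key u hu]
    exact h u

lemma eval_pairE {M : ℕ} (h1 : s.v 1 = M) (he : Stab l e) (hl : l ≤ env.length) :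
    eval I s (pairE e f) env = M * eval I s e env + eval I s f env := by
  rw [pairE, eval_add, he.eval_mul 1 I s env hl, h1]

lemma Stab.pair (he : Stab l e) (hf : Stab l f) : Stab l (pairE e f) := (he.sum 1).add hf

end Eval

lemma pair_inj {M x y a b : ℕ} (ha : a < M) (hb : b < M) (h : M * x + a = M * y + b) :
    x = y ∧ a = b := by
  have h1 : (M * x + a) / M = x := by
    rw [Nat.mul_add_div (by omega), Nat.div_eq_of_lt ha, add_zero]
  have h2 : (M * y + b) / M = y := by
    rw [Nat.mul_add_div (by omega), Nat.div_eq_of_lt hb, add_zero]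
  have h3 : x = y := by rw [← h1, h, h2]
  subst h3
  exact ⟨rfl, by omega⟩

/-! ### Loops that fill a table -/

/-- Starting in a state with `P`, the command `c` ends in a state with `P'`, keeps all the
correct entries `k` and makes the entries in `K` correct. -/
def Does (I : ℕ → ℕ) (P P' : St → Prop) (G : ℕ → St → Prop) (K : ℕ → Prop) (c : Cmd) : Prop :=
  ∀ s, P s → P' (run I c s) ∧ (∀ k, G k s → G k (run I c s)) ∧ ∀ k, K k → G k (run I c s)

lemma Does.loop {I : ℕ → ℕ} {P : St → Prop} {G : ℕ → St → Prop} {K : ℕ → ℕ → Prop} {x r : ℕ}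
    {c : Cmd} (N : ℕ) (hN : ∀ s, P s → s.v r = N) (hset : ∀ s i, P s → P (s.setV x i))
    (hG : ∀ k s i, G k s → G k (s.setV x i))
    (hbody : ∀ i < N, Does I (fun s => P s ∧ s.v x = i ∧ ∀ i' < i, ∀ k, K i' k → G k s)
      P G (K i) c) :
    Does I P P G (fun k => ∃ i < N, K i k) (.loop x r c) := by
  intro s hs
  simp only [run]
  rw [hN s hs]
  have key := iter_inv (fun i s' => run I c (s'.setV x i)) s
    (fun t s' => P s' ∧ (∀ k, G k s → G k s') ∧ ∀ i' < t, ∀ k, K i' k → G k s')
    ⟨hs, fun _ h => h, fun i' hi' => absurd hi' (Nat.not_lt_zero _)⟩ N ?_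
  · exact ⟨key.1, key.2.1, fun k ⟨i, hi, hk⟩ => key.2.2 i hi k hk⟩
  · intro i s' hi ⟨h1, h2, h3⟩
    obtain ⟨g1, g2, g3⟩ := hbody i hi (s'.setV x i) ⟨hset _ _ h1, by simp,
      fun i' hi' k hk => hG _ _ _ (h3 i' hi' k hk)⟩
    refine ⟨g1, fun k hk => g2 k (hG _ _ _ (h2 k hk)), fun i' hi' k hk => ?_⟩
    rcases Nat.lt_or_ge i' i with h | h
    · exact g2 k (hG _ _ _ (h3 i' h k hk))
    · have : i' = i := by omega
      subst this
      exact g3 k hk

end Pool.Agent.Lib54.LP
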