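import Pool.Agent.Lib_helper54.LongPath.CompileC

/-!
# Tools for programs of the loop language
-/

namespace Pool.Agent.Lib54.LP

open Finset

@[simp] lemma St.setV_v (s : St) (x c : ℕ) : (s.setV x c).v = Function.update s.v x c := rfl
@[simp] lemma St.setV_a (s : St) (x c : ℕ) : (s.setV x c).a = s.a := rfl
@[simp] lemma St.setA_v (s : St) (b i c : ℕ) : (s.setA b i c).v = s.v := rfl
@[simp] lemma St.setA_a (s : St) (b i c : ℕ) :
    (s.setA b i c).a = Function.update s.a b (Function.update (s.a b) i c) := rfl

/-! ### Derived expressions -/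

def notE (e : Expr) : Expr := .ite e (.lit 0) (.lit 1)
def boolE (e : Expr) : Expr := .ite e (.lit 1) (.lit 0)
def leE (e f : Expr) : Expr := notE (.sub e f)
def ltE (e f : Expr) : Expr := .ite (.sub f e) (.lit 1) (.lit 0)
def eqE (e f : Expr) : Expr := .ite (.sub e f) (.lit 0) (notE (.sub f e))
def andE (e f : Expr) : Expr := .ite e f (.lit 0)
def orE (e f : Expr) : Expr := .add e f
def impE (e f : Expr) : Expr := .ite e f (.lit 1)
def allE (r : ℕ) (e : Expr) : Expr := notE (.sum r (notE e))

section EvalLemmas
variable (I : ℕ → ℕ) (s : St) (e f c : Expr) (env : List ℕ)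

@[simp] lemma eval_lit (c : ℕ) : eval I s (.lit c) env = c := rfl
@[simp] lemma eval_var (x : ℕ) : eval I s (.var x) env = s.v x := rfl
@[simp] lemma eval_bv (j : ℕ) : eval I s (.bv j) env = env.getD j 0 := rfl
@[simp] lemma eval_arr (b : ℕ) : eval I s (.arr b e) env = s.a b (eval I s e env) := rfl
@[simp] lemma eval_inp : eval I s (.inp e) env = I (eval I s e env) := rfl
@[simp] lemma eval_add : eval I s (.add e f) env = eval I s e env + eval I s f env := rfl
@[simp] lemma eval_sub : eval I s (.sub e f) env = eval I s e env - eval I s f env := rfl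
@[simp] lemma eval_half : eval I s (.half e) env = eval I s e env / 2 := rfl
@[simp] lemma eval_ite : eval I s (.ite c e f) env =
    if eval I s c env = 0 then eval I s f env else eval I s e env := rfl
@[simp] lemma eval_sum (r : ℕ) : eval I s (.sum r e) env =
    ∑ i ∈ Finset.range (s.v r), eval I s e (env ++ [i]) := rfl

@[simp] lemma eval_notE : eval I s (notE e) env = if eval I s e env = 0 then 1 else 0 := rfl

@[simp] lemma eval_boolE : eval I s (boolE e) env = if eval I s e env = 0 then 0 else 1 := rfl

@[simp] lemma eval_leE : eval I s (leE e f) env =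
    if eval I s e env ≤ eval I s f env then 1 else 0 := by
  simp [leE, Nat.sub_eq_zero_iff_le]

@[simp] lemma eval_ltE : eval I s (ltE e f) env =
    if eval I s e env < eval I s f env then 1 else 0 := by
  show (if eval I s f env - eval I s e env = 0 then 0 else 1) = _
  by_cases h : eval I s e env < eval I s f env
  · rw [if_pos h, if_neg (by omega)]
  · rw [if_neg h, if_pos (by omega)]

@[simp] lemma eval_eqE : eval I s (eqE e f) env =
    if eval I s e env = eval I s f env then 1 else 0 := by
  show (if eval I s e env - eval I s f env = 0 then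
    (if eval I s f env - eval I s e env = 0 then 1 else 0) else 0) = _
  by_cases h : eval I s e env = eval I s f env
  · rw [if_pos h, if_pos (by omega), if_pos (by omega)]
  · rw [if_neg h]
    split_ifs <;> omega

@[simp] lemma eval_andE : eval I s (andE e f) env =
    if eval I s e env = 0 then 0 else eval I s f env := rfl

end EvalLemmas

/-! ### Truth values -/

/-- The value of the expression is not zero. -/
def tr (I : ℕ → ℕ) (s : St) (e : Expr) (env : List ℕ) : Prop := eval I s e env ≠ 0

section Truth
variable {I : ℕ → ℕ} {s : St} {e f c : Expr} {env : List ℕ}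

lemma tr_def : tr I s e env ↔ eval I s e env ≠ 0 := Iff.rfl

instance : Decidable (tr I s e env) := inferInstanceAs (Decidable (_ ≠ _))

@[simp] lemma tr_notE : tr I s (notE e) env ↔ ¬ tr I s e env := by
  simp only [tr, eval_notE]
  split_ifs with h <;> simp [h]

@[simp] lemma tr_boolE : tr I s (boolE e) env ↔ tr I s e env := by
  simp only [tr, eval_boolE]
  split_ifs with h <;> simp [h]

@[simp] lemma tr_leE : tr I s (leE e f) env ↔ eval I s e env ≤ eval I s f env := by
  simp [tr]

@[simp] lemma tr_ltE : tr I s (ltE e f) env ↔ eval I s e env < eval I s f env := by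
  simp [tr]

@[simp] lemma tr_eqE : tr I s (eqE e f) env ↔ eval I s e env = eval I s f env := by
  simp [tr]

@[simp] lemma tr_andE : tr I s (andE e f) env ↔ tr I s e env ∧ tr I s f env := by
  simp only [tr, eval_andE]
  split_ifs with h <;> simp [h]

@[simp] lemma tr_orE : tr I s (orE e f) env ↔ tr I s e env ∨ tr I s f env := by
  simp only [tr, orE, eval_add]
  omega

@[simp] lemma tr_impE : tr I s (impE e f) env ↔ (tr I s e env → tr I s f env) := by
  simp only [tr, impE, eval_ite]
  split_ifs with h <;> simp [h]

@[simp] lemma tr_sum {r : ℕ} : tr I s (.sum r e) env ↔ ∃ i, i < s.v r ∧ tr I s e (env ++ [i]) := by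
  simp only [tr, eval_sum, ne_eq, Finset.sum_eq_zero_iff, Finset.mem_range]
  push Not
  rfl

@[simp] lemma tr_allE {r : ℕ} : tr I s (allE r e) env ↔ ∀ i, i < s.v r → tr I s e (env ++ [i]) := by
  simp only [allE, tr_notE, tr_sum, not_exists, not_and, not_not]

lemma eval_card {r : ℕ} : eval I s (.sum r (boolE e)) env =
    ((range (s.v r)).filter fun i => tr I s e (env ++ [i])).card := by
  rw [Finset.card_filter, eval_sum]
  apply Finset.sum_congr rfl
  intro i _
  rw [eval_boolE]
  by_cases h : eval I s e (env ++ [i]) = 0
  · rw [if_pos h, if_neg]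
    exact fun h' => h' h
  · rw [if_neg h, if_pos]
    exact h

end Truth

/-! ### Expressions that do not depend on the last bound variables -/

/-- The value depends only on the first `l` bound variables. -/
def Stab (l : ℕ) (e : Expr) : Prop :=
  ∀ (I : ℕ → ℕ) (s : St) (env env' : List ℕ), l ≤ env.length →
    eval I s e (env ++ env') = eval I s e env

section Stab
variable {l : ℕ} {e f c : Expr}

lemma Stab.mono {l' : ℕ} (h : Stab l e) (hl : l ≤ l') : Stab l' e :=
  fun I s env env' h' => h I s env env' (hl.trans h')

lemma stab_lit (c : ℕ) : Stab l (.lit c) := fun _ _ _ _ _ => rfl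

lemma stab_var (x : ℕ) : Stab l (.var x) := fun _ _ _ _ _ => rfl

lemma stab_bv {j : ℕ} (h : j < l) : Stab l (.bv j) := fun _ _ env env' h' =>
  List.getD_append _ _ _ _ (by omega)

lemma Stab.arr (h : Stab l e) (b : ℕ) : Stab l (.arr b e) := fun I s env env' h' => by
  rw [eval_arr, eval_arr, h I s env env' h']

lemma Stab.inp (h : Stab l e) : Stab l (.inp e) := fun I s env env' h' => by
  rw [eval_inp, eval_inp, h I s env env' h']

lemma Stab.add (h : Stab l e) (hf : Stab l f) : Stab l (.add e f) := fun I s env env' h' => by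
  rw [eval_add, eval_add, h I s env env' h', hf I s env env' h']

lemma Stab.sub (h : Stab l e) (hf : Stab l f) : Stab l (.sub e f) := fun I s env env' h' => by
  rw [eval_sub, eval_sub, h I s env env' h', hf I s env env' h']

lemma Stab.ite (hc : Stab l c) (h : Stab l e) (hf : Stab l f) : Stab l (.ite c e f) :=
  fun I s env env' h' => by
    rw [eval_ite, eval_ite, h I s env env' h', hf I s env env' h', hc I s env env' h']

lemma Stab.sum (h : Stab l e) (r : ℕ) : Stab l (.sum r e) := fun I s env env' h' => by
  rw [eval_sum, eval_sum]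
  apply Finset.sum_congr rfl
  intro i _
  rw [List.append_assoc, h I s env _ h', h I s env _ h']

lemma Stab.eval_mul (h : Stab l e) (r : ℕ) (I : ℕ → ℕ) (s : St) (env : List ℕ)
    (hl : l ≤ env.length) : eval I s (.sum r e) env = s.v r * eval I s e env := by
  rw [eval_sum]
  have : ∀ i ∈ range (s.v r), eval I s e (env ++ [i]) = eval I s e env := fun i _ =>
    h I s env [i] hl
  rw [Finset.sum_congr rfl this, Finset.sum_const, Finset.card_range, smul_eq_mul]

end Stab

/-! ### What a command does not change -/

/-- The command does not change the variable `x`. -/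
def okV (x : ℕ) : Cmd → Bool
  | .skip => true
  | .set y _ => decide (x ≠ y)
  | .put _ _ _ => true
  | .seq c d => okV x c && okV x d
  | .ite _ c d => okV x c && okV x d
  | .loop y _ c => decide (x ≠ y) && okV x c

/-- The command does not change the array `b`. -/
def okA (b : ℕ) : Cmd → Bool
  | .skip => true
  | .set _ _ => true
  | .put b' _ _ => decide (b ≠ b')
  | .seq c d => okA b c && okA b d
  | .ite _ c d => okA b c && okA b d
  | .loop _ _ c => okA b c

lemma run_v (I : ℕ → ℕ) {x : ℕ} (c : Cmd) : okV x c = true → ∀ s : St,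
    (run I c s).v x = s.v x := by
  induction c with
  | skip => intro _ s; rfl
  | set y e =>
    intro h s
    simp only [okV, decide_eq_true_eq] at h
    simp only [run, St.setV_v, Function.update_of_ne h]
  | put b i e => intro _ s; rfl
  | seq c d ih ih' =>
    intro h s
    simp only [okV, Bool.and_eq_true] at h
    simp only [run]
    rw [ih' h.2, ih h.1]
  | ite e c d ih ih' =>
    intro h s
    simp only [okV, Bool.and_eq_true] at h
    simp only [run]
    split_ifs
    · exact ih' h.2 s
    · exact ih h.1 s
  | loop y r c ih =>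
    intro h s
    simp only [okV, Bool.and_eq_true, decide_eq_true_eq] at h
    simp only [run]
    generalize s.v r = n
    induction n with
    | zero => rfl
    | succ n ihn =>
      simp only [iter]
      rw [ih h.2, St.setV_v, Function.update_of_ne h.1]
      exact ihn

lemma run_a (I : ℕ → ℕ) {b : ℕ} (c : Cmd) : okA b c = true → ∀ s : St,
    (run I c s).a b = s.a b := by
  induction c with
  | skip => intro _ s; rfl
  | set y e => intro _ s; rfl
  | put b' i e =>
    intro h s
    simp only [okA, decide_eq_true_eq] at h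
    simp only [run, St.setA_a, Function.update_of_ne h]
  | seq c d ih ih' =>
    intro h s
    simp only [okA, Bool.and_eq_true] at h
    simp only [run]
    rw [ih' h.2, ih h.1]
  | ite e c d ih ih' =>
    intro h s
    simp only [okA, Bool.and_eq_true] at h
    simp only [run]
    split_ifs
    · exact ih' h.2 s
    · exact ih h.1 s
  | loop y r c ih =>
    intro h s
    simp only [okA] at h
    simp only [run]
    generalize s.v r = n
    induction n with
    | zero => rfl
    | succ n ihn =>
      simp only [iter]
      rw [ih h]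
      exact ihn

/-! ### Loops -/

/-- Invariants of loops. -/
lemma iter_inv (f : ℕ → St → St) (s : St) (Q : ℕ → St → Prop) (h0 : Q 0 s) :
    ∀ n, (∀ i s', i < n → Q i s' → Q (i + 1) (f i s')) → Q n (iter f n s) := by
  intro n
  induction n with
  | zero => intro _; exact h0
  | succ n ih =>
    intro hs
    exact hs n _ (by omega) (ih fun i s' hi => hs i s' (by omega))

/-- The reads of an expression. -/
def readsA (b : ℕ) : Expr → Bool
  | .lit _ => false
  | .var _ => false
  | .bv _ => false
  | .arr b' e => decide (b' = b) || readsA b e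
  | .inp e => readsA b e
  | .add e f => readsA b e || readsA b f
  | .sub e f => readsA b e || readsA b f
  | .half e => readsA b e
  | .ite c e f => readsA b c || readsA b e || readsA b f
  | .sum _ e => readsA b e

lemma eval_congrA (I : ℕ → ℕ) {b : ℕ} {s s' : St} (hv : s'.v = s.v)
    (ha : ∀ b', b' ≠ b → s'.a b' = s.a b') (e : Expr) (h : readsA b e = false) :
    ∀ env, eval I s' e env = eval I s e env := by
  induction e with
  | lit c => intro env; rfl
  | var x => intro env; simp [hv]
  | bv j => intro env; rfl
  | arr b' e ih =>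
    intro env
    simp only [readsA, Bool.or_eq_false_iff, decide_eq_false_iff_not] at h
    rw [eval_arr, eval_arr, ih h.2, ha b' h.1]
  | inp e ih => intro env; rw [eval_inp, eval_inp, ih h]
  | add e f ih ih' =>
    intro env
    simp only [readsA, Bool.or_eq_false_iff] at h
    rw [eval_add, eval_add, ih h.1, ih' h.2]
  | sub e f ih ih' =>
    intro env
    simp only [readsA, Bool.or_eq_false_iff] at h
    rw [eval_sub, eval_sub, ih h.1, ih' h.2]
  | half e ih => intro env; rw [eval_half, eval_half, ih h]
  | ite c e f ihc ih ih' =>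
    intro env
    simp only [readsA, Bool.or_eq_false_iff] at h
    rw [eval_ite, eval_ite, ihc h.1.1, ih h.1.2, ih' h.2]
  | sum r e ih =>
    intro env
    rw [eval_sum, eval_sum, hv]
    exact Finset.sum_congr rfl fun i _ => ih h _

/-- `for x < r: b[x] := e` -/
def fill (x r b : ℕ) (e : Expr) : Cmd := .loop x r (.put b (.var x) e)

lemma run_fill (I : ℕ → ℕ) {x r b : ℕ} {e : Expr} (h : readsA b e = false) (s : St) :
    (∀ y, y ≠ x → (run I (fill x r b e) s).v y = s.v y) ∧
    (∀ b', b' ≠ b → (run I (fill x r b e) s).a b' = s.a b') ∧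
    ∀ i, (run I (fill x r b e) s).a b i =
      if i < s.v r then eval I (s.setV x i) e [] else s.a b i := by
  simp only [fill, run]
  generalize s.v r = n
  induction n with
  | zero => simp [iter]
  | succ n ih =>
    obtain ⟨h1, h2, h3⟩ := ih
    simp only [iter]
    set s' := iter (fun i s' => (s'.setV x i).setA b (eval I (s'.setV x i) (.var x) [])
      (eval I (s'.setV x i) e [])) n s with hs'
    have hv : (s'.setV x n).v = (s.setV x n).v := by
      funext y
      simp only [St.setV]
      by_cases hy : y = x
      · subst hy; simp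
      · rw [Function.update_of_ne hy, Function.update_of_ne hy, h1 y hy]
    have he : eval I (s'.setV x n) e [] = eval I (s.setV x n) e [] :=
      eval_congrA I (b := b) hv (fun b' hb' => h2 b' hb') e h []
    refine ⟨?_, ?_, ?_⟩
    · intro y hy
      simp only [St.setV, St.setA]
      rw [Function.update_of_ne hy, h1 y hy]
    · intro b' hb'
      simp only [St.setV, St.setA]
      rw [Function.update_of_ne hb', h2 b' hb']
    · intro i
      rw [he]
      simp only [St.setA, St.setV, eval_var, Function.update_self]
      by_cases hi : i = n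
      · subst hi
        rw [Function.update_self, if_pos (by omega)]
      · rw [Function.update_of_ne hi, h3 i]
        by_cases hin : i < n
        · rw [if_pos hin, if_pos (by omega)]
          rfl
        · rw [if_neg hin, if_neg (by omega)]

def seqs : List Cmd → Cmd
  | [] => .skip
  | c :: cs => .seq c (seqs cs)

/-! ### Top level -/

/-- Top-level commands may also set the read-only variables. -/
def okTop : Cmd → Bool
  | .set x e => decide (x < D0) && wfE 0 e
  | .skip => true
  | .put b i e => wfC (.put b i e)
  | .seq c d => wfC (.seq c d)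
  | .ite e c d => wfC (.ite e c d)
  | .loop x r c => wfC (.loop x r c)

lemma top_spec (P : Prog) (I : ℕ → ℕ) (W : ℕ) (c : Cmd) (hok : okTop c = true) (s : St)
    (hW : ∀ x, x < R0 → s.v x ≤ W) (d o : ℕ) (m : ℕ → ℕ) (hE : Enc s m) (hd : D0 ≤ d)
    (hc : CodeAt P o (compC c d o)) :
    ∃ m' t, Reach P I ⟨o, m⟩ ⟨o + lenC c, m'⟩ t ∧ Enc (run I c s) m' ∧ t ≤ timeC W c := by
  cases c with
  | set x e =>
    simp only [okTop, Bool.and_eq_true, decide_eq_true_eq] at hok
    obtain ⟨m', t, h1, h2, _, h3⟩ := set_spec P I W s hW x e d o m hok.1 hok.2 hE hd hc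
    exact ⟨m', t, h1, h2, h3⟩
  | skip =>
    obtain ⟨m', t, h1, h2, _, h3⟩ := compC_spec P I W .skip rfl s hW d o m hE hd hc
    exact ⟨m', t, h1, h2, h3⟩
  | put b i e =>
    obtain ⟨m', t, h1, h2, _, h3⟩ := compC_spec P I W _ hok s hW d o m hE hd hc
    exact ⟨m', t, h1, h2, h3⟩
  | seq c c' =>
    obtain ⟨m', t, h1, h2, _, h3⟩ := compC_spec P I W _ hok s hW d o m hE hd hc
    exact ⟨m', t, h1, h2, h3⟩
  | ite e c c' =>
    obtain ⟨m', t, h1, h2, _, h3⟩ := compC_spec P I W _ hok s hW d o m hE hd hc
    exact ⟨m', t, h1, h2, h3⟩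
  | loop x r c =>
    obtain ⟨m', t, h1, h2, _, h3⟩ := compC_spec P I W _ hok s hW d o m hE hd hc
    exact ⟨m', t, h1, h2, h3⟩

def compL : List Cmd → ℕ → List Instr
  | [], _ => []
  | c :: cs, o => compC c 48 o ++ compL cs (o + lenC c)

def runL (I : ℕ → ℕ) : List Cmd → St → St
  | [], s => s
  | c :: cs, s => runL I cs (run I c s)

lemma runL_append (I : ℕ → ℕ) (cs ds : List Cmd) : ∀ s, runL I (cs ++ ds) s =
    runL I ds (runL I cs s) := by
  induction cs with
  | nil => intro s; rfl
  | cons c cs ih => intro s; exact ih _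

def timeL (W : ℕ) : List Cmd → ℕ
  | [] => 0
  | c :: cs => timeC W c + timeL W cs

def BddL (I : ℕ → ℕ) (W : ℕ) : List Cmd → St → Prop
  | [], _ => True
  | c :: cs, s => (∀ x, x < R0 → s.v x ≤ W) ∧ BddL I W cs (run I c s)

lemma BddL_append (I : ℕ → ℕ) (W : ℕ) (cs ds : List Cmd) : ∀ s, BddL I W cs s →
    BddL I W ds (runL I cs s) → BddL I W (cs ++ ds) s := by
  induction cs with
  | nil => intro s _ h; exact h
  | cons c cs ih => intro s h h'; exact ⟨h.1, ih _ h.2 h'⟩

lemma list_spec (P : Prog) (I : ℕ → ℕ) (W : ℕ) : ∀ (cs : List Cmd) (s : St) (o : ℕ)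
    (m : ℕ → ℕ), (∀ c ∈ cs, okTop c = true) → BddL I W cs s → Enc s m →
    CodeAt P o (compL cs o) →
    ∃ m' t, Reach P I ⟨o, m⟩ ⟨o + (compL cs o).length, m'⟩ t ∧ Enc (runL I cs s) m' ∧
      t ≤ timeL W cs := by
  intro cs
  induction cs with
  | nil =>
    intro s o m _ _ hE _
    exact ⟨m, 0, Reach.refl _ _ _, hE, le_rfl⟩
  | cons c cs ih =>
    intro s o m hok hb hE hc
    obtain ⟨c1, c2⟩ := CodeAt.app hc
    rw [length_compC] at c2
    obtain ⟨m1, t1, r1, e1, l1⟩ := top_spec P I W c (hok c (by simp)) s hb.1 48 o m hE
      (by decide) c1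
    obtain ⟨m2, t2, r2, e2, l2⟩ := ih (run I c s) (o + lenC c) m1
      (fun c' hc' => hok c' (by simp [hc'])) hb.2 e1 c2
    refine ⟨m2, t1 + t2, ?_, e2, ?_⟩
    · have := r1.trans r2
      simp only [compL, List.length_append, length_compC]
      rw [← add_assoc]
      exact this
    · simp only [timeL]; omega

lemma timeL_poly (cs : List Cmd) : ∃ C D : ℕ, ∀ W, timeL W cs ≤ C * (W + 1) ^ D := by
  induction cs with
  | nil => exact ⟨0, 0, fun W => by simp [timeL]⟩
  | cons c cs ih =>
    obtain ⟨C, D, h⟩ := ih
    obtain ⟨C', D', h'⟩ := timeC_poly c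
    refine ⟨C + C', D + D', fun W => ?_⟩
    have h3 : (W + 1) ^ D ≤ (W + 1) ^ (D + D') := Nat.pow_le_pow_right (by omega) (by omega)
    have h4 : (W + 1) ^ D' ≤ (W + 1) ^ (D + D') := Nat.pow_le_pow_right (by omega) (by omega)
    have := h W
    have := h' W
    simp only [timeL]
    nlinarith

end Pool.Agent.Lib54.LP
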