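import Pool.Agent.Lib_helper54.LongPath.Loop

/-!
# Compilation of the loop language, with time bounds

(The machine, the loop language and its compiler are due to helper40, see
`Pool/Agent/Lib_helper40/TI`; copied here.)
-/

namespace Pool.Agent.Lib54.LP

/-- `c'` is reached from `c` in exactly `t` steps. -/
def Reach (P : Prog) (I : ℕ → ℕ) (c c' : Cfg) (t : ℕ) : Prop := (step P I)^[t] c = c'

lemma Reach.refl (P : Prog) (I : ℕ → ℕ) (c : Cfg) : Reach P I c c 0 := rfl

lemma Reach.trans {P : Prog} {I : ℕ → ℕ} {c c' c'' : Cfg} {t t' : ℕ}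
    (h : Reach P I c c' t) (h' : Reach P I c' c'' t') : Reach P I c c'' (t + t') := by
  unfold Reach at *
  rw [add_comm, Function.iterate_add_apply, h, h']

/-- The code `L` occurs in `P` at the position `o`. -/
def CodeAt (P : Prog) (o : ℕ) (L : List Instr) : Prop := ∀ i, i < L.length → P[o + i]? = L[i]?

lemma CodeAt.app {P : Prog} {o : ℕ} {L M : List Instr} (h : CodeAt P o (L ++ M)) :
    CodeAt P o L ∧ CodeAt P (o + L.length) M := by
  constructor
  · intro i hi
    rw [h i (by rw [List.length_append]; omega), List.getElem?_append_left hi]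
  · intro i hi
    have := h (L.length + i) (by rw [List.length_append]; omega)
    rw [← add_assoc] at this
    rw [this, List.getElem?_append_right (by omega)]
    congr 1
    omega

lemma CodeAt.head {P : Prog} {o : ℕ} {J : Instr} {M : List Instr} (h : CodeAt P o (J :: M)) :
    P[o]? = some J ∧ CodeAt P (o + 1) M := by
  have h' : CodeAt P o ([J] ++ M) := h
  obtain ⟨h1, h2⟩ := h'.app
  refine ⟨?_, h2⟩
  have := h1 0 (by simp)
  simpa using this

lemma reach_one {P : Prog} {I : ℕ → ℕ} {o : ℕ} {m : ℕ → ℕ} {J : Instr} (h : P[o]? = some J) :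
    Reach P I ⟨o, m⟩ (J.exec I ⟨o, m⟩) 1 := by
  simp [Reach, step, h]

/-- Instructions that are not jumps. -/
def Instr.isSL : Instr → Bool
  | .jump _ => false
  | .jzero _ _ => false
  | _ => true

/-- Effect of an instruction on the memory. -/
def Instr.eff (I : ℕ → ℕ) (m : ℕ → ℕ) (J : Instr) : ℕ → ℕ := (J.exec I ⟨0, m⟩).mem

lemma exec_sl {I : ℕ → ℕ} {o : ℕ} {m : ℕ → ℕ} {J : Instr} (h : J.isSL = true) :
    J.exec I ⟨o, m⟩ = ⟨o + 1, J.eff I m⟩ := by
  cases J <;> simp_all [Instr.isSL, Instr.exec, Instr.eff]

lemma reach_sl {P : Prog} {I : ℕ → ℕ} : ∀ (L : List Instr) (o : ℕ) (m : ℕ → ℕ),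
    CodeAt P o L → (∀ J ∈ L, J.isSL = true) →
    Reach P I ⟨o, m⟩ ⟨o + L.length, L.foldl (fun m J => J.eff I m) m⟩ L.length := by
  intro L
  induction L with
  | nil => intro o m _ _; exact Reach.refl _ _ _
  | cons J L ih =>
    intro o m h hs
    obtain ⟨h1, h2⟩ := h.head
    have r1 := reach_one (I := I) (m := m) h1
    rw [exec_sl (hs J (by simp))] at r1
    have r2 := ih (o + 1) (J.eff I m) h2 (fun J' hJ' => hs J' (by simp [hJ']))
    have := r1.trans r2
    simp only [List.length_cons, List.foldl_cons]
    rw [show o + (L.length + 1) = o + 1 + L.length by ring, show L.length + 1 = 1 + L.length by ring]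
    exact this

def lenE : Expr → ℕ
  | .lit _ => 1
  | .var _ => 2
  | .bv _ => 2
  | .arr _ e => lenE e + 8
  | .inp e => lenE e + 1
  | .add e f => lenE e + (lenE f + 1)
  | .sub e f => lenE e + (lenE f + 1)
  | .half e => lenE e + 1
  | .ite c e f => lenE c + (1 + (lenE e + (1 + lenE f)))
  | .sum _ e => 4 + (2 + (lenE e + 4))

def compE : Expr → List ℕ → ℕ → ℕ → List Instr
  | .lit c, _, d, _ => [.const (32 * d) c]
  | .var x, _, d, _ => [.const (32 * d) 0, .add (32 * d) (32 * x) (32 * d)]
  | .bv j, ρ, d, _ => [.const (32 * d) 0, .add (32 * d) (32 * ρ.getD j 0) (32 * d)]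
  | .arr b e, ρ, d, o => compE e ρ d o ++
      [.add (32 * d) (32 * d) (32 * d), .add (32 * d) (32 * d) (32 * d),
       .add (32 * d) (32 * d) (32 * d), .add (32 * d) (32 * d) (32 * d),
       .add (32 * d) (32 * d) (32 * d), .const (32 * (d + 1)) (b + 1),
       .add (32 * d) (32 * d) (32 * (d + 1)), .load (32 * d) (32 * d)]
  | .inp e, ρ, d, o => compE e ρ d o ++ [.read (32 * d) (32 * d)]
  | .add e f, ρ, d, o => compE e ρ d o ++ (compE f ρ (d + 1) (o + lenE e) ++
      [.add (32 * d) (32 * d) (32 * (d + 1))])
  | .sub e f, ρ, d, o => compE e ρ d o ++ (compE f ρ (d + 1) (o + lenE e) ++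
      [.sub (32 * d) (32 * d) (32 * (d + 1))])
  | .half e, ρ, d, o => compE e ρ d o ++ [.half (32 * d) (32 * d)]
  | .ite c e f, ρ, d, o => compE c ρ d o ++ ([.jzero (32 * d) (o + lenE c + 1 + lenE e + 1)] ++
      (compE e ρ d (o + lenE c + 1) ++ ([.jump (o + lenE c + 1 + lenE e + 1 + lenE f)] ++
      compE f ρ d (o + lenE c + 1 + lenE e + 1))))
  | .sum r e, ρ, d, o =>
      [.const (32 * d) 0, .const (32 * (d + 1)) 0, .const (32 * (d + 2)) 0,
       .add (32 * (d + 2)) (32 * r) (32 * (d + 2))] ++
      ([.sub (32 * (d + 3)) (32 * (d + 2)) (32 * (d + 1)),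
        .jzero (32 * (d + 3)) (o + 4 + 2 + lenE e + 4)] ++
      (compE e (ρ ++ [d + 1]) (d + 3) (o + 4 + 2) ++
      [.add (32 * d) (32 * d) (32 * (d + 3)), .const (32 * (d + 3)) 1,
       .add (32 * (d + 1)) (32 * (d + 1)) (32 * (d + 3)), .jump (o + 4)]))

lemma length_compE (e : Expr) : ∀ ρ d o, (compE e ρ d o).length = lenE e := by
  induction e with
  | lit c => intros; simp [compE, lenE]
  | var x => intros; simp [compE, lenE]
  | bv j => intros; simp [compE, lenE]
  | arr b e ih => intros; simp [compE, lenE, ih]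
  | inp e ih => intros; simp [compE, lenE, ih]
  | add e f ihe ihf => intros; simp [compE, lenE, ihe, ihf]
  | sub e f ihe ihf => intros; simp [compE, lenE, ihe, ihf]
  | half e ih => intros; simp [compE, lenE, ih]
  | ite c e f ihc ihe ihf => intros; simp [compE, lenE, ihc, ihe, ihf]; omega
  | sum r e ih => intros; simp [compE, lenE, ih]; omega

/-- The memory `m` represents the state `s`. -/
def Enc (s : St) (m : ℕ → ℕ) : Prop :=
  (∀ x, x < D0 → m (32 * x) = s.v x) ∧ (∀ b, b < 31 → ∀ i, m (32 * i + b + 1) = s.a b i)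

/-- The memory changes only in the variables from `d` on. -/
def Frame (d : ℕ) (m m' : ℕ → ℕ) : Prop := ∀ a, (∀ x, d ≤ x → a ≠ 32 * x) → m' a = m a

lemma Frame.refl (d : ℕ) (m : ℕ → ℕ) : Frame d m m := fun _ _ => rfl

lemma Frame.trans {d : ℕ} {m m' m'' : ℕ → ℕ} (h : Frame d m m') (h' : Frame d m' m'') :
    Frame d m m'' := fun a ha => (h' a ha).trans (h a ha)

lemma Frame.mono {d d' : ℕ} {m m' : ℕ → ℕ} (h : Frame d m m') (hd : d' ≤ d) : Frame d' m m' :=
  fun a ha => h a fun x hx => ha x (hd.trans hx)

lemma Frame.update {d x c : ℕ} {m : ℕ → ℕ} (hx : d ≤ x) :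
    Frame d m (Function.update m (32 * x) c) := by
  intro a ha
  rw [Function.update_of_ne (ha x hx)]

lemma Frame.var {d : ℕ} {m m' : ℕ → ℕ} (h : Frame d m m') {x : ℕ} (hx : x < d) :
    m' (32 * x) = m (32 * x) := h _ fun y hy hxy => by omega

lemma Enc.frame {s : St} {m m' : ℕ → ℕ} (h : Enc s m) {d : ℕ} (hd : D0 ≤ d) (hf : Frame d m m') :
    Enc s m' := by
  constructor
  · intro x hx
    rw [hf.var (by omega), h.1 x hx]
  · intro b hb i
    rw [hf _ (fun x _ => by omega), h.2 b hb i]

/-- The registers listed in `ρ` hold the values `env`. -/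
def EnvOk (ρ env : List ℕ) (d : ℕ) (m : ℕ → ℕ) : Prop :=
  ρ.length = env.length ∧ ∀ j, j < env.length → ρ.getD j 0 < d ∧ m (32 * ρ.getD j 0) = env.getD j 0

lemma EnvOk.frame {ρ env : List ℕ} {d : ℕ} {m m' : ℕ → ℕ} (h : EnvOk ρ env d m)
    (hf : Frame d m m') : EnvOk ρ env d m' :=
  ⟨h.1, fun j hj => ⟨(h.2 j hj).1, by rw [hf.var (h.2 j hj).1, (h.2 j hj).2]⟩⟩

lemma EnvOk.mono {ρ env : List ℕ} {d d' : ℕ} {m : ℕ → ℕ} (h : EnvOk ρ env d m) (hd : d ≤ d') :
    EnvOk ρ env d' m :=
  ⟨h.1, fun j hj => ⟨(h.2 j hj).1.trans_le hd, (h.2 j hj).2⟩⟩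

lemma EnvOk.snoc {ρ env : List ℕ} {d r i : ℕ} {m : ℕ → ℕ} (h : EnvOk ρ env d m) (hr : r < d)
    (hi : m (32 * r) = i) : EnvOk (ρ ++ [r]) (env ++ [i]) d m := by
  refine ⟨by simp [h.1], fun j hj => ?_⟩
  rw [List.length_append, List.length_singleton] at hj
  rcases Nat.lt_or_ge j env.length with hj' | hj'
  · rw [List.getD_append _ _ _ _ (by rw [h.1]; exact hj'), List.getD_append _ _ _ _ hj']
    exact h.2 j hj'
  · have : j = env.length := by omega
    subst this
    rw [List.getD_append_right _ _ _ _ (by rw [h.1]), List.getD_append_right _ _ _ _ le_rfl, h.1]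
    simp [hr, hi]

theorem compE_spec (P : Prog) (I : ℕ → ℕ) (W : ℕ) (s : St) (hW : ∀ x, x < R0 → s.v x ≤ W)
    (e : Expr) : ∀ (ρ env : List ℕ) (d o : ℕ) (m : ℕ → ℕ), wfE env.length e = true →
    EnvOk ρ env d m → Enc s m → D0 ≤ d → CodeAt P o (compE e ρ d o) →
    ∃ m' t, Reach P I ⟨o, m⟩ ⟨o + lenE e, m'⟩ t ∧ m' (32 * d) = eval I s e env ∧
      Frame d m m' ∧ t ≤ timeE W e := by
  induction e with
  | lit c =>
    intro ρ env d o m hwf hρ hE hd hc
    have := reach_sl (I := I) _ o m hc (by simp [compE, Instr.isSL])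
    refine ⟨_, _, this, ?_, ?_, ?_⟩
    · simp [compE, Instr.eff, Instr.exec, eval]
    · simp only [compE, Instr.eff, Instr.exec, List.foldl_cons, List.foldl_nil]
      exact Frame.update le_rfl
    · simp [compE, timeE]
  | var x =>
    intro ρ env d o m hwf hρ hE hd hc
    have := reach_sl (I := I) _ o m hc (by simp [compE, Instr.isSL])
    simp only [wfE, decide_eq_true_eq] at hwf
    refine ⟨_, _, this, ?_, ?_, ?_⟩
    · have hne : 32 * x ≠ 32 * d := by omega
      simp [compE, Instr.eff, Instr.exec, eval, Function.update_of_ne hne, hE.1 x hwf]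
    · simp only [compE, Instr.eff, Instr.exec, List.foldl_cons, List.foldl_nil]
      exact (Frame.update le_rfl).trans (Frame.update le_rfl)
    · simp [compE, timeE]
  | bv j =>
    intro ρ env d o m hwf hρ hE hd hc
    have := reach_sl (I := I) _ o m hc (by simp [compE, Instr.isSL])
    simp only [wfE, decide_eq_true_eq] at hwf
    obtain ⟨h1, h2⟩ := hρ.2 j hwf
    refine ⟨_, _, this, ?_, ?_, ?_⟩
    · have hne : 32 * ρ.getD j 0 ≠ 32 * d := by omega
      simp only [compE, Instr.eff, Instr.exec, eval, List.foldl_cons, List.foldl_nil,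
        Function.update_self, Function.update_of_ne hne, h2]
      simp
    · simp only [compE, Instr.eff, Instr.exec, List.foldl_cons, List.foldl_nil]
      exact (Frame.update le_rfl).trans (Frame.update le_rfl)
    · simp [compE, timeE]
  | arr b e ih =>
    intro ρ env d o m hwf hρ hE hd hc
    simp only [wfE, Bool.and_eq_true, decide_eq_true_eq] at hwf
    obtain ⟨c1, c2⟩ := CodeAt.app hc
    obtain ⟨m1, t1, r1, e1, f1, l1⟩ := ih ρ env d o m hwf.2 hρ hE hd c1
    rw [length_compE] at c2
    have r2 := reach_sl (I := I) _ (o + lenE e) m1 c2 (by simp [Instr.isSL])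
    have r3 := r1.trans r2
    refine ⟨_, _, r3, ?_, ?_, ?_⟩
    · have hE1 := hE.frame hd f1
      have hne : 32 * d ≠ 32 * (d + 1) := by omega
      have key : eval I s e env + eval I s e env + (eval I s e env + eval I s e env) +
        (eval I s e env + eval I s e env + (eval I s e env + eval I s e env)) +
        (eval I s e env + eval I s e env + (eval I s e env + eval I s e env) +
        (eval I s e env + eval I s e env + (eval I s e env + eval I s e env))) +
        (eval I s e env + eval I s e env + (eval I s e env + eval I s e env) +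
        (eval I s e env + eval I s e env + (eval I s e env + eval I s e env)) +
        (eval I s e env + eval I s e env + (eval I s e env + eval I s e env) +
        (eval I s e env + eval I s e env + (eval I s e env + eval I s e env)))) + (b + 1) =
        32 * eval I s e env + b + 1 := by ring
      simp only [Instr.eff, Instr.exec, eval, List.foldl_cons, List.foldl_nil,
        Function.update_self, Function.update_of_ne hne, e1, key]
      have h1 : 32 * eval I s e env + b + 1 ≠ 32 * d := by omega
      have h2 : 32 * eval I s e env + b + 1 ≠ 32 * (d + 1) := by omega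
      simp only [Function.update_of_ne h1, Function.update_of_ne h2]
      exact hE1.2 b hwf.1 _
    · refine f1.trans ?_
      simp only [Instr.eff, Instr.exec, List.foldl_cons, List.foldl_nil]
      exact (((((((Frame.update le_rfl).trans (Frame.update le_rfl)).trans
        (Frame.update le_rfl)).trans (Frame.update le_rfl)).trans (Frame.update le_rfl)).trans
        (Frame.update (by omega))).trans (Frame.update le_rfl)).trans (Frame.update le_rfl)
    · simp [timeE, l1]
  | inp e ih =>
    intro ρ env d o m hwf hρ hE hd hc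
    simp only [wfE] at hwf
    obtain ⟨c1, c2⟩ := CodeAt.app hc
    obtain ⟨m1, t1, r1, e1, f1, l1⟩ := ih ρ env d o m hwf hρ hE hd c1
    rw [length_compE] at c2
    have r2 := reach_sl (I := I) _ (o + lenE e) m1 c2 (by simp [Instr.isSL])
    have r3 := r1.trans r2
    refine ⟨_, _, r3, ?_, ?_, ?_⟩
    · simp only [Instr.eff, Instr.exec, eval, List.foldl_cons, List.foldl_nil,
        Function.update_self, e1]
    · refine f1.trans ?_
      simp only [Instr.eff, Instr.exec, List.foldl_cons, List.foldl_nil]
      exact Frame.update le_rfl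
    · simp [timeE, l1]
  | add e f ihe ihf =>
    intro ρ env d o m hwf hρ hE hd hc
    simp only [wfE, Bool.and_eq_true] at hwf
    obtain ⟨c1, c2⟩ := CodeAt.app hc
    obtain ⟨m1, t1, r1, e1, f1, l1⟩ := ihe ρ env d o m hwf.1 hρ hE hd c1
    rw [length_compE] at c2
    obtain ⟨c2, c3⟩ := CodeAt.app c2
    obtain ⟨m2, t2, r2, e2, f2, l2⟩ := ihf ρ env (d + 1) (o + lenE e) m1 hwf.2
      ((hρ.frame f1).mono (by omega)) (hE.frame hd f1) (by omega) c2
    rw [length_compE] at c3
    have r3 := reach_sl (I := I) _ _ m2 c3 (by simp [Instr.isSL])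
    have r4 := (r1.trans r2).trans r3
    rw [show o + lenE e + lenE f + [Instr.add (32 * d) (32 * d) (32 * (d + 1))].length =
      o + lenE (Expr.add e f) by simp [lenE]; ring] at r4
    refine ⟨_, _, r4, ?_, ?_, ?_⟩
    · have h1 := f2.var (x := d) (by omega)
      simp only [Instr.eff, Instr.exec, eval, List.foldl_cons, List.foldl_nil,
        Function.update_self, h1, e1, e2]
    · refine f1.trans ((f2.mono (by omega)).trans ?_)
      simp only [Instr.eff, Instr.exec, List.foldl_cons, List.foldl_nil]
      exact Frame.update le_rfl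
    · simp only [timeE, List.length_singleton]; omega
  | sub e f ihe ihf =>
    intro ρ env d o m hwf hρ hE hd hc
    simp only [wfE, Bool.and_eq_true] at hwf
    obtain ⟨c1, c2⟩ := CodeAt.app hc
    obtain ⟨m1, t1, r1, e1, f1, l1⟩ := ihe ρ env d o m hwf.1 hρ hE hd c1
    rw [length_compE] at c2
    obtain ⟨c2, c3⟩ := CodeAt.app c2
    obtain ⟨m2, t2, r2, e2, f2, l2⟩ := ihf ρ env (d + 1) (o + lenE e) m1 hwf.2
      ((hρ.frame f1).mono (by omega)) (hE.frame hd f1) (by omega) c2
    rw [length_compE] at c3
    have r3 := reach_sl (I := I) _ _ m2 c3 (by simp [Instr.isSL])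
    have r4 := (r1.trans r2).trans r3
    rw [show o + lenE e + lenE f + [Instr.sub (32 * d) (32 * d) (32 * (d + 1))].length =
      o + lenE (Expr.sub e f) by simp [lenE]; ring] at r4
    refine ⟨_, _, r4, ?_, ?_, ?_⟩
    · have h1 := f2.var (x := d) (by omega)
      simp only [Instr.eff, Instr.exec, eval, List.foldl_cons, List.foldl_nil,
        Function.update_self, h1, e1, e2]
    · refine f1.trans ((f2.mono (by omega)).trans ?_)
      simp only [Instr.eff, Instr.exec, List.foldl_cons, List.foldl_nil]
      exact Frame.update le_rfl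
    · simp only [timeE, List.length_singleton]; omega
  | half e ih =>
    intro ρ env d o m hwf hρ hE hd hc
    simp only [wfE] at hwf
    obtain ⟨c1, c2⟩ := CodeAt.app hc
    obtain ⟨m1, t1, r1, e1, f1, l1⟩ := ih ρ env d o m hwf hρ hE hd c1
    rw [length_compE] at c2
    have r2 := reach_sl (I := I) _ (o + lenE e) m1 c2 (by simp [Instr.isSL])
    have r3 := r1.trans r2
    refine ⟨_, _, r3, ?_, ?_, ?_⟩
    · simp only [Instr.eff, Instr.exec, eval, List.foldl_cons, List.foldl_nil,
        Function.update_self, e1]
    · refine f1.trans ?_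
      simp only [Instr.eff, Instr.exec, List.foldl_cons, List.foldl_nil]
      exact Frame.update le_rfl
    · simp [timeE, l1]
  | ite c e f ihc ihe ihf =>
    intro ρ env d o m hwf hρ hE hd hc
    simp only [wfE, Bool.and_eq_true] at hwf
    obtain ⟨c1, c2⟩ := CodeAt.app hc
    obtain ⟨m1, t1, r1, e1, f1, l1⟩ := ihc ρ env d o m hwf.1.1 hρ hE hd c1
    rw [length_compE] at c2
    obtain ⟨c2, c3⟩ := CodeAt.app c2
    have hj := (CodeAt.head c2).1
    simp only [List.length_singleton] at c3
    obtain ⟨c3, c4⟩ := CodeAt.app c3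
    rw [length_compE] at c4
    obtain ⟨c4, c5⟩ := CodeAt.app c4
    have hj2 := (CodeAt.head c4).1
    simp only [List.length_singleton] at c5
    have r2 := reach_one (I := I) (m := m1) hj
    simp only [Instr.exec] at r2
    by_cases h0 : eval I s c env = 0
    · rw [e1, if_pos h0] at r2
      obtain ⟨m2, t2, r3, e2, f2, l2⟩ := ihf ρ env d _ m1 hwf.2 (hρ.frame f1)
        (hE.frame hd f1) hd c5
      have r4 := (r1.trans r2).trans r3
      rw [show o + lenE c + 1 + lenE e + 1 + lenE f = o + lenE (Expr.ite c e f) by
        simp [lenE]; ring] at r4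
      refine ⟨_, _, r4, ?_, f1.trans f2, ?_⟩
      · rw [e2]; simp [eval, h0]
      · simp only [timeE]; omega
    · rw [e1, if_neg h0] at r2
      obtain ⟨m2, t2, r3, e2, f2, l2⟩ := ihe ρ env d _ m1 hwf.1.2 (hρ.frame f1)
        (hE.frame hd f1) hd c3
      have r5 := reach_one (I := I) (m := m2) hj2
      simp only [Instr.exec] at r5
      have r4 := ((r1.trans r2).trans r3).trans r5
      rw [show o + lenE c + 1 + lenE e + 1 + lenE f = o + lenE (Expr.ite c e f) by
        simp [lenE]; ring] at r4
      refine ⟨_, _, r4, ?_, f1.trans f2, ?_⟩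
      · rw [e2]; simp [eval, h0]
      · simp only [timeE]; omega
  | sum r e ih =>
    intro ρ env d o m hwf hρ hE hd hc
    simp only [wfE, Bool.and_eq_true, decide_eq_true_eq] at hwf
    obtain ⟨hr, hwf⟩ := hwf
    have hrD : r < D0 := hr.trans (by decide)
    obtain ⟨c1, c2⟩ := CodeAt.app hc
    have r1 := reach_sl (I := I) _ o m c1 (by simp [Instr.isSL])
    simp only [List.length_cons, List.length_nil, Instr.eff, Instr.exec, List.foldl_cons,
      List.foldl_nil] at r1 c2
    norm_num at r1 c2
    have c3 : CodeAt P (o + 4 + 2) (compE e (ρ ++ [d + 1]) (d + 3) (o + 4 + 2) ++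
          [Instr.add (32 * d) (32 * d) (32 * (d + 3)), Instr.const (32 * (d + 3)) 1,
            Instr.add (32 * (d + 1)) (32 * (d + 1)) (32 * (d + 3)), Instr.jump (o + 4)]) :=
      (CodeAt.head (CodeAt.head c2).2).2
    obtain ⟨c3, c4⟩ := CodeAt.app c3
    rw [length_compE] at c4
    -- the loop
    have hloop : ∀ (i : ℕ), i ≤ s.v r → ∀ mm : ℕ → ℕ, Frame d m mm →
        mm (32 * d) = ∑ j ∈ Finset.range i, eval I s e (env ++ [j]) → mm (32 * (d + 1)) = i →
        mm (32 * (d + 2)) = s.v r →
        ∃ m' t, Reach P I ⟨o + 4, mm⟩ ⟨o + 4 + 2 + lenE e + 4, m'⟩ t ∧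
          m' (32 * d) = ∑ j ∈ Finset.range (s.v r), eval I s e (env ++ [j]) ∧ Frame d m m' ∧
          t ≤ (s.v r - i) * (timeE W e + 6) + 2 := by
      intro i hi
      induction h : s.v r - i generalizing i with
      | zero =>
        intro mm hf ha hb hl
        have hi' : i = s.v r := by omega
        obtain ⟨hj1, hrest⟩ := CodeAt.head c2
        have hj2 := (CodeAt.head hrest).1
        have q1 := reach_one (I := I) (m := mm) hj1
        simp only [Instr.exec, hb, hl] at q1
        have q2 := reach_one (I := I) (m := Function.update mm (32 * (d + 3)) (s.v r - i)) hj2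
        simp only [Instr.exec, Function.update_self] at q2
        rw [if_pos (by omega)] at q2
        refine ⟨_, _, q1.trans q2, ?_, hf.trans (Frame.update (by omega)), by omega⟩
        rw [Function.update_of_ne (by omega), ha, hi']
      | succ k ihk =>
        intro mm hf ha hb hl
        have hilt : i < s.v r := by omega
        obtain ⟨hj1, hrest⟩ := CodeAt.head c2
        have hj2 := (CodeAt.head hrest).1
        have q1 := reach_one (I := I) (m := mm) hj1
        simp only [Instr.exec, hb, hl] at q1
        have q2 := reach_one (I := I) (m := Function.update mm (32 * (d + 3)) (s.v r - i)) hj2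
        simp only [Instr.exec, Function.update_self] at q2
        rw [if_neg (by omega)] at q2
        set mm1 := Function.update mm (32 * (d + 3)) (s.v r - i) with hmm1
        have hf1 : Frame d m mm1 := hf.trans (Frame.update (by omega))
        have hfd3 : Frame (d + 3) mm mm1 := Frame.update le_rfl
        obtain ⟨m2, t2, q3, e2, f2, l2⟩ := ih (ρ ++ [d + 1]) (env ++ [i]) (d + 3) (o + 4 + 2) mm1
          (by rw [List.length_append]; exact hwf)
          (((hρ.frame hf1).mono (by omega)).snoc (by omega) (by rw [hfd3.var (by omega), hb]))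
          (hE.frame hd hf1) (by omega) c3
        have q4 := reach_sl (I := I) (m := m2)
          [Instr.add (32 * d) (32 * d) (32 * (d + 3)), .const (32 * (d + 3)) 1,
            .add (32 * (d + 1)) (32 * (d + 1)) (32 * (d + 3))] (o + 4 + 2 + lenE e)
          ((show CodeAt P (o + 4 + 2 + lenE e) ([Instr.add (32 * d) (32 * d) (32 * (d + 3)),
            .const (32 * (d + 3)) 1, .add (32 * (d + 1)) (32 * (d + 1)) (32 * (d + 3))] ++
            [Instr.jump (o + 4)]) from c4).app.1) (by simp [Instr.isSL])
        have hjj := (CodeAt.head ((show CodeAt P (o + 4 + 2 + lenE e)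
          ([Instr.add (32 * d) (32 * d) (32 * (d + 3)),
            .const (32 * (d + 3)) 1, .add (32 * (d + 1)) (32 * (d + 1)) (32 * (d + 3))] ++
            [Instr.jump (o + 4)]) from c4).app.2)).1
        simp only [List.length_cons, List.length_nil, Instr.eff, Instr.exec, List.foldl_cons,
          List.foldl_nil] at q4 hjj
        set m3 := Function.update
          (Function.update (Function.update m2 (32 * d) (m2 (32 * d) + m2 (32 * (d + 3))))
            (32 * (d + 3)) 1) (32 * (d + 1))
          (Function.update (Function.update m2 (32 * d) (m2 (32 * d) + m2 (32 * (d + 3))))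
            (32 * (d + 3)) 1 (32 * (d + 1)) +
            Function.update (Function.update m2 (32 * d) (m2 (32 * d) + m2 (32 * (d + 3))))
            (32 * (d + 3)) 1 (32 * (d + 3))) with hm3
        have q5 := reach_one (I := I) (m := m3) hjj
        simp only [Instr.exec] at q5
        have v0 : m2 (32 * d) = ∑ j ∈ Finset.range i, eval I s e (env ++ [j]) := by
          rw [f2.var (by omega), hfd3.var (by omega), ha]
        have v1 : m2 (32 * (d + 1)) = i := by rw [f2.var (by omega), hfd3.var (by omega), hb]
        have v2 : m2 (32 * (d + 2)) = s.v r := by rw [f2.var (by omega), hfd3.var (by omega), hl]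
        have hf3 : Frame d m m3 := by
          refine hf1.trans ((f2.mono (by omega)).trans ?_)
          exact ((Frame.update le_rfl).trans (Frame.update (by omega))).trans
            (Frame.update (by omega))
        obtain ⟨m4, t4, q6, e4, f4, l4⟩ := ihk (i + 1) (by omega) (by omega) m3 hf3
          (by
            rw [hm3, Function.update_of_ne (by omega), Function.update_of_ne (by omega),
              Function.update_self, v0, e2, Finset.sum_range_succ])
          (by
            rw [hm3, Function.update_self, Function.update_of_ne (by omega),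
              Function.update_of_ne (by omega), Function.update_self, v1])
          (by
            rw [hm3, Function.update_of_ne (by omega), Function.update_of_ne (by omega),
              Function.update_of_ne (by omega), v2])
        refine ⟨m4, _, ((((q1.trans q2).trans q3).trans q4).trans q5).trans q6, e4, f4, ?_⟩
        nlinarith
    set m1 := Function.update (Function.update (Function.update (Function.update m (32 * d) 0)
      (32 * (d + 1)) 0) (32 * (d + 2)) 0) (32 * (d + 2))
      (Function.update (Function.update (Function.update m (32 * d) 0)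
      (32 * (d + 1)) 0) (32 * (d + 2)) 0 (32 * r) +
      Function.update (Function.update (Function.update m (32 * d) 0)
      (32 * (d + 1)) 0) (32 * (d + 2)) 0 (32 * (d + 2))) with hm1
    have hvr : m1 (32 * (d + 2)) = s.v r := by
      rw [hm1, Function.update_self, Function.update_self, Function.update_of_ne (by omega),
        Function.update_of_ne (by omega), Function.update_of_ne (by omega), hE.1 r hrD, add_zero]
    obtain ⟨m', t, q, e', f', l'⟩ := hloop 0 (Nat.zero_le _) m1
      ((((Frame.update le_rfl).trans (Frame.update (by omega))).trans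
        (Frame.update (by omega))).trans (Frame.update (by omega)))
      (by rw [hm1, Function.update_of_ne (by omega), Function.update_of_ne (by omega),
        Function.update_of_ne (by omega), Function.update_self]; simp)
      (by rw [hm1, Function.update_of_ne (by omega), Function.update_of_ne (by omega),
        Function.update_self]) hvr
    have r1' : Reach P I ⟨o, m⟩ ⟨o + 4, m1⟩ 4 := by
      rw [hm1]
      convert r1 using 2
      all_goals simp
    have r2 := r1'.trans q
    rw [show o + 4 + 2 + lenE e + 4 = o + lenE (Expr.sum r e) by simp [lenE]; ring] at r2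
    refine ⟨_, _, r2, ?_, f', ?_⟩
    · rw [e']; simp [eval]
    · simp only [timeE]
      have h1 : (s.v r - 0) * (timeE W e + 6) ≤ W * (timeE W e + 6) :=
        Nat.mul_le_mul_right _ (by have := hW r hr; omega)
      omega

end Pool.Agent.Lib54.LP
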