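import Pool.Agent.Lib_helper54.LongPath.Compile

/-!
# Compilation of commands

(The machine, the loop language and its compiler are due to helper40, see
`Pool/Agent/Lib_helper40/TI`; copied here.)
-/

namespace Pool.Agent.Lib54.LP

def lenC : Cmd → ℕ
  | .skip => 0
  | .set _ e => lenE e + 2
  | .put _ i e => lenE i + (lenE e + 8)
  | .seq c d => lenC c + lenC d
  | .ite e c d => lenE e + (1 + (lenC c + (1 + lenC d)))
  | .loop _ _ c => 3 + (4 + (lenC c + 3))

def compC : Cmd → ℕ → ℕ → List Instr
  | .skip, _, _ => []
  | .set x e, d, o => compE e [] d o ++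
      [.const (32 * x) 0, .add (32 * x) (32 * d) (32 * x)]
  | .put b i e, d, o => compE i [] d o ++ (compE e [] (d + 1) (o + lenE i) ++
      [.add (32 * d) (32 * d) (32 * d), .add (32 * d) (32 * d) (32 * d),
       .add (32 * d) (32 * d) (32 * d), .add (32 * d) (32 * d) (32 * d),
       .add (32 * d) (32 * d) (32 * d), .const (32 * (d + 2)) (b + 1),
       .add (32 * d) (32 * d) (32 * (d + 2)), .store (32 * d) (32 * (d + 1))])
  | .seq c c', d, o => compC c d o ++ compC c' d (o + lenC c)
  | .ite e c c', d, o => compE e [] d o ++ ([.jzero (32 * d) (o + lenE e + 1 + lenC c + 1)] ++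
      (compC c d (o + lenE e + 1) ++ ([.jump (o + lenE e + 1 + lenC c + 1 + lenC c')] ++
      compC c' d (o + lenE e + 1 + lenC c + 1))))
  | .loop x r c, d, o =>
      [.const (32 * d) 0, .const (32 * (d + 1)) 0,
       .add (32 * (d + 1)) (32 * r) (32 * (d + 1))] ++
      ([.sub (32 * (d + 2)) (32 * (d + 1)) (32 * d),
        .jzero (32 * (d + 2)) (o + 3 + 4 + lenC c + 3), .const (32 * x) 0,
        .add (32 * x) (32 * d) (32 * x)] ++
      (compC c (d + 2) (o + 3 + 4) ++
      [.const (32 * (d + 2)) 1, .add (32 * d) (32 * d) (32 * (d + 2)), .jump (o + 3)]))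

lemma length_compC (c : Cmd) : ∀ d o, (compC c d o).length = lenC c := by
  induction c with
  | skip => intros; simp [compC, lenC]
  | set x e => intros; simp [compC, lenC, length_compE]
  | put b i e => intros; simp [compC, lenC, length_compE]
  | seq c c' ih ih' => intros; simp [compC, lenC, ih, ih']
  | ite e c c' ih ih' => intros; simp [compC, lenC, length_compE, ih, ih']; omega
  | loop x r c ih => intros; simp [compC, lenC, ih]; omega

lemma run_readonly (I : ℕ → ℕ) (c : Cmd) : wfC c = true → ∀ s : St, ∀ x, x < R0 →
    (run I c s).v x = s.v x := by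
  induction c with
  | skip => intro _ s x _; rfl
  | set y e =>
    intro h s x hx
    simp only [wfC, Bool.and_eq_true, decide_eq_true_eq] at h
    simp only [run, St.setV]
    rw [Function.update_of_ne (by omega)]
  | put b i e => intro _ s x _; rfl
  | seq c c' ih ih' =>
    intro h s x hx
    simp only [wfC, Bool.and_eq_true] at h
    simp only [run]
    rw [ih' h.2 _ x hx, ih h.1 _ x hx]
  | ite e c c' ih ih' =>
    intro h s x hx
    simp only [wfC, Bool.and_eq_true] at h
    simp only [run]
    split_ifs
    · exact ih' h.2 _ x hx
    · exact ih h.1.2 _ x hx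
  | loop y r c ih =>
    intro h s x hx
    simp only [wfC, Bool.and_eq_true, decide_eq_true_eq] at h
    simp only [run]
    generalize s.v r = n
    induction n with
    | zero => rfl
    | succ n ihn =>
      simp only [iter]
      rw [ih h.2 _ x hx]
      exact (Function.update_of_ne (show x ≠ y by omega) _ _).trans ihn

/-- Frame condition for commands. -/
def FrameC (d : ℕ) (m m' : ℕ → ℕ) : Prop := ∀ x, D0 ≤ x → x < d → m' (32 * x) = m (32 * x)

lemma FrameC.trans {d : ℕ} {m m' m'' : ℕ → ℕ} (h : FrameC d m m') (h' : FrameC d m' m'') :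
    FrameC d m m'' := fun x h1 h2 => (h' x h1 h2).trans (h x h1 h2)

lemma FrameC.mono {d d' : ℕ} {m m' : ℕ → ℕ} (h : FrameC d m m') (hd : d' ≤ d) : FrameC d' m m' :=
  fun x h1 h2 => h x h1 (by omega)

lemma Frame.toC {d : ℕ} {m m' : ℕ → ℕ} (h : Frame d m m') : FrameC d m m' :=
  fun x _ h2 => h.var h2

lemma Enc.setV {s : St} {m : ℕ → ℕ} (h : Enc s m) (x c : ℕ) :
    Enc (s.setV x c) (Function.update m (32 * x) c) := by
  constructor
  · intro y hy
    simp only [St.setV]
    by_cases hxy : y = x
    · subst hxy; simp
    · rw [Function.update_of_ne (by omega), Function.update_of_ne hxy, h.1 y hy]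
  · intro b hb i
    simp only [St.setV]
    rw [Function.update_of_ne (by omega), h.2 b hb i]

lemma set_spec (P : Prog) (I : ℕ → ℕ) (W : ℕ) (s : St) (hW : ∀ x, x < R0 → s.v x ≤ W)
    (x : ℕ) (e : Expr) (d o : ℕ) (m : ℕ → ℕ) (hx : x < D0) (hwf : wfE 0 e = true)
    (hE : Enc s m) (hd : D0 ≤ d) (hc : CodeAt P o (compC (.set x e) d o)) :
    ∃ m' t, Reach P I ⟨o, m⟩ ⟨o + lenC (.set x e), m'⟩ t ∧ Enc (run I (.set x e) s) m' ∧
      FrameC d m m' ∧ t ≤ timeC W (.set x e) := by
  obtain ⟨c1, c2⟩ := CodeAt.app hc
  obtain ⟨m1, t1, r1, e1, f1, l1⟩ := compE_spec P I W s hW e [] [] d o m hwf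
    ⟨rfl, fun j hj => by simp at hj⟩ hE hd c1
  rw [length_compE] at c2
  have r2 := reach_sl (I := I) _ _ m1 c2 (by simp [Instr.isSL])
  have r3 := r1.trans r2
  simp only [List.length_cons, List.length_nil, Instr.eff, Instr.exec, List.foldl_cons,
    List.foldl_nil] at r3
  refine ⟨_, _, r3, ?_, ?_, ?_⟩
  · simp only [run]
    have := (hE.frame hd f1).setV x (eval I s e [])
    convert this using 1
    have hne : 32 * d ≠ 32 * x := by omega
    rw [Function.update_self, Function.update_of_ne hne, e1, add_zero, Function.update_idem]
  · intro y h1 h2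
    rw [Function.update_of_ne (by omega), Function.update_of_ne (by omega)]
    exact f1.var h2
  · simp only [timeC]; omega

theorem compC_spec (P : Prog) (I : ℕ → ℕ) (W : ℕ) (c : Cmd) : wfC c = true →
    ∀ (s : St), (∀ x, x < R0 → s.v x ≤ W) → ∀ (d o : ℕ) (m : ℕ → ℕ),
    Enc s m → D0 ≤ d → CodeAt P o (compC c d o) →
    ∃ m' t, Reach P I ⟨o, m⟩ ⟨o + lenC c, m'⟩ t ∧ Enc (run I c s) m' ∧
      FrameC d m m' ∧ t ≤ timeC W c := by
  induction c with
  | skip =>
    intro _ s _ d o m hE _ _
    exact ⟨m, 0, Reach.refl _ _ _, hE, fun _ _ _ => rfl, by simp⟩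
  | set x e =>
    intro hwf s hW d o m hE hd hc
    simp only [wfC, Bool.and_eq_true, decide_eq_true_eq] at hwf
    exact set_spec P I W s hW x e d o m hwf.1.2 hwf.2 hE hd hc
  | put b i e =>
    intro hwf s hW d o m hE hd hc
    simp only [wfC, Bool.and_eq_true, decide_eq_true_eq] at hwf
    obtain ⟨c1, c2⟩ := CodeAt.app hc
    obtain ⟨m1, t1, r1, e1, f1, l1⟩ := compE_spec P I W s hW i [] [] d o m hwf.1.2
      ⟨rfl, fun j hj => by simp at hj⟩ hE hd c1
    rw [length_compE] at c2
    obtain ⟨c2, c3⟩ := CodeAt.app c2
    obtain ⟨m2, t2, r2, e2, f2, l2⟩ := compE_spec P I W s hW e [] [] (d + 1) (o + lenE i) m1 hwf.2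
      ⟨rfl, fun j hj => by simp at hj⟩ (hE.frame hd f1) (by omega) c2
    rw [length_compE] at c3
    have r3 := reach_sl (I := I) _ _ m2 c3 (by simp [Instr.isSL])
    have r4 := (r1.trans r2).trans r3
    rw [show o + lenE i + lenE e + [Instr.add (32 * d) (32 * d) (32 * d),
       .add (32 * d) (32 * d) (32 * d),
       .add (32 * d) (32 * d) (32 * d), .add (32 * d) (32 * d) (32 * d),
       .add (32 * d) (32 * d) (32 * d), .const (32 * (d + 2)) (b + 1),
       .add (32 * d) (32 * d) (32 * (d + 2)), .store (32 * d) (32 * (d + 1))].length =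
       o + lenC (.put b i e) by simp [lenC]; ring] at r4
    have f12 : Frame d m m2 := f1.trans (f2.mono (by omega))
    have hE2 := hE.frame hd f12
    have hd2 : m2 (32 * d) = eval I s i [] := by rw [f2.var (by omega), e1]
    have hne : 32 * d ≠ 32 * (d + 2) := by omega
    have hne1 : 32 * (d + 1) ≠ 32 * d := by omega
    have hne2 : 32 * (d + 1) ≠ 32 * (d + 2) := by omega
    refine ⟨_, _, r4, ?_, ?_, ?_⟩
    · simp only [Instr.eff, Instr.exec, List.foldl_cons, List.foldl_nil,
        Function.update_self, Function.update_of_ne hne, Function.update_of_ne hne1,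
        Function.update_of_ne hne2, hd2, e2]
      simp only [Function.update_idem]
      set v := eval I s i [] with hv
      have key : v + v + (v + v) + (v + v + (v + v)) + (v + v + (v + v) + (v + v + (v + v))) +
        (v + v + (v + v) + (v + v + (v + v)) + (v + v + (v + v) + (v + v + (v + v)))) + (b + 1) =
        32 * v + b + 1 := by ring
      rw [key]
      constructor
      · intro y hy
        simp only [run, St.setA]
        rw [Function.update_of_ne (by omega), Function.update_of_ne (by omega),
          Function.update_of_ne (by omega), Function.update_of_ne (by omega), hE2.1 y hy]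
      · intro b' hb' j
        simp only [run, St.setA]
        by_cases hbb : b' = b
        · subst hbb
          rw [Function.update_self]
          by_cases hj : j = v
          · subst hj
            rw [Function.update_self, Function.update_self]
          · rw [Function.update_of_ne (by omega), Function.update_of_ne (by omega),
              Function.update_of_ne (by omega), Function.update_of_ne (by omega),
              Function.update_of_ne hj, hE2.2 b' hb' j]
        · rw [Function.update_of_ne hbb]
          rw [Function.update_of_ne (by omega), Function.update_of_ne (by omega),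
              Function.update_of_ne (by omega), Function.update_of_ne (by omega),
              hE2.2 b' hb' j]
    · intro y h1 h2
      simp only [Instr.eff, Instr.exec, List.foldl_cons, List.foldl_nil,
        Function.update_self, Function.update_of_ne hne, Function.update_of_ne hne1,
        Function.update_of_ne hne2, hd2, e2]
      simp only [Function.update_idem]
      set v := eval I s i [] with hv
      have key : v + v + (v + v) + (v + v + (v + v)) + (v + v + (v + v) + (v + v + (v + v))) +
        (v + v + (v + v) + (v + v + (v + v)) + (v + v + (v + v) + (v + v + (v + v)))) + (b + 1) =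
        32 * v + b + 1 := by ring
      rw [key, Function.update_of_ne (by omega), Function.update_of_ne (by omega),
          Function.update_of_ne (by omega), Function.update_of_ne (by omega)]
      exact f12.var h2
    · simp only [timeC, List.length_cons, List.length_nil]; omega
  | seq c c' ih ih' =>
    intro hwf s hW d o m hE hd hc
    simp only [wfC, Bool.and_eq_true] at hwf
    obtain ⟨c1, c2⟩ := CodeAt.app hc
    obtain ⟨m1, t1, r1, e1, f1, l1⟩ := ih hwf.1 s hW d o m hE hd c1
    rw [length_compC] at c2
    obtain ⟨m2, t2, r2, e2, f2, l2⟩ := ih' hwf.2 _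
      (fun x hx => by rw [run_readonly I c hwf.1 s x hx]; exact hW x hx) d _ m1 e1 hd c2
    refine ⟨m2, t1 + t2, ?_, e2, f1.trans f2, ?_⟩
    · have := r1.trans r2
      rw [show o + lenC c + lenC c' = o + lenC (.seq c c') by simp [lenC]; ring] at this
      exact this
    · simp only [timeC]; omega
  | ite e c c' ih ih' =>
    intro hwf s hW d o m hE hd hc
    simp only [wfC, Bool.and_eq_true] at hwf
    obtain ⟨c1, c2⟩ := CodeAt.app hc
    obtain ⟨m1, t1, r1, e1, f1, l1⟩ := compE_spec P I W s hW e [] [] d o m hwf.1.1
      ⟨rfl, fun j hj => by simp at hj⟩ hE hd c1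
    rw [length_compE] at c2
    obtain ⟨c2, c3⟩ := CodeAt.app c2
    have hj := (CodeAt.head c2).1
    simp only [List.length_singleton] at c3
    obtain ⟨c3, c4⟩ := CodeAt.app c3
    rw [length_compC] at c4
    obtain ⟨c4, c5⟩ := CodeAt.app c4
    have hj2 := (CodeAt.head c4).1
    simp only [List.length_singleton] at c5
    have r2 := reach_one (I := I) (m := m1) hj
    simp only [Instr.exec] at r2
    by_cases h0 : eval I s e [] = 0
    · rw [e1, if_pos h0] at r2
      obtain ⟨m2, t2, r3, e2, f2, l2⟩ := ih' hwf.2 s hW d _ m1 (hE.frame hd f1) hd c5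
      have r4 := (r1.trans r2).trans r3
      rw [show o + lenE e + 1 + lenC c + 1 + lenC c' = o + lenC (Cmd.ite e c c') by
        simp [lenC]; ring] at r4
      refine ⟨_, _, r4, ?_, f1.toC.trans f2, ?_⟩
      · simp only [run, h0, if_true]; exact e2
      · simp only [timeC]; omega
    · rw [e1, if_neg h0] at r2
      obtain ⟨m2, t2, r3, e2, f2, l2⟩ := ih hwf.1.2 s hW d _ m1 (hE.frame hd f1) hd c3
      have r5 := reach_one (I := I) (m := m2) hj2
      simp only [Instr.exec] at r5
      have r4 := ((r1.trans r2).trans r3).trans r5
      rw [show o + lenE e + 1 + lenC c + 1 + lenC c' = o + lenC (Cmd.ite e c c') by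
        simp [lenC]; ring] at r4
      refine ⟨_, _, r4, ?_, f1.toC.trans f2, ?_⟩
      · simp only [run, h0, if_false]; exact e2
      · simp only [timeC]; omega
  | loop x r c ih =>
    intro hwf s hW d o m hE hd hc
    simp only [wfC, Bool.and_eq_true, decide_eq_true_eq] at hwf
    obtain ⟨⟨⟨hxR, hxD⟩, hr⟩, hwf⟩ := hwf
    have hrD : r < D0 := hr.trans (by decide)
    obtain ⟨c1, c2⟩ := CodeAt.app hc
    have r1 := reach_sl (I := I) _ o m c1 (by simp [Instr.isSL])
    simp only [List.length_cons, List.length_nil, Instr.eff, Instr.exec, List.foldl_cons,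
      List.foldl_nil] at r1 c2
    norm_num at r1 c2
    have c3 : CodeAt P (o + 3 + 4) (compC c (d + 2) (o + 3 + 4) ++
          [Instr.const (32 * (d + 2)) 1, Instr.add (32 * d) (32 * d) (32 * (d + 2)),
            Instr.jump (o + 3)]) :=
      (CodeAt.head (CodeAt.head (CodeAt.head (CodeAt.head c2).2).2).2).2
    obtain ⟨c3, c4⟩ := CodeAt.app c3
    rw [length_compC] at c4
    set st : ℕ → St := fun i => iter (fun i s' => run I c (s'.setV x i)) i s with hst
    have hstv : ∀ i y, y < R0 → (st i).v y = s.v y := by
      intro i
      induction i with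
      | zero => intro y _; rfl
      | succ i ihi =>
        intro y hy
        simp only [hst, iter]
        rw [run_readonly I c hwf _ y hy]
        simp only [St.setV]
        rw [Function.update_of_ne (by omega)]
        exact ihi y hy
    have hloop : ∀ (i : ℕ), i ≤ s.v r → ∀ mm : ℕ → ℕ, FrameC d m mm →
        Enc (st i) mm → mm (32 * d) = i → mm (32 * (d + 1)) = s.v r →
        ∃ m' t, Reach P I ⟨o + 3, mm⟩ ⟨o + 3 + 4 + lenC c + 3, m'⟩ t ∧
          Enc (st (s.v r)) m' ∧ FrameC d m m' ∧
          t ≤ (s.v r - i) * (timeC W c + 7) + 2 := by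
      intro i hi
      induction h : s.v r - i generalizing i with
      | zero =>
        intro mm hf ha hb hl
        have hi' : i = s.v r := by omega
        obtain ⟨hj1, hrest⟩ := CodeAt.head c2
        have hj2 := (CodeAt.head hrest).1
        have q1 := reach_one (I := I) (m := mm) hj1
        simp only [Instr.exec, hb, hl] at q1
        have q2 := reach_one (I := I) (m := Function.update mm (32 * (d + 2)) (s.v r - i)) hj2
        simp only [Instr.exec, Function.update_self] at q2
        rw [if_pos (by omega)] at q2
        refine ⟨_, _, q1.trans q2, ?_, ?_, by omega⟩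
        · rw [← hi']
          exact ha.frame (d := d + 2) (by omega) (Frame.update le_rfl)
        · exact hf.trans ((Frame.update (d := d) (by omega)).toC)
      | succ k ihk =>
        intro mm hf ha hb hl
        have hilt : i < s.v r := by omega
        obtain ⟨hj1, hrest⟩ := CodeAt.head c2
        obtain ⟨hj2, hrest2⟩ := CodeAt.head hrest
        have q1 := reach_one (I := I) (m := mm) hj1
        simp only [Instr.exec, hb, hl] at q1
        have q2 := reach_one (I := I) (m := Function.update mm (32 * (d + 2)) (s.v r - i)) hj2
        simp only [Instr.exec, Function.update_self] at q2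
        rw [if_neg (by omega)] at q2
        set mm1 := Function.update mm (32 * (d + 2)) (s.v r - i) with hmm1
        have q2a := reach_sl (I := I) (m := mm1)
          [Instr.const (32 * x) 0, .add (32 * x) (32 * d) (32 * x)] (o + 3 + 1 + 1)
          ((show CodeAt P (o + 3 + 1 + 1) ([Instr.const (32 * x) 0,
            .add (32 * x) (32 * d) (32 * x)] ++ _) from hrest2).app.1) (by simp [Instr.isSL])
        simp only [List.length_cons, List.length_nil, Instr.eff, Instr.exec, List.foldl_cons,
          List.foldl_nil] at q2a
        have hnexd : 32 * d ≠ 32 * x := by omega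
        have hmm1d : mm1 (32 * d) = i := by
          rw [hmm1, Function.update_of_ne (by omega), hb]
        rw [Function.update_self, Function.update_of_ne hnexd, hmm1d, add_zero,
          Function.update_idem] at q2a
        set mm2 := Function.update mm1 (32 * x) i with hmm2
        have hE1 : Enc (st i) mm1 := ha.frame (d := d + 2) (by omega) (Frame.update le_rfl)
        have hE2 : Enc ((st i).setV x i) mm2 := hE1.setV x i
        have fC1 : FrameC (d + 2) mm mm1 := (Frame.update le_rfl).toC
        have fC2 : FrameC (d + 2) mm1 mm2 := by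
          intro y h1 h2
          rw [hmm2, Function.update_of_ne (by omega)]
        obtain ⟨m2, t2, q3, e2, f2, l2⟩ := ih hwf ((st i).setV x i)
          (fun y hy => by
            simp only [St.setV]
            rw [Function.update_of_ne (by omega), hstv i y hy]
            exact hW y hy) (d + 2) (o + 3 + 4) mm2 hE2 (by omega) c3
        have q4 := reach_sl (I := I) (m := m2)
          [Instr.const (32 * (d + 2)) 1, .add (32 * d) (32 * d) (32 * (d + 2))]
          (o + 3 + 4 + lenC c)
          ((show CodeAt P (o + 3 + 4 + lenC c) ([Instr.const (32 * (d + 2)) 1,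
            .add (32 * d) (32 * d) (32 * (d + 2))] ++
            [Instr.jump (o + 3)]) from c4).app.1) (by simp [Instr.isSL])
        have hjj := (CodeAt.head ((show CodeAt P (o + 3 + 4 + lenC c)
          ([Instr.const (32 * (d + 2)) 1, .add (32 * d) (32 * d) (32 * (d + 2))] ++
            [Instr.jump (o + 3)]) from c4).app.2)).1
        simp only [List.length_cons, List.length_nil, Instr.eff, Instr.exec, List.foldl_cons,
          List.foldl_nil] at q4 hjj
        have v0 : m2 (32 * d) = i := by
          rw [f2 d (by omega) (by omega), fC2 d (by omega) (by omega),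
            fC1 d (by omega) (by omega), hb]
        have v1 : m2 (32 * (d + 1)) = s.v r := by
          rw [f2 _ (by omega) (by omega), fC2 _ (by omega) (by omega),
            fC1 _ (by omega) (by omega), hl]
        rw [Function.update_self, Function.update_of_ne (by omega), v0] at q4
        set m3 := Function.update (Function.update m2 (32 * (d + 2)) 1) (32 * d) (i + 1) with hm3
        have q5 := reach_one (I := I) (m := m3) hjj
        simp only [Instr.exec] at q5
        have f23 : Frame d m2 m3 := (Frame.update (by omega)).trans (Frame.update le_rfl)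
        have hE3 : Enc (st (i + 1)) m3 := by
          have : Enc (st (i + 1)) m2 := by
            simp only [hst, iter]
            exact e2
          exact this.frame hd f23
        obtain ⟨m4, t4, q6, e4, f4, l4⟩ := ihk (i + 1) (by omega) (by omega) m3
          (hf.trans ((fC1.mono (by omega)).trans ((fC2.mono (by omega)).trans
            ((f2.mono (by omega)).trans f23.toC)))) hE3
          (by rw [hm3, Function.update_self])
          (by rw [hm3, Function.update_of_ne (by omega), Function.update_of_ne (by omega), v1])
        refine ⟨m4, _, (((((q1.trans q2).trans q2a).trans q3).trans q4).trans q5).trans q6,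
          e4, f4, ?_⟩
        nlinarith
    set m1 := Function.update (Function.update (Function.update m (32 * d) 0)
      (32 * (d + 1)) 0) (32 * (d + 1)) (Function.update (Function.update m (32 * d) 0)
      (32 * (d + 1)) 0 (32 * r) + Function.update (Function.update m (32 * d) 0)
      (32 * (d + 1)) 0 (32 * (d + 1))) with hm1
    have hvr : m1 (32 * (d + 1)) = s.v r := by
      rw [hm1, Function.update_self, Function.update_self, Function.update_of_ne (by omega),
        Function.update_of_ne (by omega), hE.1 r hrD, add_zero]
    have f1 : Frame d m m1 := ((Frame.update le_rfl).trans (Frame.update (by omega))).trans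
      (Frame.update (by omega))
    obtain ⟨m', t, q, e', f', l'⟩ := hloop 0 (Nat.zero_le _) m1 f1.toC (hE.frame hd f1)
      (by rw [hm1, Function.update_of_ne (by omega), Function.update_of_ne (by omega),
        Function.update_self]) hvr
    have r1' : Reach P I ⟨o, m⟩ ⟨o + 3, m1⟩ 3 := by
      rw [hm1]
      convert r1 using 2
      all_goals simp
    have r2 := r1'.trans q
    rw [show o + 3 + 4 + lenC c + 3 = o + lenC (Cmd.loop x r c) by simp [lenC]; ring] at r2
    refine ⟨_, _, r2, e', f', ?_⟩
    simp only [timeC]
    have h1 : (s.v r - 0) * (timeC W c + 7) ≤ W * (timeC W c + 7) :=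
      Nat.mul_le_mul_right _ (by have := hW r hr; omega)
    omega

end Pool.Agent.Lib54.LP
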