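import Pool.Agent.Lib_helper54.LongPath.Core

/-!
# Completeness of the decomposition of a longest path
-/

namespace Pool.Agent.Lib54.LP

open Finset

variable {A : ℕ → ℕ → Prop} [DecidableRel A] {S : Finset ℕ} {N y b m : ℕ} {q : ℕ → ℕ}

/-- The threshold of a vertex missed by a longest path. -/
lemma threshold (hT : Tour A S) (hq : PathF A S b y m q)
    (hmax : ∀ m', m < m' → ¬ HasPath A S b y m') {z : ℕ} (hz : z ∈ S)
    (hzq : ∀ i, i < m → q i ≠ z) :
    ∃ τ, τ ≤ m ∧ (∀ j, j < τ → A z (q j)) ∧ (∀ j, τ ≤ j → j < m → A (q j) z) := by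
  classical
  have step : ∀ j, j + 1 < m → A (q j) z → A (q (j + 1)) z := by
    intro j hj hjz
    by_contra hcon
    have h1 : A z (q (j + 1)) :=
      hT.of_not (hq.mem _ hj) hz (hzq _ hj) hcon
    exact hmax (m + 1) (by omega) (hq.insert hj (pathF_single hz)
      (fun i j hi _ => hzq i hi) hjz h1)
  have hex : ∃ j, j = m ∨ (j < m ∧ A (q j) z) := ⟨m, Or.inl rfl⟩
  refine ⟨Nat.find hex, Nat.find_min' hex (Or.inl rfl), ?_, ?_⟩
  · intro j hj
    have hjm : j < m := hj.trans_le (Nat.find_min' hex (Or.inl rfl))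
    have := Nat.find_min hex hj
    push Not at this
    exact hT.of_not (hq.mem _ hjm) hz (hzq _ hjm) (this.2 hjm)
  · intro j hj
    induction j, hj using Nat.le_induction with
    | base =>
      intro hm
      rcases Nat.find_spec hex with h | h
      · omega
      · exact h.2
    | succ j hj ih =>
      intro hm
      exact step j hm (ih (by omega))

section Main

variable (hT : Tour A S) (hS : ∀ v ∈ S, v < N) (hq : PathF A S b y m q)
  (hmax : ∀ m', m < m' → ¬ HasPath A S b y m') {Z : Finset ℕ}
  (hZ : ∀ z, z ∈ Z ↔ z ∈ S ∧ ∀ i, i < m → q i ≠ z) {τ : ℕ → ℕ}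
  (hm : ∀ z ∈ Z, τ z ≤ m) (h1 : ∀ z ∈ Z, ∀ j, j < τ z → A z (q j))
  (h2 : ∀ z ∈ Z, ∀ j, τ z ≤ j → j < m → A (q j) z)

include hT hq hmax hZ hm h1 h2

lemma far_arc {z z' : ℕ} (hz : z ∈ Z) (hz' : z' ∈ Z) (h : τ z + 2 ≤ τ z') : A z' z := by
  by_contra hcon
  have hzS := (hZ z).1 hz
  have hzS' := (hZ z').1 hz'
  have hne : z' ≠ z := by rintro rfl; omega
  have hA : A z z' := hT.of_not hzS'.1 hzS.1 hne hcon
  have hm' := hm z' hz'
  refine hmax (m + 2) (by omega) (hq.insert (k := τ z) (by omega)
    (r := fun i => if i = 0 then z else z') (s := 2) (z := z) (z' := z')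
    ⟨by norm_num, by simp, by simp, ?_, ?_, ?_⟩ ?_
    (h2 z hz _ le_rfl (by omega)) (h1 z' hz' _ (by omega)))
  · intro i hi
    show (if i = 0 then z else z') ∈ S
    split_ifs
    · exact hzS.1
    · exact hzS'.1
  · intro i j hi hj
    show (if i = 0 then z else z') = (if j = 0 then z else z') → i = j
    split_ifs <;> intro h
    · omega
    · exact absurd h.symm hne
    · exact absurd h hne
    · omega
  · intro i hi
    have : i = 0 := by omega
    subst this
    simpa using hA
  · intro i j hi hj
    show q i ≠ if j = 0 then z else z'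
    split_ifs
    · exact hzS.2 i hi
    · exact hzS'.2 i hi

omit [DecidableRel A] in
lemma far_mid {z z' w : ℕ} (hz : z ∈ Z) (hz' : z' ∈ Z) (hw : w ∈ Z) (h : τ z + 2 ≤ τ z')
    (hzw : A z w) (hwz : A w z') : False := by
  have hzS := (hZ z).1 hz
  have hzS' := (hZ z').1 hz'
  have hwS := (hZ w).1 hw
  have hne : z ≠ z' := by rintro rfl; omega
  have hne1 : z ≠ w := by rintro rfl; exact hT.irr hzS.1 hzw
  have hne2 : w ≠ z' := by rintro rfl; exact hT.irr hwS.1 hwz
  have hm' := hm z' hz'
  refine hmax (m + 3) (by omega) (hq.insert (k := τ z) (by omega)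
    (r := fun i => if i = 0 then z else if i = 1 then w else z') (s := 3) (z := z) (z' := z')
    ⟨by norm_num, by simp, by simp, ?_, ?_, ?_⟩ ?_
    (h2 z hz _ le_rfl (by omega)) (h1 z' hz' _ (by omega)))
  · intro i hi
    show (if i = 0 then z else if i = 1 then w else z') ∈ S
    split_ifs
    · exact hzS.1
    · exact hwS.1
    · exact hzS'.1
  · intro i j hi hj
    show (if i = 0 then z else if i = 1 then w else z') =
      (if j = 0 then z else if j = 1 then w else z') → i = j
    split_ifs <;> intro h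
    · omega
    · exact absurd h hne1
    · exact absurd h hne
    · exact absurd h.symm hne1
    · omega
    · exact absurd h hne2
    · exact absurd h.symm hne
    · exact absurd h.symm hne2
    · omega
  · intro i hi
    have : i = 0 ∨ i = 1 := by omega
    rcases this with rfl | rfl
    · simpa using hzw
    · simpa using hwz
  · intro i j hi hj
    show q i ≠ if j = 0 then z else if j = 1 then w else z'
    split_ifs
    · exact hzS.2 i hi
    · exact hwS.2 i hi
    · exact hzS'.2 i hi

include hS

/-- A block of the path between two consecutive thresholds. -/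
lemma block {k k' z w : ℕ} (hk : k + 2 ≤ k') (hk' : k' ≤ m)
    (hz : (z = N ∧ k = 0) ∨ (z ∈ Z ∧ τ z = k)) (hw : (w = N ∧ k' = m) ∨ (w ∈ Z ∧ τ w = k'))
    (hgap : ∀ u ∈ Z, k < τ u → τ u < k' → False) :
    ∃ i j, i ≤ N ∧ j ≤ N ∧ DD A S N z w i j = (Finset.Ico k k').image q := by
  classical
  have hZS : ∀ u ∈ Z, u ∈ S := fun u hu => ((hZ u).1 hu).1
  have hcases : ∀ v ∈ S, v ∈ Z ∨ ∃ j, j < m ∧ q j = v := by
    intro v hv
    by_cases h : ∃ j, j < m ∧ q j = v
    · exact Or.inr h
    · left
      push Not at h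
      exact (hZ v).2 ⟨hv, h⟩
  set G := GG A S N z w with hG
  set B := (Finset.Ico k k').image q with hB
  set O := G.filter fun u => u ∈ Z ∧ τ u ≤ k with hO
  set U := G.filter fun u => u ∈ Z ∧ k' ≤ τ u with hU
  have hGS : ∀ u ∈ G, u ∈ S := fun u hu => (mem_GG.1 hu).1
  have hmemB : ∀ v, v ∈ B ↔ ∃ j, k ≤ j ∧ j < k' ∧ q j = v := by
    intro v
    simp [hB, and_assoc]
  have hBG : ∀ v ∈ B, v ∈ G := by
    intro v hv
    obtain ⟨j, hj1, hj2, rfl⟩ := (hmemB v).1 hv
    refine mem_GG.2 ⟨hq.mem _ (by omega), ?_, ?_⟩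
    · rcases hz with ⟨h, _⟩ | ⟨h, h'⟩
      · exact Or.inl h
      · exact Or.inr (h2 z h j (by omega) (by omega))
    · rcases hw with ⟨h, _⟩ | ⟨h, h'⟩
      · exact Or.inl h
      · exact Or.inr (h1 w h j (by omega))
  have hGcases : ∀ v ∈ G, v ∈ B ∨ v ∈ O ∨ v ∈ U := by
    intro v hv
    obtain ⟨hvS, hvz, hvw⟩ := mem_GG.1 hv
    rcases hcases v hvS with hvZ | ⟨j, hj, rfl⟩
    · right
      rcases Nat.lt_or_ge k (τ v) with h | h
      · right
        refine Finset.mem_filter.2 ⟨hv, hvZ, ?_⟩
        by_contra hcon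
        exact hgap v hvZ h (by omega)
      · left
        exact Finset.mem_filter.2 ⟨hv, hvZ, h⟩
    · left
      refine (hmemB _).2 ⟨j, ?_, ?_, rfl⟩
      · by_contra hcon
        rcases hz with ⟨_, h⟩ | ⟨h, h'⟩
        · omega
        · have hzN : z ≠ N := (hS z (hZS z h)).ne
          exact hT.asym _ (hq.mem _ hj) _ (hZS z h) (hvz.resolve_left hzN)
            (h1 z h j (by omega))
      · by_contra hcon
        rcases hw with ⟨_, h⟩ | ⟨h, h'⟩
        · omega
        · have hwN : w ≠ N := (hS w (hZS w h)).ne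
          exact hT.asym _ (hZS w h) _ (hq.mem _ hj) (hvw.resolve_left hwN)
            (h2 w h j (by omega) hj)
  have hBO : ∀ v ∈ B, ∀ o ∈ O, A v o := by
    intro v hv o ho
    obtain ⟨j, hj1, hj2, rfl⟩ := (hmemB v).1 hv
    obtain ⟨_, hoZ, hok⟩ := Finset.mem_filter.1 ho
    exact h2 o hoZ j (by omega) (by omega)
  have hUB : ∀ u ∈ U, ∀ v ∈ B, A u v := by
    intro u hu v hv
    obtain ⟨j, hj1, hj2, rfl⟩ := (hmemB v).1 hv
    obtain ⟨_, huZ, huk⟩ := Finset.mem_filter.1 hu
    exact h1 u huZ j (by omega)
  have hUO : ∀ u ∈ U, ∀ o ∈ O, A u o := by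
    intro u hu o ho
    obtain ⟨_, huZ, huk⟩ := Finset.mem_filter.1 hu
    obtain ⟨_, hoZ, hok⟩ := Finset.mem_filter.1 ho
    exact far_arc hT hq hmax hZ hm h1 h2 hoZ huZ (by omega)
  have hOG : O ⊆ G := Finset.filter_subset _ _
  have hUG : U ⊆ G := Finset.filter_subset _ _
  have hBO' : Disjoint O B := by
    rw [Finset.disjoint_left]
    intro v hv hv'
    exact hT.irr (hGS v (hOG hv)) (hBO v hv' v hv)
  -- degrees
  have dO : ∀ o ∈ O, dg A G o < O.card := by
    intro o ho
    apply Finset.card_lt_card
    rw [Finset.ssubset_iff_of_subset]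
    · refine ⟨o, ho, fun h => ?_⟩
      exact hT.irr (hGS o (hOG ho)) (Finset.mem_filter.1 h).2
    · intro v hv
      obtain ⟨hvG, hov⟩ := Finset.mem_filter.1 hv
      rcases hGcases v hvG with h | h | h
      · exact absurd (hBO v h o ho) (hT.asym _ (hGS o (hOG ho)) _ (hGS v hvG) hov)
      · exact h
      · exact absurd (hUO v h o ho) (hT.asym _ (hGS o (hOG ho)) _ (hGS v hvG) hov)
  have dB1 : ∀ v ∈ B, O.card ≤ dg A G v := by
    intro v hv
    apply Finset.card_le_card
    intro o ho
    exact Finset.mem_filter.2 ⟨hOG ho, hBO v hv o ho⟩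
  have dB2 : ∀ v ∈ B, dg A G v < O.card + B.card := by
    intro v hv
    rw [← Finset.card_union_of_disjoint hBO']
    apply Finset.card_lt_card
    rw [Finset.ssubset_iff_of_subset]
    · refine ⟨v, Finset.mem_union_right _ hv, fun h => ?_⟩
      exact hT.irr (hGS v (hBG v hv)) (Finset.mem_filter.1 h).2
    · intro u hu
      obtain ⟨huG, hvu⟩ := Finset.mem_filter.1 hu
      rcases hGcases u huG with h | h | h
      · exact Finset.mem_union_right _ h
      · exact Finset.mem_union_left _ h
      · exact absurd (hUB u h v hv) (hT.asym _ (hGS v (hBG v hv)) _ (hGS u huG) hvu)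
  have dU : ∀ u ∈ U, O.card + B.card ≤ dg A G u := by
    intro u hu
    rw [← Finset.card_union_of_disjoint hBO']
    apply Finset.card_le_card
    intro v hv
    rcases Finset.mem_union.1 hv with h | h
    · exact Finset.mem_filter.2 ⟨hOG h, hUO u hu v h⟩
    · exact Finset.mem_filter.2 ⟨hBG v h, hUB u hu v h⟩
  have hcard : O.card + B.card ≤ N := by
    rw [← Finset.card_union_of_disjoint hBO']
    calc (O ∪ B).card ≤ (Finset.range N).card := by
          apply Finset.card_le_card
          intro v hv
          rw [Finset.mem_range]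
          rcases Finset.mem_union.1 hv with h | h
          · exact hS v (hGS v (hOG h))
          · exact hS v (hGS v (hBG v h))
      _ = N := Finset.card_range N
  refine ⟨O.card, O.card + B.card, by omega, hcard, ?_⟩
  ext v
  constructor
  · intro hv
    obtain ⟨hvG, hv1, hv2⟩ := Finset.mem_filter.1 hv
    rw [← hG] at hv1 hv2
    rcases hGcases v hvG with h | h | h
    · exact h
    · exact absurd (dO v h) (by omega)
    · exact absurd (dU v h) (by omega)
  · intro hv
    exact Finset.mem_filter.2 ⟨hBG v hv, dB1 v hv, dB2 v hv⟩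

omit [DecidableRel A] hT hS hmax hZ hm h1 h2 in
lemma card_block {k k' : ℕ} (hk' : k' ≤ m) : ((Finset.Ico k k').image q).card = k' - k := by
  rw [Finset.card_image_of_injOn, Nat.card_Ico]
  intro i hi j hj hij
  simp only [Finset.coe_Ico, Set.mem_Ico] at hi hj
  exact hq.inj i j (by omega) (by omega) hij

lemma complete_aux : ∀ d k, m - k = d → k < m → ∀ z p,
    ((z = N ∧ k = 0) ∨ (z ∈ Z ∧ τ z = k ∧ 0 < k)) → (p = N ∨ (p ∈ Z ∧ τ p < k)) →
    Dec A S N y (m - k) p z (q k) := by
  classical
  have hZS : ∀ u ∈ Z, u ∈ S := fun u hu => ((hZ u).1 hu).1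
  intro d
  induction d using Nat.strong_induction_on with
  | _ d ih =>
    intro k hd hk z p hz hp
    have hz' : (z = N ∧ k = 0) ∨ (z ∈ Z ∧ τ z = k) := by
      rcases hz with h | h
      · exact Or.inl h
      · exact Or.inr ⟨h.1, h.2.1⟩
    have nz : ∀ j, k ≤ j → j < m → nm A N z (q j) := by
      intro j hj hjm
      rcases hz with ⟨h, _⟩ | ⟨h, h', _⟩
      · exact Or.inl h
      · exact Or.inr (h2 z h j (by omega) hjm)
    have npp : ∀ j, k ≤ j → j < m → nm A N p (q j) := by
      intro j hj hjm
      rcases hp with h | ⟨h, h'⟩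
      · exact Or.inl h
      · exact Or.inr (h2 p h j (by omega) hjm)
    by_cases hex : ∃ t, ∃ w ∈ Z, τ w = t ∧ k < t ∧ t < m
    · obtain ⟨w, hw, hwt, hkt, htm⟩ := Nat.find_spec hex
      have hmin : ∀ u ∈ Z, k < τ u → τ u < Nat.find hex → False := by
        intro u hu hku hut
        exact Nat.find_min hex hut ⟨u, hu, rfl, hku, by omega⟩
      set k' := Nat.find hex with hk'
      have hwN : w ≠ N := (hS w (hZS w hw)).ne
      have hchain : chain A S N p z w := by
        intro v hv hvz hvw
        rcases hp with h | ⟨h, h'⟩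
        · exact Or.inl h
        · right
          have hvw' : A v w := hvw.resolve_left hwN
          by_contra hcon
          have hne : v ≠ p := by
            rintro rfl
            have := far_arc hT hq hmax hZ hm h1 h2 h hw (by omega)
            exact hT.asym _ hv _ (hZS w hw) hvw' this
          have hpv : A p v := hT.of_not hv (hZS p h) hne hcon
          by_cases hvZ : v ∈ Z
          · exact far_mid hT hq hmax hZ hm h1 h2 h hw hvZ (by omega) hpv hvw'
          · have : ∃ j, j < m ∧ q j = v := by
              by_contra hno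
              push Not at hno
              exact hvZ ((hZ v).2 ⟨hv, hno⟩)
            obtain ⟨j, hj, rfl⟩ := this
            have hj2 : τ w ≤ j := by
              by_contra hlt
              exact hT.asym _ hv _ (hZS w hw) hvw' (h1 w hw j (by omega))
            exact hcon (h2 p h j (by omega) hj)
      have IH : Dec A S N y (m - k') z w (q k') := by
        refine ih (m - k') (by omega) k' rfl htm w z (Or.inr ⟨hw, hwt, by omega⟩) ?_
        rcases hz with ⟨h, _⟩ | ⟨h, h', _⟩
        · exact Or.inl h
        · exact Or.inr ⟨h, by omega⟩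
      rcases Nat.lt_or_ge (k + 1) k' with hlt | hge
      · obtain ⟨i, j, hi, hj, hD⟩ := block hT hS hq hmax hZ hm h1 h2 (k := k) (k' := k')
          (z := z) (w := w) (by omega) (by omega) hz' (Or.inr ⟨hw, hwt⟩) hmin
        have hc := card_block hq (k := k) (k' := k') (by omega)
        have hseg : HasPath A (DD A S N z w i j) (q k) (q (k' - 1))
            (DD A S N z w i j).card := by
          rw [hD, hc]
          refine ⟨_, hq.segment (by omega) (by omega) ?_⟩
          intro l hl hl'
          exact Finset.mem_image.2 ⟨l, Finset.mem_Ico.2 ⟨hl, hl'⟩, rfl⟩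
        have := Dec.T2 (A := A) (S := S) (N := N) (y := y) (m - k') p z w (q k) (q k')
          (q (k' - 1)) i j hi hj (hZS w hw) hchain ?_ ?_ hseg ?_ IH
        · rw [hD, hc] at this
          rw [show m - k = m - k' + (k' - k) by omega]
          exact this
        · intro v hv
          rw [hD] at hv
          obtain ⟨l, hl, rfl⟩ := Finset.mem_image.1 hv
          rw [Finset.mem_Ico] at hl
          exact npp l hl.1 (by omega)
        · intro heq
          have := hq.inj _ _ (by omega) (by omega) heq
          omega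
        · have := hq.arc (k' - 1) (by omega)
          rwa [show k' - 1 + 1 = k' by omega] at this
      · have hkk : k' = k + 1 := by omega
        have := Dec.T1 (A := A) (S := S) (N := N) (y := y) (m - k') p z w (q k) (q k')
          (hZS w hw) hchain (mem_GG.2 ⟨hq.mem _ (by omega), nz k le_rfl hk,
            Or.inr (h1 w hw k (by omega))⟩) (npp k le_rfl hk) ?_ IH
        · rw [show m - k = m - k' + 1 by omega]
          exact this
        · rw [hkk]
          exact hq.arc k (by omega)
    · have hgap : ∀ u ∈ Z, k < τ u → τ u < m → False := by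
        intro u hu h h'
        exact hex ⟨_, u, hu, rfl, h, h'⟩
      rcases Nat.lt_or_ge (k + 1) m with hlt | hge
      · obtain ⟨i, j, hi, hj, hD⟩ := block hT hS hq hmax hZ hm h1 h2 (k := k) (k' := m)
          (z := z) (w := N) (by omega) le_rfl hz' (Or.inl ⟨rfl, rfl⟩) hgap
        have hc := card_block hq (k := k) (k' := m) le_rfl
        have hseg : HasPath A (DD A S N z N i j) (q k) y (DD A S N z N i j).card := by
          rw [hD, hc]
          rw [← hq.last]
          refine ⟨_, hq.segment (by omega) le_rfl ?_⟩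
          intro l hl hl'
          exact Finset.mem_image.2 ⟨l, Finset.mem_Ico.2 ⟨hl, hl'⟩, rfl⟩
        have := Dec.L2 (A := A) (S := S) (N := N) (y := y) p z (q k) i j hi hj ?_ ?_ hseg
        · rw [hD, hc] at this
          exact this
        · intro heq
          rw [← hq.last] at heq
          have := hq.inj _ _ (by omega) (by omega) heq
          omega
        · intro v hv
          rw [hD] at hv
          obtain ⟨l, hl, rfl⟩ := Finset.mem_image.1 hv
          rw [Finset.mem_Ico] at hl
          exact npp l hl.1 (by omega)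
      · have hkm : k = m - 1 := by omega
        have hqk : q k = y := by rw [hkm, hq.last]
        have h3 : y ∈ GG A S N z N := by
          rw [← hqk]
          exact mem_GG.2 ⟨hq.mem _ hk, nz k le_rfl hk, Or.inl rfl⟩
        have h4 : nm A N p y := by
          rw [← hqk]
          exact npp k le_rfl hk
        rw [hqk, show m - k = 1 by omega]
        exact Dec.L1 p z h3 h4

end Main

/-- A longest path is found by the decomposition. -/
theorem Dec.complete (hT : Tour A S) (hS : ∀ v ∈ S, v < N) (h : HasPath A S b y m)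
    (hmax : ∀ m', m < m' → ¬ HasPath A S b y m') : Dec A S N y m N N b := by
  classical
  obtain ⟨q, hq⟩ := h
  set Z := S.filter fun z => ∀ i, i < m → q i ≠ z with hZdef
  have hZ : ∀ z, z ∈ Z ↔ z ∈ S ∧ ∀ i, i < m → q i ≠ z := fun z => Finset.mem_filter
  have hthr : ∀ z, ∃ τ, z ∈ Z → τ ≤ m ∧ (∀ j, j < τ → A z (q j)) ∧
      (∀ j, τ ≤ j → j < m → A (q j) z) := by
    intro z
    by_cases hz : z ∈ Z
    · obtain ⟨τ, h⟩ := threshold hT hq hmax ((hZ z).1 hz).1 ((hZ z).1 hz).2
      exact ⟨τ, fun _ => h⟩
    · exact ⟨0, fun h => absurd h hz⟩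
  choose τ hτ using hthr
  have := complete_aux hT hS hq hmax hZ (fun z hz => (hτ z hz).1) (fun z hz => (hτ z hz).2.1)
    (fun z hz => (hτ z hz).2.2) m 0 rfl hq.pos N N (Or.inl ⟨rfl, rfl⟩) (Or.inl rfl)
  rw [hq.first] at this
  exact this

end Pool.Agent.Lib54.LP
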