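import Pool.Agent.Lib_helper54.LongPath.Ram

/-!
# Logarithmic cost

(The machine, the loop language and its compiler are due to helper40, see
`Pool/Agent/Lib_helper40/TI`; copied here.)
-/

namespace Pool.Agent.Lib54.LP

open Finset

/-- The total number of binary digits of the numbers involved in an instruction: the numbers
written in it, the contents of the registers used, the addresses and the input number read. -/
def Instr.bits (inp : ℕ → ℕ) (m : ℕ → ℕ) : Instr → ℕ
  | .const i a => Nat.size i + Nat.size a
  | .add i j l => Nat.size i + Nat.size j + Nat.size l + Nat.size (m j) + Nat.size (m l)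
  | .sub i j l => Nat.size i + Nat.size j + Nat.size l + Nat.size (m j) + Nat.size (m l)
  | .half i j => Nat.size i + Nat.size j + Nat.size (m j)
  | .load i j => Nat.size i + Nat.size j + Nat.size (m j) + Nat.size (m (m j))
  | .store i j => Nat.size i + Nat.size j + Nat.size (m i) + Nat.size (m j)
  | .read i j => Nat.size i + Nat.size j + Nat.size (m j) + Nat.size (inp (m j))
  | .jump l => Nat.size l
  | .jzero i l => Nat.size i + Nat.size l + Nat.size (m i)

/-- The cost of the step made in the configuration `c`: one plus the number of binary digits
involved (and `0` if the machine has halted). -/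
def stepCost (P : Prog) (inp : ℕ → ℕ) (c : Cfg) : ℕ :=
  match P[c.pc]? with
  | some I => 1 + I.bits inp c.mem
  | none => 0

/-- The cost of the first `t` steps. -/
def costFor (P : Prog) (inp : ℕ → ℕ) (t : ℕ) : ℕ :=
  ∑ s ∈ Finset.range t, stepCost P inp (runFor P inp s)

/-- The numbers written in an instruction, added up. -/
def Instr.num : Instr → ℕ
  | .const i a => i + a
  | .add i j l => i + j + l
  | .sub i j l => i + j + l
  | .half i j => i + j
  | .load i j => i + j
  | .store i j => i + j
  | .read i j => i + j
  | .jump l => l
  | .jzero i l => i + l

/-- The numbers written in a program, added up. -/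
def numP (P : Prog) : ℕ := (P.map Instr.num).sum

lemma num_le {P : Prog} {J : Instr} (h : J ∈ P) : J.num ≤ numP P :=
  List.single_le_sum (fun _ _ => Nat.zero_le _) _ (List.mem_map.2 ⟨J, h, rfl⟩)

lemma size_le_self (x : ℕ) : Nat.size x ≤ x := Nat.size_le.2 Nat.lt_two_pow_self

lemma size_le_of_le {x y : ℕ} (h : x < 2 ^ y) : Nat.size x ≤ y := Nat.size_le.2 h

/-- The size of the registers. -/
lemma mem_le {P : Prog} {inp : ℕ → ℕ} {M : ℕ} (hP : numP P ≤ M) (hI : ∀ i, inp i ≤ M) :
    ∀ t i, (runFor P inp t).mem i ≤ M * 2 ^ t := by
  intro t
  induction t with
  | zero => intro i; simp [runFor]
  | succ t ih =>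
    intro i
    have hs : runFor P inp (t + 1) = step P inp (runFor P inp t) := by
      unfold runFor
      rw [Function.iterate_succ_apply']
    rw [hs]
    set c := runFor P inp t with hc
    have hpow : M * 2 ^ t ≤ M * 2 ^ (t + 1) :=
      Nat.mul_le_mul_left _ (Nat.pow_le_pow_right (by norm_num) (by omega))
    have hM : M ≤ M * 2 ^ (t + 1) := Nat.le_mul_of_pos_right _ (by positivity)
    have h2 : M * 2 ^ (t + 1) = M * 2 ^ t + M * 2 ^ t := by rw [pow_succ]; ring
    unfold step
    cases hJ : P[c.pc]? with
    | none => exact (ih i).trans hpow
    | some J =>
      have hmem : J ∈ P := List.mem_of_getElem? hJ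
      have hnum := (num_le hmem).trans hP
      cases J with
      | const a b =>
        simp only [Instr.exec, Instr.num] at hnum ⊢
        by_cases h : i = a
        · subst h; rw [Function.update_self]; omega
        · rw [Function.update_of_ne h]; exact (ih i).trans hpow
      | add a b d =>
        simp only [Instr.exec]
        by_cases h : i = a
        · subst h; rw [Function.update_self]
          have := ih b
          have := ih d
          omega
        · rw [Function.update_of_ne h]; exact (ih i).trans hpow
      | sub a b d =>
        simp only [Instr.exec]
        by_cases h : i = a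
        · subst h; rw [Function.update_self]
          have := ih b
          omega
        · rw [Function.update_of_ne h]; exact (ih i).trans hpow
      | half a b =>
        simp only [Instr.exec]
        by_cases h : i = a
        · subst h; rw [Function.update_self]
          have := ih b
          omega
        · rw [Function.update_of_ne h]; exact (ih i).trans hpow
      | load a b =>
        simp only [Instr.exec]
        by_cases h : i = a
        · subst h; rw [Function.update_self]
          exact (ih _).trans hpow
        · rw [Function.update_of_ne h]; exact (ih i).trans hpow
      | store a b =>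
        simp only [Instr.exec]
        by_cases h : i = c.mem a
        · subst h; rw [Function.update_self]
          exact (ih _).trans hpow
        · rw [Function.update_of_ne h]; exact (ih i).trans hpow
      | read a b =>
        simp only [Instr.exec]
        by_cases h : i = a
        · subst h; rw [Function.update_self]
          exact (hI _).trans hM
        · rw [Function.update_of_ne h]; exact (ih i).trans hpow
      | jump a => exact (ih i).trans hpow
      | jzero a b => exact (ih i).trans hpow

lemma stepCost_le {P : Prog} {inp : ℕ → ℕ} {M : ℕ} (hP : numP P ≤ M) (hI : ∀ i, inp i ≤ M)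
    (t : ℕ) : stepCost P inp (runFor P inp t) ≤ 1 + M + 2 * (M + t) := by
  have hm := mem_le hP hI t
  set c := runFor P inp t with hc
  have hs : ∀ i, Nat.size (c.mem i) ≤ M + t := by
    intro i
    apply size_le_of_le
    calc c.mem i ≤ M * 2 ^ t := hm i
      _ < 2 ^ M * 2 ^ t := Nat.mul_lt_mul_of_pos_right Nat.lt_two_pow_self (by positivity)
      _ = 2 ^ (M + t) := (pow_add _ _ _).symm
  have hs' : ∀ i, Nat.size (inp i) ≤ M + t := fun i =>
    (size_le_self _).trans ((hI i).trans (by omega))
  unfold stepCost
  cases hJ : P[c.pc]? with
  | none => simp
  | some J =>
    have hmem : J ∈ P := List.mem_of_getElem? hJ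
    have hnum := (num_le hmem).trans hP
    cases J with
    | const a b =>
      simp only [Instr.bits, Instr.num] at hnum ⊢
      have := size_le_self a
      have := size_le_self b
      omega
    | add a b d =>
      simp only [Instr.bits, Instr.num] at hnum ⊢
      have := size_le_self a
      have := size_le_self b
      have := size_le_self d
      have := hs b
      have := hs d
      omega
    | sub a b d =>
      simp only [Instr.bits, Instr.num] at hnum ⊢
      have := size_le_self a
      have := size_le_self b
      have := size_le_self d
      have := hs b
      have := hs d
      omega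
    | half a b =>
      simp only [Instr.bits, Instr.num] at hnum ⊢
      have := size_le_self a
      have := size_le_self b
      have := hs b
      omega
    | load a b =>
      simp only [Instr.bits, Instr.num] at hnum ⊢
      have := size_le_self a
      have := size_le_self b
      have := hs b
      have := hs (c.mem b)
      omega
    | store a b =>
      simp only [Instr.bits, Instr.num] at hnum ⊢
      have := size_le_self a
      have := size_le_self b
      have := hs a
      have := hs b
      omega
    | read a b =>
      simp only [Instr.bits, Instr.num] at hnum ⊢
      have := size_le_self a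
      have := size_le_self b
      have := hs b
      have := hs' (c.mem b)
      omega
    | jump a =>
      simp only [Instr.bits, Instr.num] at hnum ⊢
      have := size_le_self a
      omega
    | jzero a b =>
      simp only [Instr.bits, Instr.num] at hnum ⊢
      have := size_le_self a
      have := size_le_self b
      have := hs a
      omega

theorem costFor_le {P : Prog} {inp : ℕ → ℕ} {M : ℕ} (hP : numP P ≤ M) (hI : ∀ i, inp i ≤ M)
    (t : ℕ) : costFor P inp t ≤ t * (1 + M + 2 * (M + t)) := by
  unfold costFor
  calc ∑ s ∈ Finset.range t, stepCost P inp (runFor P inp s) ≤
      ∑ s ∈ Finset.range t, (1 + M + 2 * (M + t)) := by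
        apply Finset.sum_le_sum
        intro s hs
        rw [Finset.mem_range] at hs
        have := stepCost_le hP hI s
        omega
    _ = _ := by rw [Finset.sum_const, Finset.card_range, smul_eq_mul]

end Pool.Agent.Lib54.LP
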