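import Mathlib

/-!
# Tournaments on `Fin n`, paths and their encoding
-/

namespace Pool.Agent.Lib54.LP

/-- A tournament with vertex set `Fin n`: `T u v = true` means that there is an arc from `u`
to `v`. There are no loops and every two distinct vertices are joined by exactly one arc. -/
def IsTournament {n : ℕ} (T : Fin n → Fin n → Bool) : Prop :=
  (∀ u, T u u = false) ∧ ∀ u v, u ≠ v → T v u = !(T u v)

/-- The list `l` of vertices is an `(x, y)`-path: its vertices are pairwise distinct, from each
of them to the next one there is an arc, the first one is `x` and the last one is `y`. -/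
structure IsPath {n : ℕ} (T : Fin n → Fin n → Bool) (x y : Fin n) (l : List (Fin n)) : Prop where
  nodup : l.Nodup
  arcs : l.IsChain fun u v => T u v = true
  first : l.head? = some x
  last : l.getLast? = some y

/-- There is a hamiltonian `(x, y)`-path: one that contains all vertices. -/
def HasHamPath {n : ℕ} (T : Fin n → Fin n → Bool) (x y : Fin n) : Prop :=
  ∃ l, IsPath T x y l ∧ ∀ v, v ∈ l

/-- The input: the number `n` of vertices, the numbers of `x` and `y`, and the adjacency
matrix. -/
def input {n : ℕ} (T : Fin n → Fin n → Bool) (x y : Fin n) : ℕ → ℕ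
  | 0 => n
  | 1 => x
  | 2 => y
  | a + 3 => if h : a < n * n then
      (if T ⟨a / n, Nat.div_lt_of_lt_mul h⟩
        ⟨a % n, Nat.mod_lt _ (Nat.pos_of_ne_zero fun h0 => by simp [h0] at h)⟩ then 1 else 0)
      else 0

end Pool.Agent.Lib54.LP
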