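import Pool.Agent.Lib_helper54.LongPath.Ram

/-!
# A loop language and its compilation to the random access machine

(The machine, the loop language and its compiler are due to helper40, see
`Pool/Agent/Lib_helper40/TI`; copied here.)
-/

namespace Pool.Agent.Lib54.LP

/-- Expressions of the loop language. -/
inductive Expr where
  | lit (c : ℕ) : Expr
  | var (x : ℕ) : Expr
  | bv (j : ℕ) : Expr
  | arr (b : ℕ) (e : Expr) : Expr
  | inp (e : Expr) : Expr
  | add (e f : Expr) : Expr
  | sub (e f : Expr) : Expr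
  | half (e : Expr) : Expr
  | ite (c e f : Expr) : Expr
  | sum (r : ℕ) (e : Expr) : Expr

/-- Commands of the loop language. -/
inductive Cmd where
  | skip : Cmd
  | set (x : ℕ) (e : Expr) : Cmd
  | put (b : ℕ) (i e : Expr) : Cmd
  | seq (c d : Cmd) : Cmd
  | ite (e : Expr) (c d : Cmd) : Cmd
  | loop (x r : ℕ) (c : Cmd) : Cmd

/-- States of the loop language. -/
structure St where
  v : ℕ → ℕ
  a : ℕ → ℕ → ℕ

def St.setV (s : St) (x c : ℕ) : St := ⟨Function.update s.v x c, s.a⟩

def St.setA (s : St) (b i c : ℕ) : St :=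
  ⟨s.v, Function.update s.a b (Function.update (s.a b) i c)⟩

/-- Value of an expression. -/
def eval (I : ℕ → ℕ) (s : St) : Expr → List ℕ → ℕ
  | .lit c, _ => c
  | .var x, _ => s.v x
  | .bv j, env => env.getD j 0
  | .arr b e, env => s.a b (eval I s e env)
  | .inp e, env => I (eval I s e env)
  | .add e f, env => eval I s e env + eval I s f env
  | .sub e f, env => eval I s e env - eval I s f env
  | .half e, env => eval I s e env / 2
  | .ite c e f, env => if eval I s c env = 0 then eval I s f env else eval I s e env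
  | .sum r e, env => ∑ i ∈ Finset.range (s.v r), eval I s e (env ++ [i])

/-- Iteration with an index. -/
def iter (f : ℕ → St → St) : ℕ → St → St
  | 0, s => s
  | n + 1, s => f n (iter f n s)

/-- Effect of a command. -/
def run (I : ℕ → ℕ) : Cmd → St → St
  | .skip, s => s
  | .set x e, s => s.setV x (eval I s e [])
  | .put b i e, s => s.setA b (eval I s i []) (eval I s e [])
  | .seq c d, s => run I d (run I c s)
  | .ite e c d, s => if eval I s e [] = 0 then run I d s else run I c s
  | .loop x r c, s => iter (fun i s' => run I c (s'.setV x i)) (s.v r) s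

/-! ### Well-formed programs -/

/-- Number of arrays plus one; arrays and variables are interleaved in the memory. -/
def AW : ℕ := 32

/-- Bound on read-only variables. -/
def R0 : ℕ := 16

/-- Bound on program variables. -/
def D0 : ℕ := 48

def wfE : ℕ → Expr → Bool
  | _, .lit _ => true
  | _, .var x => decide (x < D0)
  | n, .bv j => decide (j < n)
  | n, .arr b e => decide (b < 31) && wfE n e
  | n, .inp e => wfE n e
  | n, .add e f => wfE n e && wfE n f
  | n, .sub e f => wfE n e && wfE n f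
  | n, .half e => wfE n e
  | n, .ite c e f => wfE n c && wfE n e && wfE n f
  | n, .sum r e => decide (r < R0) && wfE (n + 1) e

def wfC : Cmd → Bool
  | .skip => true
  | .set x e => decide (R0 ≤ x) && decide (x < D0) && wfE 0 e
  | .put b i e => decide (b < 31) && wfE 0 i && wfE 0 e
  | .seq c d => wfC c && wfC d
  | .ite e c d => wfE 0 e && wfC c && wfC d
  | .loop x r c => decide (R0 ≤ x) && decide (x < D0) && decide (r < R0) && wfC c

/-! ### Time bounds -/

def timeE (W : ℕ) : Expr → ℕ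
  | .lit _ => 1
  | .var _ => 2
  | .bv _ => 2
  | .arr _ e => timeE W e + 8
  | .inp e => timeE W e + 1
  | .add e f => timeE W e + timeE W f + 1
  | .sub e f => timeE W e + timeE W f + 1
  | .half e => timeE W e + 1
  | .ite c e f => timeE W c + timeE W e + timeE W f + 2
  | .sum _ e => 4 + (W * (timeE W e + 6) + 2)

def timeC (W : ℕ) : Cmd → ℕ
  | .skip => 0
  | .set _ e => timeE W e + 2
  | .put _ i e => timeE W i + timeE W e + 8
  | .seq c d => timeC W c + timeC W d
  | .ite e c d => timeE W e + timeC W c + timeC W d + 2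
  | .loop _ _ c => 3 + (W * (timeC W c + 7) + 2)

lemma timeE_poly (e : Expr) : ∃ C D : ℕ, ∀ W, timeE W e ≤ C * (W + 1) ^ D := by
  induction e with
  | lit c => exact ⟨1, 0, fun W => by simp [timeE]⟩
  | var x => exact ⟨2, 0, fun W => by simp [timeE]⟩
  | bv j => exact ⟨2, 0, fun W => by simp [timeE]⟩
  | arr b e ih =>
    obtain ⟨C, D, h⟩ := ih
    refine ⟨C + 8, D, fun W => ?_⟩
    have h1 : 1 ≤ (W + 1) ^ D := Nat.one_le_pow _ _ (by omega)
    have := h W
    simp only [timeE]
    nlinarith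
  | inp e ih =>
    obtain ⟨C, D, h⟩ := ih
    refine ⟨C + 1, D, fun W => ?_⟩
    have h1 : 1 ≤ (W + 1) ^ D := Nat.one_le_pow _ _ (by omega)
    have := h W
    simp only [timeE]
    nlinarith
  | add e f ihe ihf =>
    obtain ⟨C, D, h⟩ := ihe
    obtain ⟨C', D', h'⟩ := ihf
    refine ⟨C + C' + 1, D + D', fun W => ?_⟩
    have h1 : 1 ≤ (W + 1) ^ D := Nat.one_le_pow _ _ (by omega)
    have h2 : 1 ≤ (W + 1) ^ D' := Nat.one_le_pow _ _ (by omega)
    have h3 : (W + 1) ^ D ≤ (W + 1) ^ (D + D') := Nat.pow_le_pow_right (by omega) (by omega)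
    have h4 : (W + 1) ^ D' ≤ (W + 1) ^ (D + D') := Nat.pow_le_pow_right (by omega) (by omega)
    have := h W
    have := h' W
    simp only [timeE]
    nlinarith
  | sub e f ihe ihf =>
    obtain ⟨C, D, h⟩ := ihe
    obtain ⟨C', D', h'⟩ := ihf
    refine ⟨C + C' + 1, D + D', fun W => ?_⟩
    have h1 : 1 ≤ (W + 1) ^ D := Nat.one_le_pow _ _ (by omega)
    have h2 : 1 ≤ (W + 1) ^ D' := Nat.one_le_pow _ _ (by omega)
    have h3 : (W + 1) ^ D ≤ (W + 1) ^ (D + D') := Nat.pow_le_pow_right (by omega) (by omega)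
    have h4 : (W + 1) ^ D' ≤ (W + 1) ^ (D + D') := Nat.pow_le_pow_right (by omega) (by omega)
    have := h W
    have := h' W
    simp only [timeE]
    nlinarith
  | half e ih =>
    obtain ⟨C, D, h⟩ := ih
    refine ⟨C + 1, D, fun W => ?_⟩
    have h1 : 1 ≤ (W + 1) ^ D := Nat.one_le_pow _ _ (by omega)
    have := h W
    simp only [timeE]
    nlinarith
  | ite c e f ihc ihe ihf =>
    obtain ⟨C, D, h⟩ := ihe
    obtain ⟨C', D', h'⟩ := ihf
    obtain ⟨C'', D'', h''⟩ := ihc
    refine ⟨C + C' + C'' + 2, D + D' + D'', fun W => ?_⟩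
    have h1 : 1 ≤ (W + 1) ^ D := Nat.one_le_pow _ _ (by omega)
    have h3 : (W + 1) ^ D ≤ (W + 1) ^ (D + D' + D'') := Nat.pow_le_pow_right (by omega) (by omega)
    have h4 : (W + 1) ^ D' ≤ (W + 1) ^ (D + D' + D'') := Nat.pow_le_pow_right (by omega) (by omega)
    have h5 : (W + 1) ^ D'' ≤ (W + 1) ^ (D + D' + D'') := Nat.pow_le_pow_right (by omega) (by omega)
    have := h W
    have := h' W
    have := h'' W
    simp only [timeE]
    nlinarith
  | sum r e ih =>
    obtain ⟨C, D, h⟩ := ih
    refine ⟨C + 6 + 6, D + 1, fun W => ?_⟩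
    have h1 : 1 ≤ (W + 1) ^ D := Nat.one_le_pow _ _ (by omega)
    have := h W
    simp only [timeE]
    have h2 : W * (timeE W e + 6) ≤ (W + 1) * (C * (W + 1) ^ D + 6) := by gcongr; omega
    have h3 : (W + 1) ^ (D + 1) = (W + 1) ^ D * (W + 1) := pow_succ _ _
    rw [h3]
    nlinarith

lemma timeC_poly (c : Cmd) : ∃ C D : ℕ, ∀ W, timeC W c ≤ C * (W + 1) ^ D := by
  induction c with
  | skip => exact ⟨0, 0, fun W => by simp [timeC]⟩
  | set x e =>
    obtain ⟨C, D, h⟩ := timeE_poly e
    refine ⟨C + 2, D, fun W => ?_⟩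
    have h1 : 1 ≤ (W + 1) ^ D := Nat.one_le_pow _ _ (by omega)
    have := h W
    simp only [timeC]
    nlinarith
  | put b i e =>
    obtain ⟨C, D, h⟩ := timeE_poly i
    obtain ⟨C', D', h'⟩ := timeE_poly e
    refine ⟨C + C' + 8, D + D', fun W => ?_⟩
    have h1 : 1 ≤ (W + 1) ^ D := Nat.one_le_pow _ _ (by omega)
    have h2 : 1 ≤ (W + 1) ^ D' := Nat.one_le_pow _ _ (by omega)
    have h3 : (W + 1) ^ D ≤ (W + 1) ^ (D + D') := Nat.pow_le_pow_right (by omega) (by omega)
    have h4 : (W + 1) ^ D' ≤ (W + 1) ^ (D + D') := Nat.pow_le_pow_right (by omega) (by omega)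
    have := h W
    have := h' W
    simp only [timeC]
    nlinarith
  | seq c d ihc ihd =>
    obtain ⟨C, D, h⟩ := ihc
    obtain ⟨C', D', h'⟩ := ihd
    refine ⟨C + C', D + D', fun W => ?_⟩
    have h3 : (W + 1) ^ D ≤ (W + 1) ^ (D + D') := Nat.pow_le_pow_right (by omega) (by omega)
    have h4 : (W + 1) ^ D' ≤ (W + 1) ^ (D + D') := Nat.pow_le_pow_right (by omega) (by omega)
    have := h W
    have := h' W
    simp only [timeC]
    nlinarith
  | ite e c d ihc ihd =>
    obtain ⟨C, D, h⟩ := ihc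
    obtain ⟨C', D', h'⟩ := ihd
    obtain ⟨C'', D'', h''⟩ := timeE_poly e
    refine ⟨C + C' + C'' + 2, D + D' + D'', fun W => ?_⟩
    have h1 : 1 ≤ (W + 1) ^ D := Nat.one_le_pow _ _ (by omega)
    have h3 : (W + 1) ^ D ≤ (W + 1) ^ (D + D' + D'') := Nat.pow_le_pow_right (by omega) (by omega)
    have h4 : (W + 1) ^ D' ≤ (W + 1) ^ (D + D' + D'') := Nat.pow_le_pow_right (by omega) (by omega)
    have h5 : (W + 1) ^ D'' ≤ (W + 1) ^ (D + D' + D'') := Nat.pow_le_pow_right (by omega) (by omega)
    have := h W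
    have := h' W
    have := h'' W
    simp only [timeC]
    nlinarith
  | loop x r c ih =>
    obtain ⟨C, D, h⟩ := ih
    refine ⟨C + 7 + 5, D + 1, fun W => ?_⟩
    have h1 : 1 ≤ (W + 1) ^ D := Nat.one_le_pow _ _ (by omega)
    have := h W
    simp only [timeC]
    have h2 : W * (timeC W c + 7) ≤ (W + 1) * (C * (W + 1) ^ D + 7) := by gcongr; omega
    have h3 : (W + 1) ^ (D + 1) = (W + 1) ^ D * (W + 1) := pow_succ _ _
    rw [h3]
    nlinarith

end Pool.Agent.Lib54.LP
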