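import Pool.Agent.Lib_helper54.LongPath.Stage2b
import Pool.Agent.Lib_helper54.LongPath.Core2

/-!
# Extraction of the path

Variables: 32 loop variable, 33 the current vertex, 34 number of vertices of the path.
Array 0: the vertices of the path.
-/

namespace Pool.Agent.Lib54.LP

open Finset

variable {I : ℕ → ℕ} {n B x y : ℕ} {d : ℕ → ℕ} {Q : Prog}

lemma HasPath.le_of_range {A : ℕ → ℕ → Prop} {b m : ℕ} (h : HasPath A (range n) b y m) :
    m ≤ n := by
  obtain ⟨q, hq⟩ := h
  calc m = ((range m).image q).card := by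
        rw [Finset.card_image_of_injOn, card_range]
        intro i hi j hj hij
        simp only [coe_range, Set.mem_Iio] at hi hj
        exact hq.inj i j hi hj hij
    _ ≤ (range n).card := by
        apply Finset.card_le_card
        intro v hv
        obtain ⟨i, hi, rfl⟩ := mem_image.1 hv
        exact hq.mem i (mem_range.1 hi)
    _ = n := card_range n

/-- The longest length. -/
lemma exists_max (A : ℕ → ℕ → Prop) (n x y : ℕ) : ∃ M, M ≤ n ∧
    (∀ m, M < m → ¬ HasPath A (range n) x y m) ∧ (0 < M → HasPath A (range n) x y M) := by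
  classical
  refine ⟨Nat.findGreatest (HasPath A (range n) x y) n, Nat.findGreatest_le n, ?_, ?_⟩
  · intro m hm h
    have h1 := h.le_of_range
    exact Nat.findGreatest_is_greatest hm h1 h
  · intro hpos
    exact Nat.findGreatest_of_ne_zero (n := n) rfl (by omega)

def maxE : Expr := .sum 1 (boolE (andE (leE (.lit 1) (.bv 0)) (.sum 1 (andE (leE (.bv 0) (.bv 1))
  (.arr 9 (ix4G (.bv 1) (.var 0) (.var 0) (.var 4)))))))

lemma eval_maxE {s : St} (h0 : s.v 0 = n) (h1 : s.v 1 = n + 1) (h4 : s.v 4 = x) {M : ℕ}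
    (hM : M ≤ n) (hpos : 0 < M → s.a 9 (ix4 n M n n x) ≠ 0)
    (hle : ∀ m, M < m → m < n + 1 → s.a 9 (ix4 n m n n x) = 0)
    : eval I s maxE [] = M := by
  rw [maxE, eval_card, h1]
  have : (range (n + 1)).filter (fun i => tr I s (andE (leE (.lit 1) (.bv 0))
      (.sum 1 (andE (leE (.bv 0) (.bv 1)) (.arr 9 (ix4G (.bv 1) (.var 0) (.var 0) (.var 4))))))
      ([] ++ [i])) = Finset.Icc 1 M := by
    ext i
    rw [mem_filter, mem_range, Finset.mem_Icc, tr_andE, tr_leE, tr_sum, h1]
    have e0 : eval I s (.bv 0) ([] ++ [i]) = i := rfl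
    rw [e0, eval_lit]
    have key : ∀ m, tr I s (andE (leE (.bv 0) (.bv 1))
        (.arr 9 (ix4G (.bv 1) (.var 0) (.var 0) (.var 4)))) ([] ++ [i] ++ [m]) ↔
        i ≤ m ∧ s.a 9 (ix4 n m n n x) ≠ 0 := by
      intro m
      have e0 : eval I s (.bv 0) ([] ++ [i] ++ [m]) = i := rfl
      have e1 : eval I s (.bv 1) ([] ++ [i] ++ [m]) = m := rfl
      rw [tr_andE, tr_leE, tr_def, eval_arr, eval_ix4G (l := 2) h1 (stab_bv (by decide))
        (stab_var _) (stab_var _) (le_refl 2)]
      simp only [eval_var, e0, e1, h0, h4]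
    constructor
    · rintro ⟨_, h2, m, hm, h3⟩
      rw [key] at h3
      refine ⟨h2, ?_⟩
      by_contra hcon
      exact h3.2 (hle m (by omega) hm)
    · rintro ⟨h2, h3⟩
      refine ⟨by omega, h2, M, by omega, ?_⟩
      rw [key]
      exact ⟨h3, hpos (by omega)⟩
  rw [this, Nat.card_Icc]
  omega

/-- `t + 1` is the number of vertices found before, `.bv 1` the candidate. -/
def goodE : Expr := andE (arcE (.var 33) (.bv 1))
  (.arr 9 (ix4G (.sub (.var 34) (.add (.var 32) (.lit 1))) (.var 0) (.var 0) (.bv 1)))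

def nextE : Expr := .sum 0 (boolE (allE 0 (impE (leE (.bv 1) (.bv 0)) (notE goodE))))

lemma eval_nextE {s : St} (h0 : s.v 0 = n) (h1 : s.v 1 = n + 1) {G : ℕ → Prop}
    (hG : ∀ c < n, (arcI I n (s.v 33) c ∧
      s.a 9 (ix4 n (s.v 34 - (s.v 32 + 1)) n n c) ≠ 0) ↔ G c) (hex : ∃ c < n, G c) :
    eval I s nextE [] < n ∧ G (eval I s nextE []) := by
  classical
  have hex' : ∃ c, c < n ∧ G c := hex
  obtain ⟨hc1, hc2⟩ := Nat.find_spec hex'
  have hmin : ∀ c, c < Nat.find hex' → c < n → ¬ G c := fun c hc hcn hG' =>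
    Nat.find_min hex' hc ⟨hcn, hG'⟩
  set c0 := Nat.find hex' with hc0
  have : eval I s nextE [] = c0 := by
    rw [nextE, eval_card, h0]
    have : (range n).filter (fun i => tr I s (allE 0 (impE (leE (.bv 1) (.bv 0))
        (notE goodE))) ([] ++ [i])) = range c0 := by
      ext i
      rw [mem_filter, mem_range, mem_range, tr_allE, h0]
      have key : ∀ c < n, (tr I s (impE (leE (.bv 1) (.bv 0)) (notE goodE))
          ([] ++ [i] ++ [c]) ↔ (c ≤ i → ¬ G c)) := by
        intro c hc
        have e0 : eval I s (.bv 0) ([] ++ [i] ++ [c]) = i := rfl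
        have e1 : eval I s (.bv 1) ([] ++ [i] ++ [c]) = c := rfl
        rw [tr_impE, tr_notE, goodE, tr_andE, tr_leE, tr_arcE h0 (stab_var (l := 2) 33)
          (le_refl 2), tr_def, eval_arr, eval_ix4G (l := 2) h1 (((stab_var _)).sub
          ((stab_var _).add (stab_lit _))) (stab_var _) (stab_var _) (le_refl 2)]
        simp only [eval_var, eval_sub, eval_add, eval_lit, e0, e1, h0]
        rw [hG c hc]
      constructor
      · rintro ⟨h2, h3⟩
        by_contra hcon
        exact (key c0 hc1).1 (h3 c0 hc1) (by omega) hc2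
      · intro h2
        refine ⟨by omega, fun c hc => (key c hc).2 fun hci => hmin c (by omega) hc⟩
    rw [this, card_range]
  rw [this]
  exact ⟨hc1, hc2⟩

def bodyO (Q : Prog) : Cmd := .seq (.put 1 (.var 33) (.lit 1)) (.seq (tablesC Q)
  (.seq (.set 33 nextE) (.put 0 (.add (.var 32) (.lit 1)) (.var 33))))

def loopO (Q : Prog) : Cmd := .loop 32 0 (.ite (ltE (.add (.var 32) (.lit 1)) (.var 34))
  (bodyO Q) .skip)

/-- The state after `τ` steps. -/
structure JJ (I : ℕ → ℕ) (n B x y M τ : ℕ) (s : St) : Prop where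
  ctx : Ctx n B (s.a 1) s
  v5 : s.v 5 = y
  v34 : s.v 34 = M
  v33 : s.v 33 = s.a 0 τ
  q0 : s.a 0 0 = x
  dead : ∀ v, s.a 1 v = 0 ↔ ∀ i < τ, s.a 0 i ≠ v
  lt : ∀ i ≤ τ, s.a 0 i < n
  inj : ∀ i j, i ≤ τ → j ≤ τ → s.a 0 i = s.a 0 j → i = j
  arc : ∀ i < τ, arcI I n (s.a 0 i) (s.a 0 (i + 1))
  rest : HasPath (arcI I n) (aliveS n (s.a 1)) (s.a 0 τ) y (M - τ)

lemma JJ.setV {M τ : ℕ} {s : St} (h : JJ I n B x y M τ s) (c : ℕ) :
    JJ I n B x y M τ (s.setV 32 c) := by
  obtain ⟨h1, h2, h3, h4, h5, h6, h7, h8, h9, h10⟩ := h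
  refine ⟨h1.setV (by decide) (by decide) c, ?_, ?_, ?_, h5, h6, h7, h8, h9, h10⟩ <;>
    rw [St.setV_v, Function.update_of_ne (by decide)]
  · exact h2
  · exact h3
  · exact h4

lemma bodyO_spec (hQ : Works Q I n B) (hT : Tour (arcI I n) (range n)) (hyn : y < n)
    {M τ : ℕ} (hMn : M ≤ n) (hmax : ∀ m, M < m → ¬ HasPath (arcI I n) (range n) x y m)
    (hτ : τ + 1 < M)
    {s : St} (hs : JJ I n B x y M τ s) (h32 : s.v 32 = τ) :
    JJ I n B x y M (τ + 1) (run I (bodyO Q) s) := by
  set d' : ℕ → ℕ := Function.update (s.a 1) (s.a 0 τ) 1 with hd'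
  set s1 : St := s.setA 1 (s.a 0 τ) 1 with hs1
  have e1 : run I (.put 1 (.var 33) (.lit 1)) s = s1 := by
    simp only [run, eval_var, eval_lit, hs.v33, hs1]
  have c1 : Ctx n B d' s1 := by
    obtain ⟨a0, a1, a2, a3, a4, a5, a6⟩ := hs.ctx
    exact ⟨a0, a1, a2, a3, by simp [hs1, hd'], a5, a6⟩
  have h5 : s1.v 5 = y := hs.v5
  obtain ⟨g1, g2⟩ := tablesC_spec hQ hT hyn c1 h5
  set s2 := run I (tablesC Q) s1 with hs2
  have v2 : ∀ z, z < 16 ∨ 32 ≤ z → s2.v z = s.v z := by
    intro z hz
    rw [hs2, run_v I _ (okV_tablesC Q z hz)]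
    rfl
  have a20 : s2.a 0 = s.a 0 := by
    rw [hs2, run_a I _ (okA_tablesC Q 0 (by decide))]
    simp [hs1]
  have a21 : s2.a 1 = d' := by
    rw [hs2, run_a I _ (okA_tablesC Q 1 (by decide))]
    simp [hs1, hd']
  -- the alive sets
  have hal : ∀ v, v ∈ aliveS n d' ↔ v < n ∧ ∀ i < τ + 1, s.a 0 i ≠ v := by
    intro v
    rw [mem_aliveS, hd']
    by_cases hv : v = s.a 0 τ
    · subst hv
      rw [Function.update_self]
      constructor
      · rintro ⟨_, h⟩; omega
      · rintro ⟨_, h⟩
        exact absurd rfl (h τ (by omega))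
    · rw [Function.update_of_ne hv, hs.dead]
      constructor
      · rintro ⟨h1, h2⟩
        refine ⟨h1, fun i hi => ?_⟩
        rcases Nat.lt_or_ge i τ with h | h
        · exact h2 i h
        · have : i = τ := by omega
          subst this
          exact fun h => hv h.symm
      · rintro ⟨h1, h2⟩
        exact ⟨h1, fun i hi => h2 i (by omega)⟩
  have halS : ∀ v ∈ aliveS n d', v < n := fun v hv => (mem_aliveS.1 hv).1
  have hTd : Tour (arcI I n) (aliveS n d') := hT.mono fun v hv => mem_range.2 (halS v hv)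
  -- the candidate
  obtain ⟨r, hr⟩ := hs.rest
  have hrest : HasPath (arcI I n) (aliveS n d') (r 1) y (M - (τ + 1)) := by
    have := hr.segment (k := 1) (k' := M - τ) (by omega) le_rfl (S' := aliveS n d') ?_
    · rw [hr.last, show M - τ - 1 = M - (τ + 1) by omega] at this
      exact ⟨_, this⟩
    · intro i hi hi'
      have h1 := hr.mem i hi'
      rw [mem_aliveS, hs.dead] at h1
      rw [hal]
      refine ⟨h1.1, fun j hj => ?_⟩
      rcases Nat.lt_or_ge j τ with h | h
      · exact h1.2 j h
      · have : j = τ := by omega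
        subst this
        intro h2
        rw [← hr.first] at h2
        have := hr.inj 0 i (by omega) hi' h2
        omega
  have hmax' : ∀ m', M - (τ + 1) < m' → ¬ HasPath (arcI I n) (aliveS n d') (r 1) y m' := by
    rintro m' hm' ⟨q, hq⟩
    have hpre : PathF (arcI I n) (range n) x (s.a 0 τ) (τ + 1) (s.a 0) :=
      ⟨by omega, hs.q0, rfl, fun i hi => mem_range.2 (hs.lt i (by omega)),
        fun i j hi hj => hs.inj i j (by omega) (by omega), fun i hi => hs.arc i (by omega)⟩
    have hq' : PathF (arcI I n) (range n) (r 1) y m' q := hq.mono fun i hi =>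
      mem_range.2 (halS _ (hq.mem i hi))
    have h1 := hq'.append hpre (fun i j hi hj h => ?_) ?_
    · exact hmax (m' + (τ + 1)) (by omega) h1
    · have := (hal _).1 (hq.mem i hi)
      exact this.2 j hj h.symm
    · have := hr.arc 0 (by omega)
      rwa [hr.first] at this
  have hdec := Dec.complete hTd halS hrest hmax'
  have hr1 : r 1 < n := halS _ hrest.end_mem.1
  have v33 : s2.v 33 = s.a 0 τ := by rw [v2 33 (by decide), hs.v33]
  have v34 : s2.v 34 = M := by rw [v2 34 (by decide), hs.v34]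
  have v32 : s2.v 32 = τ := by rw [v2 32 (by decide), h32]
  obtain ⟨k1, k2⟩ := eval_nextE (I := I) (s := s2) (n := n)
    (by rw [v2 0 (by decide)]; exact hs.ctx.v0)
    (by rw [v2 1 (by decide)]; exact hs.ctx.v1)
    (G := fun c => arcI I n (s.a 0 τ) c ∧
      Dec (arcI I n) (aliveS n d') n y (M - (τ + 1)) n n c)
    (fun c hc => by
      rw [v33, v34, v32, g2 (M - (τ + 1)) n n c (by omega) (by omega) (by omega) hc])
    ⟨r 1, hr1, by
      have := hr.arc 0 (by omega)
      rwa [hr.first] at this, hdec⟩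
  set c := eval I s2 nextE [] with hc
  have hcS : c ∈ aliveS n d' := Dec.start_mem hT k2.2
  have hrest' : HasPath (arcI I n) (aliveS n d') c y (M - (τ + 1)) :=
    (k2.2.sound hTd halS).mono (fun v hv => (mem_LL.1 hv).1)
  set s4 : St := (s2.setV 33 c).setA 0 (τ + 1) c with hs4
  have hrun : run I (bodyO Q) s = s4 := by
    show run I (.put 0 (.add (.var 32) (.lit 1)) (.var 33)) (run I (.set 33 nextE)
      (run I (tablesC Q) (run I (.put 1 (.var 33) (.lit 1)) s))) = s4
    rw [e1, ← hs2]
    simp only [run, eval_add, eval_var, eval_lit, St.setV_v, ← hc]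
    rw [Function.update_self, Function.update_of_ne (by decide), v32]
  rw [hrun]
  have w : ∀ z, z ≠ 33 → s4.v z = s2.v z := by
    intro z hz
    rw [hs4, St.setA_v, St.setV_v, Function.update_of_ne hz]
  have wa : ∀ b, b ≠ 0 → s4.a b = s2.a b := by
    intro b hb
    rw [hs4, St.setA_a, Function.update_of_ne hb]
    rfl
  have wa0 : s4.a 0 = Function.update (s.a 0) (τ + 1) c := by
    rw [hs4, St.setA_a, Function.update_self, St.setV_a, a20]
  have wa1 : s4.a 1 = d' := by rw [wa 1 (by decide), a21]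
  have old : ∀ i ≤ τ, s4.a 0 i = s.a 0 i := by
    intro i hi
    rw [wa0, Function.update_of_ne (by omega)]
  have new : s4.a 0 (τ + 1) = c := by rw [wa0, Function.update_self]
  refine ⟨?_, ?_, ?_, ?_, ?_, ?_, ?_, ?_, ?_, ?_⟩
  · rw [wa1]
    exact g1.congr (w 0 (by decide)) (w 1 (by decide)) (w 2 (by decide)) (w 3 (by decide))
      (wa 1 (by decide)) (wa 7 (by decide)) (w 27 (by decide)) (wa 5 (by decide))
  · rw [w 5 (by decide), v2 5 (by decide), hs.v5]
  · rw [w 34 (by decide), v34]
  · rw [new, hs4, St.setA_v, St.setV_v, Function.update_self]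
  · rw [old 0 (by omega), hs.q0]
  · intro v
    rw [wa1]
    constructor
    · intro h i hi
      rw [old i (by omega)]
      by_cases hv : v < n
      · exact ((hal v).1 (mem_aliveS.2 ⟨hv, h⟩)).2 i hi
      · intro h'
        have := hs.lt i (by omega)
        omega
    · intro h
      by_cases hv : v < n
      · have : v ∈ aliveS n d' := (hal v).2 ⟨hv, fun i hi => by
          rw [← old i (by omega)]
          exact h i hi⟩
        exact (mem_aliveS.1 this).2
      · have h1 : v ≠ s.a 0 τ := by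
          intro h'
          have := hs.lt τ (by omega)
          omega
        rw [hd', Function.update_of_ne h1, hs.dead]
        intro i hi h'
        have := hs.lt i (by omega)
        omega
  · intro i hi
    rcases Nat.lt_or_ge τ i with h | h
    · have : i = τ + 1 := by omega
      subst this
      rw [new]
      exact k1
    · rw [old i h]
      exact hs.lt i h
  · intro i j hi hj hij
    have hcn : ∀ i ≤ τ, s.a 0 i ≠ c := fun i hi => ((hal c).1 hcS).2 i (by omega)
    rcases Nat.lt_or_ge τ i with h | h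
    · rcases Nat.lt_or_ge τ j with h' | h'
      · omega
      · have : i = τ + 1 := by omega
        subst this
        rw [new, old j h'] at hij
        exact absurd hij.symm (hcn j h')
    · rcases Nat.lt_or_ge τ j with h' | h'
      · have : j = τ + 1 := by omega
        subst this
        rw [new, old i h] at hij
        exact absurd hij (hcn i h)
      · rw [old i h, old j h'] at hij
        exact hs.inj i j h h' hij
  · intro i hi
    rcases Nat.lt_or_ge i τ with h | h
    · rw [old i (by omega), old (i + 1) (by omega)]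
      exact hs.arc i h
    · have : i = τ := by omega
      subst this
      rw [old i le_rfl, new]
      exact k2.1
  · rw [wa1, new]
    exact hrest'

lemma loopO_spec (hQ : Works Q I n B) (hT : Tour (arcI I n) (range n)) (hyn : y < n)
    {M : ℕ} (hMn : M ≤ n) (hM0 : 0 < M)
    (hmax : ∀ m, M < m → ¬ HasPath (arcI I n) (range n) x y m)
    {s : St} (hs : JJ I n B x y M 0 s) :
    JJ I n B x y M (M - 1) (run I (loopO Q) s) := by
  simp only [loopO, run]
  rw [hs.ctx.v0]
  have key := iter_inv (fun i s' => if eval I (s'.setV 32 i) (ltE (.add (.var 32) (.lit 1))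
      (.var 34)) [] = 0 then s'.setV 32 i else run I (bodyO Q) (s'.setV 32 i)) s
    (fun t s' => JJ I n B x y M (min t (M - 1)) s') (by simpa using hs) n ?_
  · rw [show min n (M - 1) = M - 1 by omega] at key
    exact key
  · intro t s' ht hJ
    have hJ' := hJ.setV t
    have e32 : (s'.setV 32 t).v 32 = t := by simp
    have e1 : eval I (s'.setV 32 t) (.add (.var 32) (.lit 1)) [] = t + 1 := by
      rw [eval_add, eval_var, e32, eval_lit]
    have e2 : eval I (s'.setV 32 t) (.var 34) [] = M := by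
      rw [eval_var, hJ'.v34]
    by_cases hlt : t + 1 < M
    · rw [if_neg (by rw [eval_ltE, if_pos (by rw [e1, e2]; exact hlt)]; norm_num)]
      rw [show min t (M - 1) = t by omega] at hJ'
      rw [show min (t + 1) (M - 1) = t + 1 by omega]
      exact bodyO_spec hQ hT hyn hMn hmax hlt hJ' e32
    · rw [if_pos (by rw [eval_ltE, if_neg (by rw [e1, e2]; exact hlt)])]
      rw [show min (t + 1) (M - 1) = min t (M - 1) by omega]
      exact hJ'

lemma okV_bodyO (Q : Prog) (x : ℕ) (h : x < 16 ∨ 34 ≤ x) : okV x (bodyO Q) = true := by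
  have h1 := okV_tablesC Q x (by omega)
  simp [bodyO, okV, h1]
  omega

lemma okV_loopO (Q : Prog) (x : ℕ) (h : x < 16 ∨ 34 ≤ x) : okV x (loopO Q) = true := by
  have h1 := okV_bodyO Q x h
  simp [loopO, okV, h1]
  omega

lemma wf_bodyO (Q : Prog) : wfC (bodyO Q) = true := by
  have h1 : wfE 0 nextE = true := by decide
  simp only [bodyO, wfC, wf_tablesC, h1]
  decide

lemma wf_loopO (Q : Prog) : wfC (loopO Q) = true := by
  simp only [loopO, wfC, wf_bodyO]
  decide

end Pool.Agent.Lib54.LP
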