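import Mathlib

/-!
# A random access machine

Registers are numbered by the natural numbers and hold natural numbers. The machine has a
read-only input with random access. Arithmetic is limited to addition, truncated subtraction
and halving. Every instruction costs one step.

(The machine, the loop language and its compiler are due to helper40, see
`Pool/Agent/Lib_helper40/TI`; copied here.)
-/

namespace Pool.Agent.Lib54.LP

/-- Instructions. `R i` is the content of register `i`, and `In i` the `i`-th input number. -/
inductive Instr where
  /-- `R i := c` -/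
  | const (i c : ℕ) : Instr
  /-- `R i := R j + R l` -/
  | add (i j l : ℕ) : Instr
  /-- `R i := max (R j - R l) 0` -/
  | sub (i j l : ℕ) : Instr
  /-- `R i := ⌊R j / 2⌋` -/
  | half (i j : ℕ) : Instr
  /-- `R i := R (R j)` -/
  | load (i j : ℕ) : Instr
  /-- `R (R i) := R j` -/
  | store (i j : ℕ) : Instr
  /-- `R i := In (R j)` -/
  | read (i j : ℕ) : Instr
  /-- go to instruction `l` -/
  | jump (l : ℕ) : Instr
  /-- if `R i = 0` go to instruction `l`, otherwise go to the next instruction -/
  | jzero (i l : ℕ) : Instr

/-- A program is a finite list of instructions. -/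
abbrev Prog := List Instr

/-- A configuration: the number of the next instruction, and the contents of the registers. -/
structure Cfg where
  pc : ℕ
  mem : ℕ → ℕ

/-- Execution of one instruction. -/
def Instr.exec (inp : ℕ → ℕ) (c : Cfg) : Instr → Cfg
  | .const i a => ⟨c.pc + 1, Function.update c.mem i a⟩
  | .add i j l => ⟨c.pc + 1, Function.update c.mem i (c.mem j + c.mem l)⟩
  | .sub i j l => ⟨c.pc + 1, Function.update c.mem i (c.mem j - c.mem l)⟩
  | .half i j => ⟨c.pc + 1, Function.update c.mem i (c.mem j / 2)⟩
  | .load i j => ⟨c.pc + 1, Function.update c.mem i (c.mem (c.mem j))⟩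
  | .store i j => ⟨c.pc + 1, Function.update c.mem (c.mem i) (c.mem j)⟩
  | .read i j => ⟨c.pc + 1, Function.update c.mem i (inp (c.mem j))⟩
  | .jump l => ⟨l, c.mem⟩
  | .jzero i l => ⟨if c.mem i = 0 then l else c.pc + 1, c.mem⟩

/-- One step of the program `P` on the input `inp`. If there is no instruction numbered `pc`
the machine has halted and nothing changes. -/
def step (P : Prog) (inp : ℕ → ℕ) (c : Cfg) : Cfg :=
  match P[c.pc]? with
  | some I => I.exec inp c
  | none => c

/-- The configuration after `t` steps, all registers being `0` at the start. -/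
def runFor (P : Prog) (inp : ℕ → ℕ) (t : ℕ) : Cfg := (step P inp)^[t] ⟨0, fun _ => 0⟩

/-- `P` halts on the input `inp` after at most `t` steps with `out` in register `0`. -/
def HaltsWith (P : Prog) (inp : ℕ → ℕ) (t out : ℕ) : Prop :=
  P.length ≤ (runFor P inp t).pc ∧ (runFor P inp t).mem 0 = out

end Pool.Agent.Lib54.LP
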