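import Pool.Agent.Lib_helper54.LongPath.Base
import Pool.Agent.Lib_helper54.LongPath.Cost

/-!
# Simulation of a machine program inside the loop language

Variables: 26 number of the next instruction, 27 version, 28 loop variable, 29 auxiliary.
Arrays: 5 the input of the simulated machine, 6 contents of its registers, 7 versions. A register
whose version is not the current one is zero.
-/

namespace Pool.Agent.Lib54.LP

open Finset

/-- Content of a simulated register. -/
def regE (e : Expr) : Expr := .ite (eqE (.arr 7 e) (.var 27)) (.arr 6 e) (.lit 0)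

/-- Write to a simulated register. -/
def writeC (ea ev : Expr) : Cmd :=
  .seq (.set 29 ea) (.seq (.put 6 (.var 29) ev) (.seq (.put 7 (.var 29) (.var 27))
    (.set 26 (.add (.var 26) (.lit 1)))))

def instrC : Instr → Cmd
  | .const i a => writeC (.lit i) (.lit a)
  | .add i j l => writeC (.lit i) (.add (regE (.lit j)) (regE (.lit l)))
  | .sub i j l => writeC (.lit i) (.sub (regE (.lit j)) (regE (.lit l)))
  | .half i j => writeC (.lit i) (.half (regE (.lit j)))
  | .load i j => writeC (.lit i) (regE (regE (.lit j)))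
  | .store i j => writeC (regE (.lit i)) (regE (.lit j))
  | .read i j => writeC (.lit i) (.arr 5 (regE (.lit j)))
  | .jump l => .set 26 (.lit l)
  | .jzero i l => .set 26 (.ite (regE (.lit i)) (.add (.var 26) (.lit 1)) (.lit l))

/-- The instruction number `var 26`, the list starting with number `o`. -/
def stepC : List Instr → ℕ → Cmd
  | [], _ => .skip
  | J :: L, o => .ite (eqE (.var 26) (.lit o)) (instrC J) (stepC L (o + 1))

/-- Simulated memory. -/
def simM (s : St) : ℕ → ℕ := fun i => if s.a 7 i = s.v 27 then s.a 6 i else 0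

lemma eval_regE (I : ℕ → ℕ) (s : St) (e : Expr) (env : List ℕ) :
    eval I s (regE e) env = simM s (eval I s e env) := by
  simp only [regE, eval_ite, eval_eqE, eval_arr, eval_var, eval_lit, simM]
  split_ifs <;> simp_all

lemma run_writeC (I : ℕ → ℕ) (s : St) (ea ev : Expr)
    (h : ∀ a, eval I (s.setV 29 a) ev [] = eval I s ev []) :
    simM (run I (writeC ea ev) s) = Function.update (simM s) (eval I s ea []) (eval I s ev []) ∧
    (run I (writeC ea ev) s).v 26 = s.v 26 + 1 := by
  constructor
  · funext i
    simp only [writeC, run, simM, St.setV_v, St.setV_a, St.setA_v, St.setA_a, eval_var, h]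
    simp only [Function.update_self, ne_eq, show (27 : ℕ) ≠ 26 by decide,
      show (27 : ℕ) ≠ 29 by decide, show (6 : ℕ) ≠ 7 by decide, show (7 : ℕ) ≠ 6 by decide,
      not_false_eq_true, Function.update_of_ne]
    by_cases hi : i = eval I s ea []
    · subst hi
      simp only [Function.update_self, if_true]
    · simp only [Function.update_of_ne hi, simM]
  · simp only [writeC, run, St.setV_v, St.setA_v, Function.update_self, eval_add, eval_var,
      eval_lit, ne_eq, show (26 : ℕ) ≠ 29 by decide, not_false_eq_true, Function.update_of_ne]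

lemma regE_29 (I : ℕ → ℕ) (s : St) (e : Expr) (a : ℕ)
    (h : eval I (s.setV 29 a) e [] = eval I s e []) :
    eval I (s.setV 29 a) (regE e) [] = eval I s (regE e) [] := by
  rw [eval_regE, eval_regE, h]
  rfl

/-- What the simulation does not change. -/
lemma okV_instrC (x : ℕ) (h6 : x ≠ 26) (h9 : x ≠ 29) (J : Instr) : okV x (instrC J) = true := by
  cases J <;> simp [instrC, writeC, okV, h6, h9]

lemma okA_instrC (b : ℕ) (h6 : b ≠ 6) (h7 : b ≠ 7) (J : Instr) : okA b (instrC J) = true := by
  cases J <;> simp [instrC, writeC, okA, h6, h7]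

lemma okV_stepC (x : ℕ) (h6 : x ≠ 26) (h9 : x ≠ 29) (L : List Instr) :
    ∀ o, okV x (stepC L o) = true := by
  induction L with
  | nil => intro o; rfl
  | cons J L ih => intro o; simp only [stepC, okV, okV_instrC x h6 h9, ih, Bool.and_self]

lemma okA_stepC (b : ℕ) (h6 : b ≠ 6) (h7 : b ≠ 7) (L : List Instr) :
    ∀ o, okA b (stepC L o) = true := by
  induction L with
  | nil => intro o; rfl
  | cons J L ih => intro o; simp only [stepC, okA, okA_instrC b h6 h7, ih, Bool.and_self]

lemma wf_instrC (J : Instr) : wfC (instrC J) = true := by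
  cases J <;> rfl

lemma wf_stepC (L : List Instr) : ∀ o, wfC (stepC L o) = true := by
  induction L with
  | nil => intro o; rfl
  | cons J L ih =>
    intro o
    simp only [stepC, wfC, wf_instrC, ih, Bool.and_true]
    rfl

/-- One instruction. -/
lemma instrC_spec (I inp' : ℕ → ℕ) (s : St) (c : Cfg) (hin : ∀ i, s.a 5 i = inp' i)
    (hpc : s.v 26 = c.pc) (hm : simM s = c.mem) (J : Instr) :
    (run I (instrC J) s).v 26 = (J.exec inp' c).pc ∧
    simM (run I (instrC J) s) = (J.exec inp' c).mem := by
  cases J with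
  | const i a =>
    obtain ⟨h1, h2⟩ := run_writeC I s (.lit i) (.lit a) (fun _ => rfl)
    simp only [instrC, Instr.exec]
    rw [h1, h2, hpc, hm]
    exact ⟨rfl, rfl⟩
  | add i j l =>
    obtain ⟨h1, h2⟩ := run_writeC I s (.lit i) (.add (regE (.lit j)) (regE (.lit l)))
      (fun a => by rw [eval_add, eval_add, regE_29 I s _ a rfl, regE_29 I s _ a rfl])
    simp only [instrC, Instr.exec]
    rw [h1, h2, hpc, eval_add, eval_regE, eval_regE, hm]
    exact ⟨rfl, rfl⟩
  | sub i j l =>
    obtain ⟨h1, h2⟩ := run_writeC I s (.lit i) (.sub (regE (.lit j)) (regE (.lit l)))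
      (fun a => by rw [eval_sub, eval_sub, regE_29 I s _ a rfl, regE_29 I s _ a rfl])
    simp only [instrC, Instr.exec]
    rw [h1, h2, hpc, eval_sub, eval_regE, eval_regE, hm]
    exact ⟨rfl, rfl⟩
  | half i j =>
    obtain ⟨h1, h2⟩ := run_writeC I s (.lit i) (.half (regE (.lit j)))
      (fun a => by rw [eval_half, eval_half, regE_29 I s _ a rfl])
    simp only [instrC, Instr.exec]
    rw [h1, h2, hpc, eval_half, eval_regE, hm]
    exact ⟨rfl, rfl⟩
  | load i j =>
    obtain ⟨h1, h2⟩ := run_writeC I s (.lit i) (regE (regE (.lit j)))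
      (fun a => regE_29 I s _ a (regE_29 I s _ a rfl))
    simp only [instrC, Instr.exec]
    rw [h1, h2, hpc, eval_regE, eval_regE, hm]
    exact ⟨rfl, rfl⟩
  | store i j =>
    obtain ⟨h1, h2⟩ := run_writeC I s (regE (.lit i)) (regE (.lit j))
      (fun a => regE_29 I s _ a rfl)
    simp only [instrC, Instr.exec]
    rw [h1, h2, hpc, eval_regE, eval_regE, hm]
    exact ⟨rfl, rfl⟩
  | read i j =>
    obtain ⟨h1, h2⟩ := run_writeC I s (.lit i) (.arr 5 (regE (.lit j)))
      (fun a => by rw [eval_arr, eval_arr, regE_29 I s _ a rfl]; rfl)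
    simp only [instrC, Instr.exec]
    rw [h1, h2, hpc, eval_arr, eval_regE, hm, hin]
    exact ⟨rfl, rfl⟩
  | jump l => exact ⟨rfl, hm⟩
  | jzero i l =>
    refine ⟨?_, hm⟩
    show Function.update s.v 26 (eval I s (.ite (regE (.lit i)) (.add (.var 26) (.lit 1))
      (.lit l)) []) 26 = if c.mem i = 0 then l else c.pc + 1
    rw [Function.update_self, eval_ite, eval_regE, hm, eval_lit, eval_add, eval_var, hpc]
    rfl

lemma stepC_spec (I inp' : ℕ → ℕ) (s : St) (c : Cfg) (hin : ∀ i, s.a 5 i = inp' i)
    (hpc : s.v 26 = c.pc) (hm : simM s = c.mem) (P : Prog) : ∀ (L : List Instr) (o : ℕ),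
    (∀ i, L[i]? = P[o + i]?) → o ≤ c.pc →
    (run I (stepC L o) s).v 26 = (step P inp' c).pc ∧
    simM (run I (stepC L o) s) = (step P inp' c).mem := by
  intro L
  induction L with
  | nil =>
    intro o hL ho
    have h := hL (c.pc - o)
    rw [show o + (c.pc - o) = c.pc by omega] at h
    have h' : P[c.pc]? = none := by rw [← h]; rfl
    simp only [stepC, run, step, h']
    exact ⟨hpc, hm⟩
  | cons J L ih =>
    intro o hL ho
    by_cases hc : c.pc = o
    · have h := hL 0
      rw [add_zero, ← hc] at h
      have h' : P[c.pc]? = some J := by rw [← h]; rfl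
      have hcond : eval I s (eqE (.var 26) (.lit o)) [] ≠ 0 := by
        rw [eval_eqE, eval_var, eval_lit, hpc, if_pos hc]; norm_num
      simp only [stepC, run, step, h', if_neg hcond]
      exact instrC_spec I inp' s c hin hpc hm J
    · have hcond : eval I s (eqE (.var 26) (.lit o)) [] = 0 := by
        rw [eval_eqE, eval_var, eval_lit, hpc, if_neg hc]
      simp only [stepC, run, if_pos hcond]
      refine ih (o + 1) (fun i => ?_) (by omega)
      have := hL (i + 1)
      rw [show o + 1 + i = o + (i + 1) by ring, ← this]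
      rfl

/-- The simulation: the number of steps is variable 2. -/
def simC (Q : Prog) : Cmd :=
  .seq (.set 27 (.add (.var 27) (.lit 1))) (.seq (.set 26 (.lit 0)) (.loop 28 2 (stepC Q 0)))

lemma okV_simC (Q : Prog) (x : ℕ) (h6 : x ≠ 26) (h7 : x ≠ 27) (h8 : x ≠ 28) (h9 : x ≠ 29) :
    okV x (simC Q) = true := by
  simp [simC, okV, okV_stepC x h6 h9, h6, h7, h8]

lemma okA_simC (Q : Prog) (b : ℕ) (h6 : b ≠ 6) (h7 : b ≠ 7) : okA b (simC Q) = true := by
  simp [simC, okA, okA_stepC b h6 h7]

lemma wf_simC (Q : Prog) : wfC (simC Q) = true := by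
  simp only [simC, wfC, wf_stepC, Bool.and_true]
  rfl

/-- The versions never exceed the current one. -/
lemma ver_instrC (I : ℕ → ℕ) (J : Instr) (s : St) (h : ∀ i, s.a 7 i ≤ s.v 27) :
    ∀ i, (run I (instrC J) s).a 7 i ≤ s.v 27 := by
  have key : ∀ ea ev, ∀ i, (run I (writeC ea ev) s).a 7 i ≤ s.v 27 := by
    intro ea ev i
    simp only [writeC, run, St.setV_v, St.setV_a, St.setA_v, St.setA_a, eval_var]
    simp only [Function.update_self, ne_eq, show (27 : ℕ) ≠ 29 by decide,
      show (7 : ℕ) ≠ 6 by decide, not_false_eq_true, Function.update_of_ne]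
    by_cases hi : i = eval I s ea []
    · subst hi
      rw [Function.update_self]
    · rw [Function.update_of_ne hi]
      exact h i
  cases J <;> first | exact key _ _ | exact h

lemma ver_stepC (I : ℕ → ℕ) (L : List Instr) : ∀ (o : ℕ) (s : St) (_ : ∀ i, s.a 7 i ≤ s.v 27),
    ∀ i, (run I (stepC L o) s).a 7 i ≤ s.v 27 := by
  induction L with
  | nil => intro o s h; exact h
  | cons J L ih =>
    intro o s h
    simp only [stepC, run]
    split_ifs
    · exact ih _ s h
    · exact ver_instrC I J s h

theorem simC_spec (I inp' : ℕ → ℕ) (s : St) (Q : Prog) (hin : ∀ i, s.a 5 i = inp' i)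
    (hver : ∀ i, s.a 7 i ≤ s.v 27) :
    simM (run I (simC Q) s) = (runFor Q inp' (s.v 2)).mem ∧
    (∀ i, (run I (simC Q) s).a 7 i ≤ (run I (simC Q) s).v 27) := by
  simp only [simC, run]
  rw [eval_add, eval_var, eval_lit, eval_lit]
  set s1 : St := (s.setV 27 (s.v 27 + 1)).setV 26 0 with hs1
  have hB : s1.v 2 = s.v 2 := by
    simp [hs1, Function.update_of_ne]
  have h27 : s1.v 27 = s.v 27 + 1 := by
    simp [hs1, Function.update_of_ne]
  rw [hB]
  have key := iter_inv (fun i s' => run I (stepC Q 0) (s'.setV 28 i)) s1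
    (fun t s' => s'.v 26 = (runFor Q inp' t).pc ∧ simM s' = (runFor Q inp' t).mem ∧
      (∀ i, s'.a 7 i ≤ s'.v 27) ∧ (∀ i, s'.a 5 i = inp' i)) ?_ (s.v 2) ?_
  · exact ⟨key.2.1, key.2.2.1⟩
  · refine ⟨by simp [hs1, runFor], ?_, ?_, ?_⟩
    · funext i
      have := hver i
      simp only [simM, h27]
      rw [if_neg]
      · rfl
      · show ¬ s.a 7 i = s.v 27 + 1
        omega
    · intro i
      rw [h27]
      show s.a 7 i ≤ _
      have := hver i
      omega
    · exact hin
  · intro i s' _ ⟨h1, h2, h3, h4⟩
    have e1 : (s'.setV 28 i).v 26 = s'.v 26 := by simp [Function.update_of_ne]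
    have e2 : (s'.setV 28 i).v 27 = s'.v 27 := by simp [Function.update_of_ne]
    have e3 : simM (s'.setV 28 i) = simM s' := by
      funext j
      simp only [simM, e2, St.setV_a]
    obtain ⟨g1, g2⟩ := stepC_spec I inp' (s'.setV 28 i) (runFor Q inp' i) h4 (e1.trans h1)
      (e3.trans h2) Q Q 0 (fun j => by rw [Nat.zero_add]) (Nat.zero_le _)
    have hr : runFor Q inp' (i + 1) = step Q inp' (runFor Q inp' i) := by
      unfold runFor
      rw [Function.iterate_succ_apply']
    rw [hr]
    refine ⟨g1, g2, ?_, ?_⟩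
    · intro j
      rw [run_v I (x := 27) _ (okV_stepC 27 (by decide) (by decide) Q 0), e2]
      have := ver_stepC I Q 0 (s'.setV 28 i) (fun i' => by rw [e2]; exact h3 i') j
      rw [e2] at this
      exact this
    · intro j
      rw [run_a I (b := 5) _ (okA_stepC 5 (by decide) (by decide) Q 0)]
      exact h4 j

/-! ### The result of a machine that halts in time -/

lemma halted_stays {P : Prog} {inp : ℕ → ℕ} {t : ℕ} (h : P.length ≤ (runFor P inp t).pc) :
    ∀ d, runFor P inp (t + d) = runFor P inp t := by
  intro d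
  induction d with
  | zero => rfl
  | succ d ih =>
    have : runFor P inp (t + (d + 1)) = step P inp (runFor P inp (t + d)) := by
      unfold runFor
      rw [← add_assoc, Function.iterate_succ_apply']
    rw [this, ih]
    unfold step
    rw [List.getElem?_eq_none h]

/-- Each step made before halting costs at least one. -/
lemma steps_le_cost {P : Prog} {inp : ℕ → ℕ} {t : ℕ}
    (h : ∀ s < t, (runFor P inp s).pc < P.length) : t ≤ costFor P inp t := by
  unfold costFor
  calc t = ∑ _s ∈ Finset.range t, 1 := by simp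
    _ ≤ _ := by
      apply Finset.sum_le_sum
      intro s hs
      have := h s (Finset.mem_range.1 hs)
      unfold stepCost
      rw [List.getElem?_eq_getElem this]
      simp

/-- On the input `inp` the program `P` halts within the cost `B`, and then register `0`
contains `1` if `Q` holds and `0` otherwise. -/
def Decides (P : Prog) (inp : ℕ → ℕ) (B : ℕ) (Q : Prop) : Prop :=
  ∃ t, P.length ≤ (runFor P inp t).pc ∧ costFor P inp t ≤ B ∧
    (Q → (runFor P inp t).mem 0 = 1) ∧ (¬ Q → (runFor P inp t).mem 0 = 0)

lemma costFor_mono {P : Prog} {inp : ℕ → ℕ} {t t' : ℕ} (h : t ≤ t') :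
    costFor P inp t ≤ costFor P inp t' := by
  unfold costFor
  exact Finset.sum_le_sum_of_subset (fun x hx => by
    rw [Finset.mem_range] at hx ⊢
    omega)

lemma Decides.at {P : Prog} {inp : ℕ → ℕ} {B : ℕ} {Q : Prop} (h : Decides P inp B Q) {B' : ℕ}
    (hB : B ≤ B') : (runFor P inp B').mem 0 ≠ 0 ↔ Q := by
  classical
  obtain ⟨t, h1, h2, h3, h4⟩ := h
  have hex : ∃ t, P.length ≤ (runFor P inp t).pc := ⟨t, h1⟩
  set t0 := Nat.find hex with ht0
  have ht0' : P.length ≤ (runFor P inp t0).pc := Nat.find_spec hex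
  have hle : t0 ≤ t := Nat.find_min' hex h1
  have hlt : ∀ s < t0, (runFor P inp s).pc < P.length := by
    intro s hs
    have := Nat.find_min hex hs
    omega
  have h5 : t0 ≤ B' := (steps_le_cost hlt).trans ((costFor_mono hle).trans (h2.trans hB))
  have e1 : runFor P inp t = runFor P inp t0 := by
    have := halted_stays ht0' (t - t0)
    rwa [show t0 + (t - t0) = t by omega] at this
  have e2 : runFor P inp B' = runFor P inp t0 := by
    have := halted_stays ht0' (B' - t0)
    rwa [show t0 + (B' - t0) = B' by omega] at this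
  rw [e2, ← e1]
  constructor
  · intro hne
    by_contra hQ
    exact hne (h4 hQ)
  · intro hQ
    rw [h3 hQ]
    norm_num

end Pool.Agent.Lib54.LP
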