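import Pool.Agent.Lib_helper54.LongPath.Exprs
import Pool.Agent.Lib_helper54.LongPath.Sim

/-!
# First stage: the table of hamiltonian paths of blocks

Variables: 16 `z`, 17 `w`, 18 `i`, 19 `j`, 20 `b`, 21 `a`, 22 auxiliary, 23 size of the block.
-/

namespace Pool.Agent.Lib54.LP

open Finset

lemma eval_ite_tr {I : ℕ → ℕ} {s : St} {c e f : Expr} {env : List ℕ} :
    eval I s (.ite c e f) env = if tr I s c env then eval I s e env else eval I s f env := by
  rw [eval_ite]
  by_cases h : eval I s c env = 0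
  · rw [if_pos h, if_neg (fun h' => h' h)]
  · rw [if_neg h, if_pos (show tr I s c env from h)]

lemma eval_boolE_tr {I : ℕ → ℕ} {s : St} {c : Expr} {env : List ℕ} :
    eval I s (boolE c) env = if tr I s c env then 1 else 0 := eval_ite_tr

/-- What is known about the state throughout. -/
structure Ctx (n B : ℕ) (d : ℕ → ℕ) (s : St) : Prop where
  v0 : s.v 0 = n
  v1 : s.v 1 = n + 1
  v2 : s.v 2 = B
  v3 : s.v 3 = n * n + 3
  dead : s.a 1 = d
  ver : ∀ i, s.a 7 i ≤ s.v 27
  ia : ∀ i, n * n + 3 ≤ i → s.a 5 i = 0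

lemma Ctx.setV {n B : ℕ} {d : ℕ → ℕ} {s : St} (h : Ctx n B d s) {x : ℕ} (hx : 3 < x)
    (h27 : x ≠ 27) (c : ℕ) : Ctx n B d (s.setV x c) := by
  obtain ⟨a0, a1, a2, a3, a4, a5, a6⟩ := h
  refine ⟨?_, ?_, ?_, ?_, a4, ?_, a6⟩
  · rw [St.setV_v, Function.update_of_ne (by omega), a0]
  · rw [St.setV_v, Function.update_of_ne (by omega), a1]
  · rw [St.setV_v, Function.update_of_ne (by omega), a2]
  · rw [St.setV_v, Function.update_of_ne (by omega), a3]
  · intro i
    rw [St.setV_v, Function.update_of_ne (fun h => h27 h.symm)]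
    exact a5 i

lemma Ctx.congr {n B : ℕ} {d : ℕ → ℕ} {s s' : St} (h : Ctx n B d s) (h0 : s'.v 0 = s.v 0)
    (h1 : s'.v 1 = s.v 1) (h2 : s'.v 2 = s.v 2) (h3 : s'.v 3 = s.v 3) (h4 : s'.a 1 = s.a 1)
    (h5 : s'.a 7 = s.a 7) (h6 : s'.v 27 = s.v 27) (h7 : s'.a 5 = s.a 5) : Ctx n B d s' := by
  obtain ⟨a0, a1, a2, a3, a4, a5, a6⟩ := h
  exact ⟨h0.trans a0, h1.trans a1, h2.trans a2, h3.trans a3, h4.trans a4,
    by rw [h5, h6]; exact a5, by rw [h7]; exact a6⟩

/-- The block is described by the arrays 2, 3, 4 and the variable 23. -/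
structure Prep (n : ℕ) (D : Finset ℕ) (s : St) : Prop where
  mk2 : ∀ v, v < n → s.a 2 v = if v ∈ D then 1 else 0
  mk3 : ∀ v, v < n → s.a 3 v = rk D v
  mk4 : ∀ r, r < n → s.a 4 r = el D n r
  card : s.v 23 = D.card

def fillD : Cmd := fill 22 0 2 (boolE (ddE 0 (.var 16) (.var 17) (.var 18) (.var 19) (.var 22)))
def fillR : Cmd := fill 22 0 3 (.sum 0 (boolE (andE (ltE (.bv 0) (.var 22)) (.arr 2 (.bv 0)))))
def fillE : Cmd := fill 22 0 4 (.sum 0 (.ite (andE (.arr 2 (.bv 0))
  (eqE (.arr 3 (.bv 0)) (.var 22))) (.bv 0) (.lit 0)))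
def prepC : Cmd := seqs [fillD, fillR, fillE, .set 23 (.sum 0 (boolE (.arr 2 (.bv 0))))]

lemma prepC_spec {I : ℕ → ℕ} {n B : ℕ} {d : ℕ → ℕ} {s : St} (h : Ctx n B d s) :
    Ctx n B d (run I prepC s) ∧
    Prep n (DD (arcI I n) (aliveS n d) n (s.v 16) (s.v 17) (s.v 18) (s.v 19))
      (run I prepC s) := by
  set D := DD (arcI I n) (aliveS n d) n (s.v 16) (s.v 17) (s.v 18) (s.v 19) with hD
  have hDn : ∀ v ∈ D, v < n := fun v hv => (mem_aliveS.1 (mem_GG.1 (DD_sub hv)).1).1
  refine ⟨h.congr (run_v I _ (by decide) s) (run_v I _ (by decide) s)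
    (run_v I _ (by decide) s) (run_v I _ (by decide) s) (run_a I _ (by decide) s)
    (run_a I _ (by decide) s) (run_v I _ (by decide) s) (run_a I _ (by decide) s), ?_⟩
  simp only [prepC, seqs, run]
  -- first fill
  obtain ⟨f1, f2, f3⟩ := run_fill I (x := 22) (r := 0) (b := 2)
    (e := boolE (ddE 0 (.var 16) (.var 17) (.var 18) (.var 19) (.var 22))) (by decide) s
  set s1 := run I fillD s with hs1
  have e1 : ∀ v, v < n → s1.a 2 v = if v ∈ D then 1 else 0 := by
    intro v hv
    have := f3 v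
    rw [← fillD, ← hs1, h.v0, if_pos hv, eval_boolE_tr] at this
    rw [this]
    apply if_congr _ rfl rfl
    rw [tr_ddE (n := n) (l := 0) (env := []) (s := s.setV 22 v) (by simpa using h.v0)
      (stab_var 16) (stab_var 22) (stab_var 17) rfl (by simpa using hv)]
    simp only [eval_var, St.setV_a, St.setV_v, h.dead, Function.update_self]
    rw [Function.update_of_ne (by decide), Function.update_of_ne (by decide),
      Function.update_of_ne (by decide), Function.update_of_ne (by decide)]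
  rw [← fillD, ← hs1] at f1 f2
  -- second fill
  obtain ⟨g1, g2, g3⟩ := run_fill I (x := 22) (r := 0) (b := 3)
    (e := .sum 0 (boolE (andE (ltE (.bv 0) (.var 22)) (.arr 2 (.bv 0))))) (by decide) s1
  rw [← fillR] at g1 g2 g3
  set s2 := run I fillR s1 with hs2
  have v1 : s1.v 0 = n := by rw [f1 0 (by decide), h.v0]
  have v2 : s2.v 0 = n := by rw [g1 0 (by decide), v1]
  have e2 : ∀ v, v < n → s2.a 2 v = if v ∈ D then 1 else 0 := by
    intro v hv
    rw [g2 2 (by decide), e1 v hv]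
  have e3 : ∀ v, v < n → s2.a 3 v = rk D v := by
    intro v hv
    have := g3 v
    rw [v1, if_pos hv, eval_card] at this
    rw [this, rk]
    congr 1
    ext u
    rw [mem_filter, mem_filter, mem_range, tr_andE, tr_ltE]
    have h22 : (s1.setV 22 v).v 0 = n := by
      rw [St.setV_v, Function.update_of_ne (by decide), v1]
    rw [h22]
    have e4 : eval I (s1.setV 22 v) (.bv 0) ([] ++ [u]) = u := rfl
    have e5 : eval I (s1.setV 22 v) (.var 22) ([] ++ [u]) = v := by simp
    rw [e4, e5, tr_def, eval_arr, e4, St.setV_a]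
    constructor
    · rintro ⟨h1, h2, h3⟩
      rw [e1 u h1] at h3
      refine ⟨?_, h2⟩
      by_contra hcon
      rw [if_neg hcon] at h3
      exact h3 rfl
    · rintro ⟨h1, h2⟩
      refine ⟨hDn u h1, h2, ?_⟩
      rw [e1 u (hDn u h1), if_pos h1]
      norm_num
  -- third fill
  obtain ⟨k1, k2, k3⟩ := run_fill I (x := 22) (r := 0) (b := 4)
    (e := .sum 0 (.ite (andE (.arr 2 (.bv 0))
      (eqE (.arr 3 (.bv 0)) (.var 22))) (.bv 0) (.lit 0))) (by decide) s2
  rw [← fillE] at k1 k2 k3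
  set s3 := run I fillE s2 with hs3
  have v3 : s3.v 0 = n := by rw [k1 0 (by decide), v2]
  have e4 : ∀ r, r < n → s3.a 4 r = el D n r := by
    intro r hr
    have := k3 r
    rw [v2, if_pos hr, eval_sum] at this
    rw [this, el]
    have h22 : (s2.setV 22 r).v 0 = n := by
      rw [St.setV_v, Function.update_of_ne (by decide), v2]
    rw [h22]
    apply Finset.sum_congr rfl
    intro u hu
    rw [mem_range] at hu
    have e4 : eval I (s2.setV 22 r) (.bv 0) ([] ++ [u]) = u := rfl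
    have e5 : eval I (s2.setV 22 r) (.var 22) ([] ++ [u]) = r := by simp
    rw [eval_ite_tr, e4, eval_lit]
    apply if_congr _ rfl rfl
    rw [tr_andE, tr_eqE, tr_def, eval_arr, eval_arr, e4, e5, St.setV_a, e2 u hu, e3 u hu]
    by_cases hD' : u ∈ D
    · simp [hD']
    · simp [hD']
  have e5 : ∀ v, v < n → s3.a 2 v = if v ∈ D then 1 else 0 := by
    intro v hv
    rw [k2 2 (by decide), e2 v hv]
  refine ⟨?_, ?_, ?_, ?_⟩
  · intro v hv
    exact e5 v hv
  · intro v hv
    show s3.a 3 v = _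
    rw [k2 3 (by decide), e3 v hv]
  · exact e4
  · rw [eval_card, St.setV_v, Function.update_self, v3]
    congr 1
    ext u
    rw [mem_filter, mem_range, tr_def, eval_arr]
    have e4 : eval I s3 (.bv 0) ([] ++ [u]) = u := rfl
    rw [e4]
    constructor
    · rintro ⟨h1, h2⟩
      rw [e5 u h1] at h2
      by_contra hcon
      rw [if_neg hcon] at h2
      exact h2 rfl
    · intro h1
      refine ⟨hDn u h1, ?_⟩
      rw [e5 u (hDn u h1), if_pos h1]
      norm_num

/-- The input of the simulated machine. -/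
def instE : Expr := .ite (eqE (.var 22) (.lit 0)) (.var 23) (.ite (eqE (.var 22) (.lit 1))
  (.arr 3 (.var 20)) (.ite (eqE (.var 22) (.lit 2)) (.arr 3 (.var 21))
  (.sum 0 (.sum 0 (boolE (andE (andE (ltE (.bv 0) (.var 23)) (ltE (.bv 1) (.var 23)))
    (andE (eqE (.var 22) (.add (.lit 3) (.add
      (.sum 0 (.ite (ltE (.bv 2) (.bv 0)) (.var 23) (.lit 0))) (.bv 1))))
      (arcE (.arr 4 (.bv 0)) (.arr 4 (.bv 1))))))))))

def fillI : Cmd := fill 22 3 5 instE

lemma fillI_spec {I : ℕ → ℕ} {n B : ℕ} {d : ℕ → ℕ} {s : St} (h : Ctx n B d s)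
    {D : Finset ℕ} (hD : ∀ v ∈ D, v < n) (hP : Prep n D s) {b a : ℕ} (hb : b ∈ D) (ha : a ∈ D)
    (h20 : s.v 20 = b) (h21 : s.v 21 = a) (i : ℕ) :
    (run I fillI s).a 5 i =
      input (subT (arcI I n) D n) ⟨rk D b, rk_lt hb⟩ ⟨rk D a, rk_lt ha⟩ i := by
  have hk : D.card ≤ n := card_le_of hD
  obtain ⟨f1, f2, f3⟩ := run_fill I (x := 22) (r := 3) (b := 5) (e := instE) (by decide) s
  rw [← fillI] at f3
  rw [f3 i, h.v3, input_subT hD]
  by_cases hi : i < n * n + 3
  · rw [if_pos hi, if_pos hi]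
    have w22 : (s.setV 22 i).v 22 = i := by simp
    have w23 : (s.setV 22 i).v 23 = D.card := by
      rw [St.setV_v, Function.update_of_ne (by decide), hP.card]
    have w20 : (s.setV 22 i).v 20 = b := by
      rw [St.setV_v, Function.update_of_ne (by decide), h20]
    have w21 : (s.setV 22 i).v 21 = a := by
      rw [St.setV_v, Function.update_of_ne (by decide), h21]
    have w0 : (s.setV 22 i).v 0 = n := by
      rw [St.setV_v, Function.update_of_ne (by decide), h.v0]
    simp only [instE, eval_ite_tr, tr_eqE, eval_var, eval_lit, eval_arr, w22, w23, w20, w21]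
    apply if_congr Iff.rfl rfl
    apply if_congr Iff.rfl (by rw [St.setV_a]; exact hP.mk3 b (hD b hb))
    apply if_congr Iff.rfl (by rw [St.setV_a]; exact hP.mk3 a (hD a ha))
    rw [eval_sum, w0]
    apply Finset.sum_congr rfl
    intro r hr
    rw [eval_sum, w0]
    apply Finset.sum_congr rfl
    intro c hc
    rw [mem_range] at hr hc
    have e0 : eval I (s.setV 22 i) (.bv 0) ([] ++ [r] ++ [c]) = r := rfl
    have e1 : eval I (s.setV 22 i) (.bv 1) ([] ++ [r] ++ [c]) = c := rfl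
    have e3 : eval I (s.setV 22 i) (.sum 0 (.ite (ltE (.bv 2) (.bv 0)) (.var 23) (.lit 0)))
        ([] ++ [r] ++ [c]) = r * D.card := by
      rw [eval_sum, w0]
      have : ∀ u ∈ range n, eval I (s.setV 22 i) (.ite (ltE (.bv 2) (.bv 0)) (.var 23) (.lit 0))
          ([] ++ [r] ++ [c] ++ [u]) = if u < r then D.card else 0 := by
        intro u _
        rw [eval_ite_tr, eval_var, eval_lit, w23]
        apply if_congr _ rfl rfl
        rw [tr_ltE]
        rfl
      rw [Finset.sum_congr rfl this, ← Finset.sum_filter, Finset.sum_const, smul_eq_mul]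
      congr 1
      have : (range n).filter (fun u => u < r) = range r := by
        ext u
        rw [mem_filter, mem_range, mem_range]
        omega
      rw [this, card_range]
    rw [eval_boolE_tr]
    apply if_congr _ rfl rfl
    rw [tr_andE, tr_andE, tr_andE, tr_ltE, tr_ltE, tr_eqE,
      tr_arcE w0 ((stab_bv (show 0 < 2 by decide)).arr 4) (by simp), eval_add, eval_add,
      eval_var, eval_var, eval_lit, eval_arr, eval_arr, e0, e1, e3, w22, w23, St.setV_a]
    constructor
    · rintro ⟨⟨h1, h2⟩, h3, h4⟩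
      rw [hP.mk4 r hr, hP.mk4 c hc] at h4
      exact ⟨⟨h1, h2⟩, h3, h4⟩
    · rintro ⟨⟨h1, h2⟩, h3, h4⟩
      rw [hP.mk4 r hr, hP.mk4 c hc]
      exact ⟨⟨h1, h2⟩, h3, h4⟩
  · rw [if_neg hi, if_neg hi]
    exact h.ia i (by omega)

def ix6E : Expr := pairE (pairE (pairE (pairE (pairE (.var 16) (.var 17)) (.var 18)) (.var 19))
  (.var 20)) (.var 21)

def ix6 (n z w i j b a : ℕ) : ℕ :=
  (n + 1) * ((n + 1) * ((n + 1) * ((n + 1) * ((n + 1) * z + w) + i) + j) + b) + a

lemma ix6_inj {n z w i j b a z' w' i' j' b' a' : ℕ} (hw : w < n + 1) (hi : i < n + 1)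
    (hj : j < n + 1) (hb : b < n + 1) (ha : a < n + 1) (hw' : w' < n + 1) (hi' : i' < n + 1)
    (hj' : j' < n + 1) (hb' : b' < n + 1) (ha' : a' < n + 1)
    (h : ix6 n z w i j b a = ix6 n z' w' i' j' b' a') :
    z = z' ∧ w = w' ∧ i = i' ∧ j = j' ∧ b = b' ∧ a = a' := by
  obtain ⟨h, h1⟩ := pair_inj ha ha' h
  obtain ⟨h, h2⟩ := pair_inj hb hb' h
  obtain ⟨h, h3⟩ := pair_inj hj hj' h
  obtain ⟨h, h4⟩ := pair_inj hi hi' h
  obtain ⟨h, h5⟩ := pair_inj hw hw' h
  exact ⟨h, h5, h4, h3, h2, h1⟩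

def putH : Cmd := .put 8 ix6E (andE (andE (.arr 2 (.var 20)) (.arr 2 (.var 21)))
  (andE (notE (eqE (.var 20) (.var 21))) (regE (.lit 0))))

/-- The entries of the table. -/
def Hent (I : ℕ → ℕ) (n : ℕ) (d : ℕ → ℕ) (k : ℕ) : Prop :=
  ∃ z w i j b a, w < n + 1 ∧ i < n + 1 ∧ j < n + 1 ∧ b < n + 1 ∧ a < n + 1 ∧
    k = ix6 n z w i j b a ∧ b ≠ a ∧ HasPath (arcI I n)
      (DD (arcI I n) (aliveS n d) n z w i j) b a (DD (arcI I n) (aliveS n d) n z w i j).card

lemma Hent_ix6 {I : ℕ → ℕ} {n : ℕ} {d : ℕ → ℕ} {z w i j b a : ℕ} (hw : w < n + 1)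
    (hi : i < n + 1) (hj : j < n + 1) (hb : b < n + 1) (ha : a < n + 1) :
    Hent I n d (ix6 n z w i j b a) ↔ b ≠ a ∧ HasPath (arcI I n)
      (DD (arcI I n) (aliveS n d) n z w i j) b a
      (DD (arcI I n) (aliveS n d) n z w i j).card := by
  constructor
  · rintro ⟨z', w', i', j', b', a', hw', hi', hj', hb', ha', h, h1, h2⟩
    obtain ⟨rfl, rfl, rfl, rfl, rfl, rfl⟩ := ix6_inj hw hi hj hb ha hw' hi' hj' hb' ha' h
    exact ⟨h1, h2⟩
  · rintro ⟨h1, h2⟩
    exact ⟨z, w, i, j, b, a, hw, hi, hj, hb, ha, rfl, h1, h2⟩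

def GH (I : ℕ → ℕ) (n : ℕ) (d : ℕ → ℕ) (k : ℕ) (s : St) : Prop := s.a 8 k ≠ 0 ↔ Hent I n d k

def body1 (Q : Prog) : Cmd := seqs [fillI, simC Q, putH]

def stage1 (Q : Prog) : Cmd :=
  .loop 16 1 (.loop 17 1 (.loop 18 1 (.loop 19 1 (.seq prepC
    (.loop 20 0 (.loop 21 0 (body1 Q)))))))

/-- The simulated program works. -/
def Works (Q : Prog) (I : ℕ → ℕ) (n B : ℕ) : Prop :=
  ∀ D : Finset ℕ, (∀ v ∈ D, v < n) → ∀ b a (hb : b ∈ D) (ha : a ∈ D), b ≠ a →
    ((runFor Q (input (subT (arcI I n) D n) ⟨rk D b, rk_lt hb⟩ ⟨rk D a, rk_lt ha⟩) B).mem 0 ≠ 0 ↔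
      HasPath (arcI I n) D b a D.card)

lemma okV_body1 (Q : Prog) (x : ℕ) (h2 : x ≠ 22) (h6 : x ≠ 26) (h7 : x ≠ 27) (h8 : x ≠ 28)
    (h9 : x ≠ 29) : okV x (body1 Q) = true := by
  simp [body1, seqs, okV, okV_simC Q x h6 h7 h8 h9, fillI, fill, putH, h2]

lemma okA_body1 (Q : Prog) (b : ℕ) (h5 : b ≠ 5) (h6 : b ≠ 6) (h7 : b ≠ 7) (h8 : b ≠ 8) :
    okA b (body1 Q) = true := by
  simp [body1, seqs, okA, okA_simC Q b h6 h7, fillI, fill, putH, h5, h8]

section
variable {I : ℕ → ℕ} {n B : ℕ} {d : ℕ → ℕ} {Q : Prog}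

/-- The state inside the two inner loops. -/
structure Inner (I : ℕ → ℕ) (n B : ℕ) (d : ℕ → ℕ) (z w i j : ℕ) (s : St) : Prop where
  ctx : Ctx n B d s
  hz : s.v 16 = z
  hw : s.v 17 = w
  hi : s.v 18 = i
  hj : s.v 19 = j
  prep : Prep n (DD (arcI I n) (aliveS n d) n z w i j) s

lemma Inner.setV {z w i j : ℕ} {s : St} (h : Inner I n B d z w i j s) {x : ℕ}
    (hx : x = 20 ∨ x = 21) (c : ℕ) : Inner I n B d z w i j (s.setV x c) := by
  obtain ⟨h1, h2, h3, h4, h5, h6⟩ := h
  refine ⟨h1.setV (by omega) (by omega) c, ?_, ?_, ?_, ?_, ⟨h6.mk2, h6.mk3, h6.mk4, ?_⟩⟩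
  · rw [St.setV_v, Function.update_of_ne (by omega), h2]
  · rw [St.setV_v, Function.update_of_ne (by omega), h3]
  · rw [St.setV_v, Function.update_of_ne (by omega), h4]
  · rw [St.setV_v, Function.update_of_ne (by omega), h5]
  · rw [St.setV_v, Function.update_of_ne (by omega), h6.card]

lemma body1_spec (hQ : Works Q I n B) {z w i j b a : ℕ} (hw : w < n + 1) (hi : i < n + 1)
    (hj : j < n + 1) (hb : b < n) (ha : a < n) {s : St} (hs : Inner I n B d z w i j s)
    (h20 : s.v 20 = b) (h21 : s.v 21 = a) :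
    Inner I n B d z w i j (run I (body1 Q) s) ∧ (run I (body1 Q) s).v 20 = b ∧
    (∀ k, GH I n d k s → GH I n d k (run I (body1 Q) s)) ∧
    GH I n d (ix6 n z w i j b a) (run I (body1 Q) s) := by
  set D := DD (arcI I n) (aliveS n d) n z w i j with hD
  have hDn : ∀ v ∈ D, v < n := fun v hv => (mem_aliveS.1 (mem_GG.1 (DD_sub hv)).1).1
  -- after `fillI`
  obtain ⟨f1, f2, f3⟩ := run_fill I (x := 22) (r := 3) (b := 5) (e := instE) (by decide) s
  have f4 := fun hb ha => fillI_spec (I := I) hs.ctx hDn hs.prep (b := b) (a := a) hb ha h20 h21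
  rw [← fillI] at f1 f2 f3
  -- after the simulation
  have hver : ∀ i, (run I fillI s).a 7 i ≤ (run I fillI s).v 27 := by
    intro i
    rw [f2 7 (by decide), f1 27 (by decide)]
    exact hs.ctx.ver i
  have g := simC_spec I ((run I fillI s).a 5) (run I fillI s) Q (fun _ => rfl) hver
  set s1 := run I fillI s with hs1
  set s2 := run I (simC Q) s1 with hs2
  have hrun : run I (body1 Q) s = run I putH s2 := rfl
  have kv : ∀ x, x ≠ 22 → x ≠ 26 → x ≠ 27 → x ≠ 28 → x ≠ 29 → s2.v x = s.v x := by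
    intro x h2 h6 h7 h8 h9
    rw [hs2, run_v I _ (okV_simC Q x h6 h7 h8 h9), f1 x h2]
  have ka : ∀ b', b' ≠ 5 → b' ≠ 6 → b' ≠ 7 → s2.a b' = s.a b' := by
    intro b' h5 h6 h7
    rw [hs2, run_a I _ (okA_simC Q b' h6 h7), f2 b' h5]
  have key : eval I s2 (andE (andE (.arr 2 (.var 20)) (.arr 2 (.var 21)))
      (andE (notE (eqE (.var 20) (.var 21))) (regE (.lit 0)))) [] ≠ 0 ↔
      b ≠ a ∧ HasPath (arcI I n) D b a D.card := by
    rw [← tr_def, tr_andE, tr_andE, tr_andE, tr_notE, tr_eqE, tr_def, tr_def, tr_def, eval_arr,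
      eval_arr, eval_var, eval_var, eval_regE, eval_lit, kv 20 (by decide) (by decide)
      (by decide) (by decide) (by decide), kv 21 (by decide) (by decide) (by decide)
      (by decide) (by decide), h20, h21, ka 2 (by decide) (by decide) (by decide),
      hs.prep.mk2 b hb, hs.prep.mk2 a ha, g.1]
    constructor
    · rintro ⟨⟨h1, h2⟩, h3, h4⟩
      have hbD : b ∈ D := by
        by_contra hcon
        rw [if_neg hcon] at h1
        exact h1 rfl
      have haD : a ∈ D := by
        by_contra hcon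
        rw [if_neg hcon] at h2
        exact h2 rfl
      have e5 : s1.a 5 = input (subT (arcI I n) D n) ⟨rk D b, rk_lt hbD⟩ ⟨rk D a, rk_lt haD⟩ :=
        funext (f4 hbD haD)
      have e2 : s1.v 2 = B := by rw [f1 2 (by decide)]; exact hs.ctx.v2
      rw [e5, e2] at h4
      exact ⟨h3, (hQ D hDn b a hbD haD h3).1 h4⟩
    · rintro ⟨h3, h4⟩
      obtain ⟨q, hq⟩ := h4
      have hbD : b ∈ D := by rw [← hq.first]; exact hq.mem 0 hq.pos
      have haD : a ∈ D := by
        rw [← hq.last]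
        have := hq.pos
        exact hq.mem _ (by omega)
      have e5 : s1.a 5 = input (subT (arcI I n) D n) ⟨rk D b, rk_lt hbD⟩ ⟨rk D a, rk_lt haD⟩ :=
        funext (f4 hbD haD)
      have e2 : s1.v 2 = B := by rw [f1 2 (by decide)]; exact hs.ctx.v2
      rw [e5, e2, if_pos hbD, if_pos haD]
      exact ⟨⟨by norm_num, by norm_num⟩, h3, (hQ D hDn b a hbD haD h3).2 ⟨q, hq⟩⟩
  have hidx : eval I s2 ix6E [] = ix6 n z w i j b a := by
    have e1 : s2.v 1 = n + 1 := by
      rw [kv 1 (by decide) (by decide) (by decide) (by decide) (by decide)]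
      exact hs.ctx.v1
    have st : ∀ x, Stab 0 (.var x) := fun x => stab_var x
    have s1' : Stab 0 (pairE (.var 16) (.var 17)) := (st 16).pair (st 17)
    have s2' : Stab 0 (pairE (pairE (.var 16) (.var 17)) (.var 18)) := s1'.pair (st 18)
    have s3' : Stab 0 (pairE (pairE (pairE (.var 16) (.var 17)) (.var 18)) (.var 19)) :=
      s2'.pair (st 19)
    have s4' : Stab 0 (pairE (pairE (pairE (pairE (.var 16) (.var 17)) (.var 18)) (.var 19))
      (.var 20)) := s3'.pair (st 20)
    rw [ix6E, eval_pairE e1 s4' (Nat.zero_le _), eval_pairE e1 s3' (Nat.zero_le _),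
      eval_pairE e1 s2' (Nat.zero_le _), eval_pairE e1 s1' (Nat.zero_le _),
      eval_pairE e1 (st 16) (Nat.zero_le _)]
    simp only [eval_var]
    rw [kv 16 (by decide) (by decide) (by decide) (by decide) (by decide),
      kv 17 (by decide) (by decide) (by decide) (by decide) (by decide),
      kv 18 (by decide) (by decide) (by decide) (by decide) (by decide),
      kv 19 (by decide) (by decide) (by decide) (by decide) (by decide),
      kv 20 (by decide) (by decide) (by decide) (by decide) (by decide),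
      kv 21 (by decide) (by decide) (by decide) (by decide) (by decide),
      hs.hz, hs.hw, hs.hi, hs.hj, h20, h21]
    rfl
  rw [hrun]
  have hv3 : ∀ x, (run I putH s2).v x = s2.v x := fun x => rfl
  have ha3 : ∀ b', b' ≠ 8 → (run I putH s2).a b' = s2.a b' := by
    intro b' h
    simp only [putH, run, St.setA_a]
    rw [Function.update_of_ne h]
  have ha8 : (run I putH s2).a 8 = Function.update (s.a 8) (ix6 n z w i j b a)
      (eval I s2 (andE (andE (.arr 2 (.var 20)) (.arr 2 (.var 21)))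
        (andE (notE (eqE (.var 20) (.var 21))) (regE (.lit 0)))) []) := by
    simp only [putH, run, St.setA_a, hidx]
    rw [Function.update_self, ka 8 (by decide) (by decide) (by decide)]
  refine ⟨?_, ?_, ?_, ?_⟩
  · refine ⟨⟨?_, ?_, ?_, ?_, ?_, ?_, ?_⟩, ?_, ?_, ?_, ?_, ⟨?_, ?_, ?_, ?_⟩⟩
    · rw [hv3, kv 0 (by decide) (by decide) (by decide) (by decide) (by decide)]
      exact hs.ctx.v0
    · rw [hv3, kv 1 (by decide) (by decide) (by decide) (by decide) (by decide)]
      exact hs.ctx.v1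
    · rw [hv3, kv 2 (by decide) (by decide) (by decide) (by decide) (by decide)]
      exact hs.ctx.v2
    · rw [hv3, kv 3 (by decide) (by decide) (by decide) (by decide) (by decide)]
      exact hs.ctx.v3
    · rw [ha3 1 (by decide), ka 1 (by decide) (by decide) (by decide)]
      exact hs.ctx.dead
    · intro i'
      rw [ha3 7 (by decide), hv3]
      exact g.2 i'
    · intro i' hi'
      rw [ha3 5 (by decide), hs2, run_a I _ (okA_simC Q 5 (by decide) (by decide)), f3 i',
        if_neg (by rw [hs.ctx.v3]; omega)]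
      exact hs.ctx.ia i' hi'
    · rw [hv3, kv 16 (by decide) (by decide) (by decide) (by decide) (by decide)]
      exact hs.hz
    · rw [hv3, kv 17 (by decide) (by decide) (by decide) (by decide) (by decide)]
      exact hs.hw
    · rw [hv3, kv 18 (by decide) (by decide) (by decide) (by decide) (by decide)]
      exact hs.hi
    · rw [hv3, kv 19 (by decide) (by decide) (by decide) (by decide) (by decide)]
      exact hs.hj
    · intro v hv
      rw [ha3 2 (by decide), ka 2 (by decide) (by decide) (by decide)]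
      exact hs.prep.mk2 v hv
    · intro v hv
      rw [ha3 3 (by decide), ka 3 (by decide) (by decide) (by decide)]
      exact hs.prep.mk3 v hv
    · intro v hv
      rw [ha3 4 (by decide), ka 4 (by decide) (by decide) (by decide)]
      exact hs.prep.mk4 v hv
    · rw [hv3, kv 23 (by decide) (by decide) (by decide) (by decide) (by decide)]
      exact hs.prep.card
  · rw [hv3, kv 20 (by decide) (by decide) (by decide) (by decide) (by decide)]
    exact h20
  · intro k hk
    unfold GH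
    rw [ha8]
    by_cases hk' : k = ix6 n z w i j b a
    · subst hk'
      rw [Function.update_self, key, Hent_ix6 hw hi hj (by omega) (by omega)]
    · rw [Function.update_of_ne hk']
      exact hk
  · unfold GH
    rw [ha8, Function.update_self, key, Hent_ix6 hw hi hj (by omega) (by omega)]

end

end Pool.Agent.Lib54.LP
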