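import Pool.Agent.Lib_helper54.LongPath.Stage1

/-!
# First stage: the nested loops
-/

namespace Pool.Agent.Lib54.LP

open Finset

variable {I : ℕ → ℕ} {n B : ℕ} {d : ℕ → ℕ} {Q : Prog}

lemma GH_setV (k : ℕ) (s : St) (x c : ℕ) (h : GH I n d k s) : GH I n d k (s.setV x c) := h

lemma loop_a (hQ : Works Q I n B) {z w i j b : ℕ} (hw : w < n + 1) (hi : i < n + 1)
    (hj : j < n + 1) (hb : b < n) :
    Does I (fun s => Inner I n B d z w i j s ∧ s.v 20 = b)
      (fun s => Inner I n B d z w i j s ∧ s.v 20 = b) (GH I n d)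
      (fun k => ∃ a < n, k = ix6 n z w i j b a) (.loop 21 0 (body1 Q)) := by
  apply Does.loop n
  · intro s hs
    exact hs.1.ctx.v0
  · intro s c hs
    refine ⟨hs.1.setV (Or.inr rfl) c, ?_⟩
    rw [St.setV_v, Function.update_of_ne (by decide)]
    exact hs.2
  · intro k s c h
    exact h
  · intro a ha s ⟨⟨h1, h2⟩, h3, _⟩
    obtain ⟨g1, g2, g3, g4⟩ := body1_spec hQ hw hi hj hb ha h1 h2 h3
    refine ⟨⟨g1, g2⟩, g3, ?_⟩
    rintro k rfl
    exact g4

lemma loop_b (hQ : Works Q I n B) {z w i j : ℕ} (hw : w < n + 1) (hi : i < n + 1)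
    (hj : j < n + 1) :
    Does I (Inner I n B d z w i j) (Inner I n B d z w i j) (GH I n d)
      (fun k => ∃ b < n, ∃ a < n, k = ix6 n z w i j b a) (.loop 20 0 (.loop 21 0 (body1 Q))) := by
  apply Does.loop n
  · intro s hs
    exact hs.ctx.v0
  · intro s c hs
    exact hs.setV (Or.inl rfl) c
  · intro k s c h
    exact h
  · intro b hb s ⟨h1, h2, _⟩
    obtain ⟨g1, g2, g3⟩ := loop_a (d := d) hQ (z := z) hw hi hj hb s ⟨h1, h2⟩
    exact ⟨g1.1, g2, g3⟩

lemma body_j (hQ : Works Q I n B) {z w i j : ℕ} (hw : w < n + 1) (hi : i < n + 1)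
    (hj : j < n + 1) :
    Does I (fun s => Ctx n B d s ∧ s.v 16 = z ∧ s.v 17 = w ∧ s.v 18 = i ∧ s.v 19 = j)
      (fun s => Ctx n B d s ∧ s.v 16 = z ∧ s.v 17 = w ∧ s.v 18 = i) (GH I n d)
      (fun k => ∃ b < n, ∃ a < n, k = ix6 n z w i j b a)
      (.seq prepC (.loop 20 0 (.loop 21 0 (body1 Q)))) := by
  intro s ⟨h1, h2, h3, h4, h5⟩
  obtain ⟨g1, g2⟩ := prepC_spec (I := I) h1
  rw [h2, h3, h4, h5] at g2
  have hInner : Inner I n B d z w i j (run I prepC s) :=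
    ⟨g1, by rw [run_v I _ (by decide) s, h2], by rw [run_v I _ (by decide) s, h3],
      by rw [run_v I _ (by decide) s, h4], by rw [run_v I _ (by decide) s, h5], g2⟩
  obtain ⟨k1, k2, k3⟩ := loop_b hQ hw hi hj _ hInner
  refine ⟨⟨k1.ctx, k1.hz, k1.hw, k1.hi⟩, fun k hk => k2 k ?_, k3⟩
  unfold GH
  rw [run_a I (b := 8) _ (by decide) s]
  exact hk

lemma loop_j (hQ : Works Q I n B) {z w i : ℕ} (hw : w < n + 1) (hi : i < n + 1) :
    Does I (fun s => Ctx n B d s ∧ s.v 16 = z ∧ s.v 17 = w ∧ s.v 18 = i)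
      (fun s => Ctx n B d s ∧ s.v 16 = z ∧ s.v 17 = w ∧ s.v 18 = i) (GH I n d)
      (fun k => ∃ j < n + 1, ∃ b < n, ∃ a < n, k = ix6 n z w i j b a)
      (.loop 19 1 (.seq prepC (.loop 20 0 (.loop 21 0 (body1 Q))))) := by
  apply Does.loop (n + 1)
  · intro s hs
    exact hs.1.v1
  · intro s c hs
    refine ⟨hs.1.setV (by decide) (by decide) c, ?_, ?_, ?_⟩ <;>
      rw [St.setV_v, Function.update_of_ne (by decide)]
    · exact hs.2.1
    · exact hs.2.2.1
    · exact hs.2.2.2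
  · intro k s c h
    exact h
  · intro j hj s ⟨⟨h1, h2, h3, h4⟩, h5, _⟩
    exact body_j hQ hw hi hj s ⟨h1, h2, h3, h4, h5⟩

lemma loop_i (hQ : Works Q I n B) {z w : ℕ} (hw : w < n + 1) :
    Does I (fun s => Ctx n B d s ∧ s.v 16 = z ∧ s.v 17 = w)
      (fun s => Ctx n B d s ∧ s.v 16 = z ∧ s.v 17 = w) (GH I n d)
      (fun k => ∃ i < n + 1, ∃ j < n + 1, ∃ b < n, ∃ a < n, k = ix6 n z w i j b a)
      (.loop 18 1 (.loop 19 1 (.seq prepC (.loop 20 0 (.loop 21 0 (body1 Q)))))) := by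
  apply Does.loop (n + 1)
  · intro s hs
    exact hs.1.v1
  · intro s c hs
    refine ⟨hs.1.setV (by decide) (by decide) c, ?_, ?_⟩ <;>
      rw [St.setV_v, Function.update_of_ne (by decide)]
    · exact hs.2.1
    · exact hs.2.2
  · intro k s c h
    exact h
  · intro i hi s ⟨⟨h1, h2, h3⟩, h5, _⟩
    obtain ⟨g1, g2, g3⟩ := loop_j (d := d) (z := z) hQ hw hi s ⟨h1, h2, h3, h5⟩
    exact ⟨⟨g1.1, g1.2.1, g1.2.2.1⟩, g2, g3⟩

lemma loop_w (hQ : Works Q I n B) {z : ℕ} :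
    Does I (fun s => Ctx n B d s ∧ s.v 16 = z)
      (fun s => Ctx n B d s ∧ s.v 16 = z) (GH I n d)
      (fun k => ∃ w < n + 1, ∃ i < n + 1, ∃ j < n + 1, ∃ b < n, ∃ a < n, k = ix6 n z w i j b a)
      (.loop 17 1 (.loop 18 1 (.loop 19 1 (.seq prepC (.loop 20 0
        (.loop 21 0 (body1 Q))))))) := by
  apply Does.loop (n + 1)
  · intro s hs
    exact hs.1.v1
  · intro s c hs
    refine ⟨hs.1.setV (by decide) (by decide) c, ?_⟩
    rw [St.setV_v, Function.update_of_ne (by decide)]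
    exact hs.2
  · intro k s c h
    exact h
  · intro w hw s ⟨⟨h1, h2⟩, h5, _⟩
    obtain ⟨g1, g2, g3⟩ := loop_i (d := d) (z := z) hQ hw s ⟨h1, h2, h5⟩
    exact ⟨⟨g1.1, g1.2.1⟩, g2, g3⟩

theorem stage1_does (hQ : Works Q I n B) :
    Does I (Ctx n B d) (Ctx n B d) (GH I n d)
      (fun k => ∃ z < n + 1, ∃ w < n + 1, ∃ i < n + 1, ∃ j < n + 1, ∃ b < n, ∃ a < n,
        k = ix6 n z w i j b a) (stage1 Q) := by
  apply Does.loop (n + 1)
  · intro s hs
    exact hs.v1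
  · intro s c hs
    exact hs.setV (by decide) (by decide) c
  · intro k s c h
    exact h
  · intro z hz s ⟨h1, h5, _⟩
    obtain ⟨g1, g2, g3⟩ := loop_w (d := d) hQ s ⟨h1, h5⟩
    exact ⟨g1.1, g2, g3⟩

lemma okV_stage1 (Q : Prog) (x : ℕ) (h : x < 16 ∨ 30 ≤ x) : okV x (stage1 Q) = true := by
  have h1 := okV_body1 Q x (by omega) (by omega) (by omega) (by omega) (by omega)
  have e : ∀ y, 16 ≤ y → y < 30 → (decide (x ≠ y)) = true := by
    intro y h1 h2
    rw [decide_eq_true_eq]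
    omega
  simp [stage1, okV, h1, prepC, seqs, fillD, fillR, fillE, fill]
  omega

lemma okA_stage1 (Q : Prog) (b : ℕ) (h : b < 2 ∨ 9 ≤ b) : okA b (stage1 Q) = true := by
  have h1 := okA_body1 Q b (by omega) (by omega) (by omega) (by omega)
  simp [stage1, okA, h1, prepC, seqs, fillD, fillR, fillE, fill]
  omega

lemma wf_stage1 (Q : Prog) : wfC (stage1 Q) = true := by
  have h1 := wf_simC Q
  have h2 : wfC prepC = true := by decide
  have h3 : wfC fillI = true := by decide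
  have h4 : wfC putH = true := by decide
  simp only [stage1, body1, seqs, wfC, h1, h2, h3, h4]
  decide

end Pool.Agent.Lib54.LP
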