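import Pool.Agent.Lib_helper54.LongPath.Stage1b

/-!
# Second stage: the table of the decompositions

Variables: 30 `m`, 31 `p`, 16 `z`, 20 `b`. Array 9: the table.
-/

namespace Pool.Agent.Lib54.LP

open Finset

lemma Dec_iff {A : ℕ → ℕ → Prop} [DecidableRel A] {S : Finset ℕ} {N y m p z b : ℕ} :
    Dec A S N y m p z b ↔
      (m = 1 ∧ b = y ∧ b ∈ GG A S N z N ∧ nm A N p b) ∨
      (∃ i j, i ≤ N ∧ j ≤ N ∧ m = (DD A S N z N i j).card ∧ b ≠ y ∧
        (∀ v ∈ DD A S N z N i j, nm A N p v) ∧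
        HasPath A (DD A S N z N i j) b y (DD A S N z N i j).card) ∨
      (∃ w b' m', w ∈ S ∧ chain A S N p z w ∧ b ∈ GG A S N z w ∧ nm A N p b ∧
        A b b' ∧ m' + 1 = m ∧ Dec A S N y m' z w b') ∨
      (∃ w i j a b' m', i ≤ N ∧ j ≤ N ∧ w ∈ S ∧ chain A S N p z w ∧
        (∀ v ∈ DD A S N z w i j, nm A N p v) ∧ b ≠ a ∧
        HasPath A (DD A S N z w i j) b a (DD A S N z w i j).card ∧ A a b' ∧
        m' + (DD A S N z w i j).card = m ∧ Dec A S N y m' z w b') := by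
  constructor
  · intro h
    cases h with
    | L1 p z h1 h2 => exact Or.inl ⟨rfl, rfl, h1, h2⟩
    | L2 p z b i j hi hj h1 h2 h3 => exact Or.inr (Or.inl ⟨i, j, hi, hj, rfl, h1, h2, h3⟩)
    | T1 m p z w b b' h1 h2 h3 h4 h5 h6 =>
      exact Or.inr (Or.inr (Or.inl ⟨w, b', m, h1, h2, h3, h4, h5, rfl, h6⟩))
    | T2 m p z w b b' a i j hi hj h1 h2 h3 h4 h5 h6 h7 =>
      exact Or.inr (Or.inr (Or.inr ⟨w, i, j, a, b', m, hi, hj, h1, h2, h3, h4, h5, h6, rfl, h7⟩))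
  · rintro (⟨rfl, rfl, h1, h2⟩ | ⟨i, j, hi, hj, rfl, h1, h2, h3⟩ |
      ⟨w, b', m', h1, h2, h3, h4, h5, rfl, h6⟩ |
      ⟨w, i, j, a, b', m', hi, hj, h1, h2, h3, h4, h5, h6, rfl, h7⟩)
    · exact Dec.L1 _ _ h1 h2
    · exact Dec.L2 _ _ _ _ _ hi hj h1 h2 h3
    · exact Dec.T1 _ _ _ _ _ _ h1 h2 h3 h4 h5 h6
    · exact Dec.T2 _ _ _ _ _ _ _ _ _ hi hj h1 h2 h3 h4 h5 h6 h7

def ix4 (n m p z b : ℕ) : ℕ := (n + 1) * ((n + 1) * ((n + 1) * m + p) + z) + b

lemma ix4_inj {n m p z b m' p' z' b' : ℕ} (hp : p < n + 1) (hz : z < n + 1)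
    (hb : b < n + 1) (hp' : p' < n + 1) (hz' : z' < n + 1) (hb' : b' < n + 1)
    (h : ix4 n m p z b = ix4 n m' p' z' b') : m = m' ∧ p = p' ∧ z = z' ∧ b = b' := by
  obtain ⟨h, h1⟩ := pair_inj hb hb' h
  obtain ⟨h, h2⟩ := pair_inj hz hz' h
  obtain ⟨h, h3⟩ := pair_inj hp hp' h
  exact ⟨h, h3, h2, h1⟩

def ix4G (m p z b : Expr) : Expr := pairE (pairE (pairE m p) z) b
def ix6G (z w i j b a : Expr) : Expr := pairE (pairE (pairE (pairE (pairE z w) i) j) b) a

section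
variable {I : ℕ → ℕ} {s : St} {n l : ℕ} {env : List ℕ} {m z w i j b a p : Expr}

lemma eval_ix4G (h1 : s.v 1 = n + 1) (hm : Stab l m) (hp : Stab l p) (hz : Stab l z)
    (hl : l ≤ env.length) : eval I s (ix4G m p z b) env =
    ix4 n (eval I s m env) (eval I s p env) (eval I s z env) (eval I s b env) := by
  rw [ix4G, eval_pairE h1 ((hm.pair hp).pair hz) hl, eval_pairE h1 (hm.pair hp) hl,
    eval_pairE h1 hm hl]
  rfl

lemma eval_ix6G (h1 : s.v 1 = n + 1) (hz : Stab l z) (hw : Stab l w) (hi : Stab l i)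
    (hj : Stab l j) (hb : Stab l b) (hl : l ≤ env.length) :
    eval I s (ix6G z w i j b a) env = ix6 n (eval I s z env) (eval I s w env)
      (eval I s i env) (eval I s j env) (eval I s b env) (eval I s a env) := by
  rw [ix6G, eval_pairE h1 ((((hz.pair hw).pair hi).pair hj).pair hb) hl,
    eval_pairE h1 (((hz.pair hw).pair hi).pair hj) hl, eval_pairE h1 ((hz.pair hw).pair hi) hl,
    eval_pairE h1 (hz.pair hw) hl, eval_pairE h1 hz hl]
  rfl

end

def L1E : Expr := andE (eqE (.var 30) (.lit 1)) (andE (eqE (.var 20) (.var 5))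
  (andE (ggE (.var 16) (.var 0) (.var 20)) (nmE (.var 31) (.var 20))))

def L2E : Expr := .sum 1 (.sum 1 (andE (eqE (.var 30) (cardE 2 (.var 16) (.var 0) (.bv 0) (.bv 1)))
  (andE (notE (eqE (.var 20) (.var 5))) (andE (suE 2 (.var 31) (.var 16) (.var 0) (.bv 0) (.bv 1))
    (.arr 8 (ix6G (.var 16) (.var 0) (.bv 0) (.bv 1) (.var 20) (.var 5)))))))

def T1E : Expr := .sum 0 (.sum 0 (.sum 1 (andE (alE (.bv 0)) (andE (chE 3 (.var 31) (.var 16) (.bv 0))
  (andE (ggE (.var 16) (.bv 0) (.var 20)) (andE (nmE (.var 31) (.var 20))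
    (andE (arcE (.var 20) (.bv 1)) (andE (eqE (.add (.bv 2) (.lit 1)) (.var 30))
      (.arr 9 (ix4G (.bv 2) (.var 16) (.bv 0) (.bv 1)))))))))))

def T2E : Expr := .sum 0 (.sum 1 (.sum 1 (.sum 0 (.sum 0 (.sum 1
  (andE (alE (.bv 0)) (andE (chE 6 (.var 31) (.var 16) (.bv 0))
  (andE (suE 6 (.var 31) (.var 16) (.bv 0) (.bv 1) (.bv 2))
  (andE (.arr 8 (ix6G (.var 16) (.bv 0) (.bv 1) (.bv 2) (.var 20) (.bv 3)))
  (andE (arcE (.bv 3) (.bv 4))
  (andE (eqE (.add (.bv 5) (cardE 6 (.var 16) (.bv 0) (.bv 1) (.bv 2))) (.var 30))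
    (.arr 9 (ix4G (.bv 5) (.var 16) (.bv 0) (.bv 4))))))))))))))

def recE : Expr := orE L1E (orE L2E (orE T1E T2E))

section
variable {I : ℕ → ℕ} {n B y : ℕ} {d : ℕ → ℕ} {s : St}

/-- The table of the first stage is correct. -/
def HOk (I : ℕ → ℕ) (n : ℕ) (d : ℕ → ℕ) (s : St) : Prop :=
  ∀ z w i j b a, z < n + 1 → w < n + 1 → i < n + 1 → j < n + 1 → b < n → a < n →
    GH I n d (ix6 n z w i j b a) s

/-- The entries of the table of the second stage. -/
def Rent (I : ℕ → ℕ) (n y : ℕ) (d : ℕ → ℕ) (k : ℕ) : Prop :=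
  ∃ m p z b, p < n + 1 ∧ z < n + 1 ∧ b < n + 1 ∧ k = ix4 n m p z b ∧
    Dec (arcI I n) (aliveS n d) n y m p z b

lemma Rent_ix4 {m p z b : ℕ} (hp : p < n + 1) (hz : z < n + 1) (hb : b < n + 1) :
    Rent I n y d (ix4 n m p z b) ↔ Dec (arcI I n) (aliveS n d) n y m p z b := by
  constructor
  · rintro ⟨m', p', z', b', hp', hz', hb', h, h1⟩
    obtain ⟨rfl, rfl, rfl, rfl⟩ := ix4_inj hp hz hb hp' hz' hb' h
    exact h1
  · intro h
    exact ⟨m, p, z, b, hp, hz, hb, rfl, h⟩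

def GR (I : ℕ → ℕ) (n y : ℕ) (d : ℕ → ℕ) (k : ℕ) (s : St) : Prop := s.a 9 k ≠ 0 ↔ Rent I n y d k

lemma HOk.iff (h : HOk I n d s) {z w i j b a : ℕ} (hz : z < n + 1) (hw : w < n + 1)
    (hi : i < n + 1) (hj : j < n + 1) (hb : b < n) (ha : a < n) :
    s.a 8 (ix6 n z w i j b a) ≠ 0 ↔ b ≠ a ∧ HasPath (arcI I n)
      (DD (arcI I n) (aliveS n d) n z w i j) b a
      (DD (arcI I n) (aliveS n d) n z w i j).card := by
  exact (h z w i j b a hz hw hi hj hb ha).trans (Hent_ix6 hw hi hj (by omega) (by omega))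

lemma Dec.start_mem (hT : Tour (arcI I n) (range n)) {m p z b : ℕ}
    (h : Dec (arcI I n) (aliveS n d) n y m p z b) : b ∈ aliveS n d := by
  have hS : ∀ v ∈ aliveS n d, v < n := fun v hv => (mem_aliveS.1 hv).1
  obtain ⟨q, hq⟩ := h.sound (hT.mono fun v hv => mem_range.2 (hS v hv)) hS
  have := hq.mem 0 hq.pos
  rw [hq.first] at this
  exact (mem_LL.1 this).1

lemma HasPath.end_mem {A : ℕ → ℕ → Prop} {S : Finset ℕ} {b y m : ℕ} (h : HasPath A S b y m) :
    b ∈ S ∧ y ∈ S := by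
  obtain ⟨q, hq⟩ := h
  have := hq.pos
  constructor
  · rw [← hq.first]; exact hq.mem 0 hq.pos
  · rw [← hq.last]; exact hq.mem _ (by omega)

/-- The recursion. -/
lemma tr_recE (hT : Tour (arcI I n) (range n)) (hs : Ctx n B d s) (hy : s.v 5 = y) (hyn : y < n)
    (hH : HOk I n d s) {m p z b : ℕ} (hm : m < n + 1) (hp : p < n + 1) (hz : z < n + 1)
    (hb : b < n) (h30 : s.v 30 = m) (h31 : s.v 31 = p) (h16 : s.v 16 = z) (h20 : s.v 20 = b)
    (hR : ∀ m' < m, ∀ p' z' b', p' < n + 1 → z' < n + 1 → b' < n →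
      GR I n y d (ix4 n m' p' z' b') s) :
    tr I s recE [] ↔ Dec (arcI I n) (aliveS n d) n y m p z b := by
  have h0 := hs.v0
  have h1 := hs.v1
  have hS : ∀ v ∈ aliveS n d, v < n := fun v hv => (mem_aliveS.1 hv).1
  have hDn : ∀ z w i j, ∀ v ∈ DD (arcI I n) (aliveS n d) n z w i j, v < n :=
    fun z w i j v hv => hS v (mem_GG.1 (DD_sub hv)).1
  have hR' : ∀ m' < m, ∀ p' z' b', p' < n + 1 → z' < n + 1 → b' < n →
      (s.a 9 (ix4 n m' p' z' b') ≠ 0 ↔ Dec (arcI I n) (aliveS n d) n y m' p' z' b') := by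
    intro m' hm' p' z' b' hp' hz' hb'
    exact (hR m' hm' p' z' b' hp' hz' hb').trans (Rent_ix4 hp' hz' (by omega))
  rw [Dec_iff, recE, tr_orE, tr_orE, tr_orE]
  have hv : ∀ x, Stab 0 (.var x) := fun x => stab_var x
  refine or_congr ?_ (or_congr ?_ (or_congr ?_ ?_))
  · -- L1
    rw [L1E, tr_andE, tr_andE, tr_andE, tr_eqE, tr_eqE,
      tr_ggE h0 (hv 20) (hv 0) (Nat.zero_le _) (by rw [eval_var, h20]; exact hb),
      tr_nmE h0 (hv 20) (Nat.zero_le _)]
    simp only [eval_var, eval_lit, h30, h20, h16, h31, h0, hy, hs.dead]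
  · -- L2
    rw [L2E, tr_sum, h1]
    have key : ∀ i j, i < n + 1 → j < n + 1 →
        (tr I s (andE (eqE (.var 30) (cardE 2 (.var 16) (.var 0) (.bv 0) (.bv 1)))
          (andE (notE (eqE (.var 20) (.var 5)))
          (andE (suE 2 (.var 31) (.var 16) (.var 0) (.bv 0) (.bv 1))
          (.arr 8 (ix6G (.var 16) (.var 0) (.bv 0) (.bv 1) (.var 20) (.var 5))))))
          ([] ++ [i] ++ [j]) ↔
        (m = (DD (arcI I n) (aliveS n d) n z n i j).card ∧ b ≠ y ∧
        (∀ v ∈ DD (arcI I n) (aliveS n d) n z n i j, nm (arcI I n) n p v) ∧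
        HasPath (arcI I n) (DD (arcI I n) (aliveS n d) n z n i j) b y
          (DD (arcI I n) (aliveS n d) n z n i j).card)) := by
      intro i j hi hj
      have e0 : eval I s (.bv 0) ([] ++ [i] ++ [j]) = i := rfl
      have e1 : eval I s (.bv 1) ([] ++ [i] ++ [j]) = j := rfl
      have b0 : Stab 2 (.bv 0) := stab_bv (by decide)
      have b1 : Stab 2 (.bv 1) := stab_bv (by decide)
      have hv : ∀ x, Stab 2 (.var x) := fun x => stab_var x
      rw [tr_andE, tr_andE, tr_andE, tr_notE, tr_eqE, tr_eqE,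
        eval_cardE h0 (hv 16) b0 b1 (hv 0) rfl,
        tr_suE h0 (hv 31) (hv 16) b0 b1 (hv 0) rfl, tr_def, eval_arr,
        eval_ix6G h1 (hv 16) (hv 0) b0 b1 (hv 20) (le_refl 2)]
      simp only [eval_var, e0, e1, h30, h20, h16, h31, h0, hy, hs.dead]
      rw [hH.iff hz (by omega) hi hj hb hyn]
      constructor
      · rintro ⟨g1, g2, g3, g4⟩
        exact ⟨g1, g2, g3, g4.2⟩
      · rintro ⟨g1, g2, g3, g4⟩
        exact ⟨g1, g2, g3, g2, g4⟩
    constructor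
    · rintro ⟨i, hi, h⟩
      rw [tr_sum, h1] at h
      obtain ⟨j, hj, h⟩ := h
      rw [key i j hi hj] at h
      exact ⟨i, j, by omega, by omega, h⟩
    · rintro ⟨i, j, hi, hj, h⟩
      refine ⟨i, by omega, ?_⟩
      rw [tr_sum, h1]
      refine ⟨j, by omega, ?_⟩
      rw [key i j (by omega) (by omega)]
      exact h
  · -- T1
    rw [T1E, tr_sum, h0]
    have key : ∀ w b' m', w < n → b' < n → m' < n + 1 →
        (tr I s (andE (alE (.bv 0)) (andE (chE 3 (.var 31) (.var 16) (.bv 0))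
          (andE (ggE (.var 16) (.bv 0) (.var 20)) (andE (nmE (.var 31) (.var 20))
          (andE (arcE (.var 20) (.bv 1)) (andE (eqE (.add (.bv 2) (.lit 1)) (.var 30))
          (.arr 9 (ix4G (.bv 2) (.var 16) (.bv 0) (.bv 1)))))))))
          ([] ++ [w] ++ [b'] ++ [m']) ↔
        (w ∈ aliveS n d ∧ chain (arcI I n) (aliveS n d) n p z w ∧
          b ∈ GG (arcI I n) (aliveS n d) n z w ∧ nm (arcI I n) n p b ∧
          arcI I n b b' ∧ m' + 1 = m ∧ Dec (arcI I n) (aliveS n d) n y m' z w b')) := by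
      intro w b' m' hw hb' hm'
      have e0 : eval I s (.bv 0) ([] ++ [w] ++ [b'] ++ [m']) = w := rfl
      have e1 : eval I s (.bv 1) ([] ++ [w] ++ [b'] ++ [m']) = b' := rfl
      have e2 : eval I s (.bv 2) ([] ++ [w] ++ [b'] ++ [m']) = m' := rfl
      have b0 : Stab 3 (.bv 0) := stab_bv (by decide)
      have b1 : Stab 3 (.bv 1) := stab_bv (by decide)
      have b2 : Stab 3 (.bv 2) := stab_bv (by decide)
      have hv : ∀ x, Stab 3 (.var x) := fun x => stab_var x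
      rw [tr_andE, tr_andE, tr_andE, tr_andE, tr_andE, tr_andE, tr_alE, tr_eqE,
        tr_chE h0 (hv 31) (hv 16) b0 rfl,
        tr_ggE h0 (hv 20) b0 (le_refl 3) (by rw [eval_var, h20]; exact hb),
        tr_nmE h0 (hv 20) (le_refl 3), tr_arcE h0 (hv 20) (le_refl 3), tr_def, eval_arr,
        eval_ix4G h1 b2 (hv 16) b0 (le_refl 3)]
      simp only [eval_var, eval_add, eval_lit, e0, e1, e2, h30, h20, h16, h31, hs.dead]
      rw [mem_aliveS]
      constructor
      · rintro ⟨g1, g2, g3, g4, g5, g6, g7⟩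
        exact ⟨⟨hw, g1⟩, g2, g3, g4, g5, g6,
          (hR' m' (by omega) z w b' hz (by omega) hb').1 g7⟩
      · rintro ⟨g1, g2, g3, g4, g5, g6, g7⟩
        exact ⟨g1.2, g2, g3, g4, g5, g6,
          (hR' m' (by omega) z w b' hz (by omega) hb').2 g7⟩
    constructor
    · rintro ⟨w, hw, h⟩
      rw [tr_sum, h0] at h
      obtain ⟨b', hb', h⟩ := h
      rw [tr_sum, h1] at h
      obtain ⟨m', hm', h⟩ := h
      rw [key w b' m' hw hb' hm'] at h
      exact ⟨w, b', m', h⟩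
    · rintro ⟨w, b', m', h⟩
      have hw : w < n := hS w h.1
      have hb' : b' < n := hS b' (Dec.start_mem hT h.2.2.2.2.2.2)
      have hm' : m' < n + 1 := by
        have := h.2.2.2.2.2.1
        omega
      refine ⟨w, hw, ?_⟩
      rw [tr_sum, h0]
      refine ⟨b', hb', ?_⟩
      rw [tr_sum, h1]
      refine ⟨m', hm', ?_⟩
      rw [key w b' m' hw hb' hm']
      exact h
  · -- T2
    rw [T2E, tr_sum, h0]
    have key : ∀ w i j a b' m', w < n → i < n + 1 → j < n + 1 → a < n → b' < n → m' < n + 1 →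
        (tr I s (andE (alE (.bv 0)) (andE (chE 6 (.var 31) (.var 16) (.bv 0))
          (andE (suE 6 (.var 31) (.var 16) (.bv 0) (.bv 1) (.bv 2))
          (andE (.arr 8 (ix6G (.var 16) (.bv 0) (.bv 1) (.bv 2) (.var 20) (.bv 3)))
          (andE (arcE (.bv 3) (.bv 4))
          (andE (eqE (.add (.bv 5) (cardE 6 (.var 16) (.bv 0) (.bv 1) (.bv 2))) (.var 30))
          (.arr 9 (ix4G (.bv 5) (.var 16) (.bv 0) (.bv 4)))))))))
          ([] ++ [w] ++ [i] ++ [j] ++ [a] ++ [b'] ++ [m']) ↔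
        (w ∈ aliveS n d ∧ chain (arcI I n) (aliveS n d) n p z w ∧
          (∀ v ∈ DD (arcI I n) (aliveS n d) n z w i j, nm (arcI I n) n p v) ∧ b ≠ a ∧
          HasPath (arcI I n) (DD (arcI I n) (aliveS n d) n z w i j) b a
            (DD (arcI I n) (aliveS n d) n z w i j).card ∧ arcI I n a b' ∧
          m' + (DD (arcI I n) (aliveS n d) n z w i j).card = m ∧
          Dec (arcI I n) (aliveS n d) n y m' z w b')) := by
      intro w i j a b' m' hw hi hj ha hb' hm'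
      have e0 : eval I s (.bv 0) ([] ++ [w] ++ [i] ++ [j] ++ [a] ++ [b'] ++ [m']) = w := rfl
      have e1 : eval I s (.bv 1) ([] ++ [w] ++ [i] ++ [j] ++ [a] ++ [b'] ++ [m']) = i := rfl
      have e2 : eval I s (.bv 2) ([] ++ [w] ++ [i] ++ [j] ++ [a] ++ [b'] ++ [m']) = j := rfl
      have e3 : eval I s (.bv 3) ([] ++ [w] ++ [i] ++ [j] ++ [a] ++ [b'] ++ [m']) = a := rfl
      have e4 : eval I s (.bv 4) ([] ++ [w] ++ [i] ++ [j] ++ [a] ++ [b'] ++ [m']) = b' := rfl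
      have e5 : eval I s (.bv 5) ([] ++ [w] ++ [i] ++ [j] ++ [a] ++ [b'] ++ [m']) = m' := rfl
      have b0 : Stab 6 (.bv 0) := stab_bv (by decide)
      have b1 : Stab 6 (.bv 1) := stab_bv (by decide)
      have b2 : Stab 6 (.bv 2) := stab_bv (by decide)
      have b3 : Stab 6 (.bv 3) := stab_bv (by decide)
      have b5 : Stab 6 (.bv 5) := stab_bv (by decide)
      have hv : ∀ x, Stab 6 (.var x) := fun x => stab_var x
      rw [tr_andE, tr_andE, tr_andE, tr_andE, tr_andE, tr_andE, tr_alE, tr_eqE,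
        tr_chE h0 (hv 31) (hv 16) b0 rfl, tr_suE h0 (hv 31) (hv 16) b1 b2 b0 rfl, tr_def, eval_arr,
        eval_ix6G h1 (hv 16) b0 b1 b2 (hv 20) (le_refl 6), tr_arcE h0 b3 (le_refl 6),
        eval_add, eval_cardE h0 (hv 16) b1 b2 b0 rfl, tr_def, eval_arr,
        eval_ix4G h1 b5 (hv 16) b0 (le_refl 6)]
      simp only [eval_var, e0, e1, e2, e3, e4, e5, h30, h20, h16, h31, hs.dead]
      rw [mem_aliveS, hH.iff hz (by omega) hi hj hb ha]
      constructor
      · rintro ⟨g1, g2, g3, ⟨g4, g4'⟩, g5, g6, g7⟩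
        have hpos : 0 < (DD (arcI I n) (aliveS n d) n z w i j).card := by
          obtain ⟨q, hq⟩ := g4'
          exact hq.pos
        exact ⟨⟨hw, g1⟩, g2, g3, g4, g4', g5, g6,
          (hR' m' (by omega) z w b' hz (by omega) hb').1 g7⟩
      · rintro ⟨g1, g2, g3, g4, g4', g5, g6, g7⟩
        have hpos : 0 < (DD (arcI I n) (aliveS n d) n z w i j).card := by
          obtain ⟨q, hq⟩ := g4'
          exact hq.pos
        exact ⟨g1.2, g2, g3, ⟨g4, g4'⟩, g5, g6,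
          (hR' m' (by omega) z w b' hz (by omega) hb').2 g7⟩
    constructor
    · rintro ⟨w, hw, h⟩
      rw [tr_sum, h1] at h
      obtain ⟨i, hi, h⟩ := h
      rw [tr_sum, h1] at h
      obtain ⟨j, hj, h⟩ := h
      rw [tr_sum, h0] at h
      obtain ⟨a, ha, h⟩ := h
      rw [tr_sum, h0] at h
      obtain ⟨b', hb', h⟩ := h
      rw [tr_sum, h1] at h
      obtain ⟨m', hm', h⟩ := h
      rw [key w i j a b' m' hw hi hj ha hb' hm'] at h
      exact ⟨w, i, j, a, b', m', by omega, by omega, h⟩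
    · rintro ⟨w, i, j, a, b', m', hi, hj, h⟩
      have hw : w < n := hS w h.1
      have ha : a < n := hDn _ _ _ _ a h.2.2.2.2.1.end_mem.2
      have hb' : b' < n := hS b' (Dec.start_mem hT h.2.2.2.2.2.2.2)
      have hm' : m' < n + 1 := by
        have := h.2.2.2.2.2.2.1
        omega
      refine ⟨w, hw, ?_⟩
      rw [tr_sum, h1]
      refine ⟨i, by omega, ?_⟩
      rw [tr_sum, h1]
      refine ⟨j, by omega, ?_⟩
      rw [tr_sum, h0]
      refine ⟨a, ha, ?_⟩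
      rw [tr_sum, h0]
      refine ⟨b', hb', ?_⟩
      rw [tr_sum, h1]
      refine ⟨m', hm', ?_⟩
      rw [key w i j a b' m' hw (by omega) (by omega) ha hb' hm']
      exact h

end

end Pool.Agent.Lib54.LP
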