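import Pool.Agent.Lib_helper54.LongPath.Stage2

/-!
# Second stage: the nested loops
-/

namespace Pool.Agent.Lib54.LP

open Finset

variable {I : ℕ → ℕ} {n B y : ℕ} {d : ℕ → ℕ} {Q : Prog}

def putR : Cmd := .put 9 (ix4G (.var 30) (.var 31) (.var 16) (.var 20)) recE

def stage2 : Cmd := .loop 30 1 (.loop 31 1 (.loop 16 1 (.loop 20 0 putR)))

/-- The state during the second stage. -/
structure In2 (I : ℕ → ℕ) (n B y : ℕ) (d : ℕ → ℕ) (s : St) : Prop where
  ctx : Ctx n B d s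
  hy : s.v 5 = y
  hH : HOk I n d s

lemma In2.setV {s : St} (h : In2 I n B y d s) {x : ℕ} (hx : 5 < x) (h27 : x ≠ 27) (c : ℕ) :
    In2 I n B y d (s.setV x c) := by
  refine ⟨h.ctx.setV (by omega) h27 c, ?_, h.hH⟩
  rw [St.setV_v, Function.update_of_ne (by omega)]
  exact h.hy

/-- The entries for smaller `m` are correct. -/
def Low (I : ℕ → ℕ) (n y : ℕ) (d : ℕ → ℕ) (m : ℕ) (s : St) : Prop :=
  ∀ m' < m, ∀ k, (∃ p < n + 1, ∃ z < n + 1, ∃ b < n, k = ix4 n m' p z b) → GR I n y d k s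

lemma putR_does (hT : Tour (arcI I n) (range n)) (hyn : y < n) {m p z b : ℕ} (hm : m < n + 1)
    (hp : p < n + 1) (hz : z < n + 1) (hb : b < n) :
    Does I (fun s => (In2 I n B y d s ∧ Low I n y d m s ∧ s.v 30 = m ∧ s.v 31 = p ∧ s.v 16 = z) ∧
        s.v 20 = b)
      (fun s => In2 I n B y d s ∧ Low I n y d m s ∧ s.v 30 = m ∧ s.v 31 = p ∧ s.v 16 = z)
      (GR I n y d) (fun k => k = ix4 n m p z b) putR := by
  intro s ⟨⟨h1, h2, h3, h4, h5⟩, h6⟩
  have hidx : eval I s (ix4G (.var 30) (.var 31) (.var 16) (.var 20)) [] = ix4 n m p z b := by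
    rw [eval_ix4G (l := 0) h1.ctx.v1 (stab_var _) (stab_var _) (stab_var _) (Nat.zero_le _)]
    simp only [eval_var, h3, h4, h5, h6]
  have hrec : eval I s recE [] ≠ 0 ↔ Rent I n y d (ix4 n m p z b) := by
    rw [Rent_ix4 hp hz (by omega), ← tr_def]
    exact tr_recE hT h1.ctx h1.hy hyn h1.hH hm hp hz hb h3 h4 h5 h6
      (fun m' hm' p' z' b' hp' hz' hb' => h2 m' hm' _ ⟨p', hp', z', hz', b', hb', rfl⟩)
  have ha : ∀ b', b' ≠ 9 → (run I putR s).a b' = s.a b' := by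
    intro b' h
    simp only [putR, run, St.setA_a]
    rw [Function.update_of_ne h]
  have ha9 : (run I putR s).a 9 = Function.update (s.a 9) (ix4 n m p z b)
      (eval I s recE []) := by
    simp only [putR, run, St.setA_a, hidx]
    rw [Function.update_self]
  have hv : ∀ x, (run I putR s).v x = s.v x := fun x => rfl
  have hG : ∀ k, GR I n y d k s → GR I n y d k (run I putR s) := by
    intro k hk
    unfold GR
    rw [ha9]
    by_cases hk' : k = ix4 n m p z b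
    · subst hk'
      rw [Function.update_self, hrec]
    · rw [Function.update_of_ne hk']
      exact hk
  refine ⟨⟨⟨h1.ctx.congr (hv 0) (hv 1) (hv 2) (hv 3) (ha 1 (by decide)) (ha 7 (by decide))
    (hv 27) (ha 5 (by decide)), (hv 5).trans h1.hy, ?_⟩, ?_, h3, h4, h5⟩, hG, ?_⟩
  · intro z w i j b a hz hw hi hj hb ha'
    have := h1.hH z w i j b a hz hw hi hj hb ha'
    unfold GH at this ⊢
    rw [ha 8 (by decide)]
    exact this
  · intro m' hm' k hk
    exact hG k (h2 m' hm' k hk)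
  · rintro k rfl
    unfold GR
    rw [ha9, Function.update_self, hrec]

lemma loop2_b (hT : Tour (arcI I n) (range n)) (hyn : y < n) {m p z : ℕ} (hm : m < n + 1)
    (hp : p < n + 1) (hz : z < n + 1) :
    Does I (fun s => In2 I n B y d s ∧ Low I n y d m s ∧ s.v 30 = m ∧ s.v 31 = p ∧ s.v 16 = z)
      (fun s => In2 I n B y d s ∧ Low I n y d m s ∧ s.v 30 = m ∧ s.v 31 = p ∧ s.v 16 = z)
      (GR I n y d) (fun k => ∃ b < n, k = ix4 n m p z b) (.loop 20 0 putR) := by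
  apply Does.loop n
  · intro s hs
    exact hs.1.ctx.v0
  · intro s c hs
    refine ⟨hs.1.setV (by decide) (by decide) c, hs.2.1, ?_, ?_, ?_⟩ <;>
      rw [St.setV_v, Function.update_of_ne (by decide)]
    · exact hs.2.2.1
    · exact hs.2.2.2.1
    · exact hs.2.2.2.2
  · intro k s c h
    exact h
  · intro b hb s ⟨h1, h5, _⟩
    exact putR_does hT hyn hm hp hz hb s ⟨h1, h5⟩

lemma loop2_z (hT : Tour (arcI I n) (range n)) (hyn : y < n) {m p : ℕ} (hm : m < n + 1)
    (hp : p < n + 1) :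
    Does I (fun s => In2 I n B y d s ∧ Low I n y d m s ∧ s.v 30 = m ∧ s.v 31 = p)
      (fun s => In2 I n B y d s ∧ Low I n y d m s ∧ s.v 30 = m ∧ s.v 31 = p)
      (GR I n y d) (fun k => ∃ z < n + 1, ∃ b < n, k = ix4 n m p z b)
      (.loop 16 1 (.loop 20 0 putR)) := by
  apply Does.loop (n + 1)
  · intro s hs
    exact hs.1.ctx.v1
  · intro s c hs
    refine ⟨hs.1.setV (by decide) (by decide) c, hs.2.1, ?_, ?_⟩ <;>
      rw [St.setV_v, Function.update_of_ne (by decide)]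
    · exact hs.2.2.1
    · exact hs.2.2.2
  · intro k s c h
    exact h
  · intro z hz s ⟨⟨h1, h2, h3, h4⟩, h5, _⟩
    obtain ⟨g1, g2, g3⟩ := loop2_b hT hyn hm hp hz s ⟨h1, h2, h3, h4, h5⟩
    exact ⟨⟨g1.1, g1.2.1, g1.2.2.1, g1.2.2.2.1⟩, g2, g3⟩

lemma loop2_p (hT : Tour (arcI I n) (range n)) (hyn : y < n) {m : ℕ} (hm : m < n + 1) :
    Does I (fun s => In2 I n B y d s ∧ Low I n y d m s ∧ s.v 30 = m)
      (fun s => In2 I n B y d s ∧ Low I n y d m s ∧ s.v 30 = m)
      (GR I n y d) (fun k => ∃ p < n + 1, ∃ z < n + 1, ∃ b < n, k = ix4 n m p z b)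
      (.loop 31 1 (.loop 16 1 (.loop 20 0 putR))) := by
  apply Does.loop (n + 1)
  · intro s hs
    exact hs.1.ctx.v1
  · intro s c hs
    refine ⟨hs.1.setV (by decide) (by decide) c, hs.2.1, ?_⟩
    rw [St.setV_v, Function.update_of_ne (by decide)]
    exact hs.2.2
  · intro k s c h
    exact h
  · intro p hp s ⟨⟨h1, h2, h3⟩, h5, _⟩
    obtain ⟨g1, g2, g3⟩ := loop2_z hT hyn hm hp s ⟨h1, h2, h3, h5⟩
    exact ⟨⟨g1.1, g1.2.1, g1.2.2.1⟩, g2, g3⟩

theorem stage2_does (hT : Tour (arcI I n) (range n)) (hyn : y < n) :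
    Does I (In2 I n B y d) (In2 I n B y d) (GR I n y d)
      (fun k => ∃ m < n + 1, ∃ p < n + 1, ∃ z < n + 1, ∃ b < n, k = ix4 n m p z b) stage2 := by
  apply Does.loop (n + 1)
  · intro s hs
    exact hs.ctx.v1
  · intro s c hs
    exact hs.setV (by decide) (by decide) c
  · intro k s c h
    exact h
  · intro m hm s ⟨h1, h5, h6⟩
    obtain ⟨g1, g2, g3⟩ := loop2_p hT hyn hm s ⟨h1, h6, h5⟩
    exact ⟨g1.1, g2, g3⟩

/-- Both stages. -/
def tablesC (Q : Prog) : Cmd := .seq (stage1 Q) stage2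

theorem tablesC_spec (hQ : Works Q I n B) (hT : Tour (arcI I n) (range n)) (hyn : y < n)
    {s : St} (hs : Ctx n B d s) (hy : s.v 5 = y) :
    Ctx n B d (run I (tablesC Q) s) ∧ ∀ m p z b, m < n + 1 → p < n + 1 → z < n + 1 → b < n →
      ((run I (tablesC Q) s).a 9 (ix4 n m p z b) ≠ 0 ↔
        Dec (arcI I n) (aliveS n d) n y m p z b) := by
  obtain ⟨g1, _, g3⟩ := stage1_does hQ s hs
  have h5 : (run I (stage1 Q) s).v 5 = y := by
    rw [run_v I _ (okV_stage1 Q 5 (by omega)), hy]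
  have hin : In2 I n B y d (run I (stage1 Q) s) := by
    refine ⟨g1, h5, ?_⟩
    intro z w i j b a hz hw hi hj hb ha
    exact g3 _ ⟨z, hz, w, hw, i, hi, j, hj, b, hb, a, ha, rfl⟩
  obtain ⟨k1, _, k3⟩ := stage2_does hT hyn _ hin
  refine ⟨k1.ctx, ?_⟩
  intro m p z b hm hp hz hb
  exact (k3 _ ⟨m, hm, p, hp, z, hz, b, hb, rfl⟩).trans (Rent_ix4 hp hz (by omega))

lemma okV_tablesC (Q : Prog) (x : ℕ) (h : x < 16 ∨ 32 ≤ x) : okV x (tablesC Q) = true := by
  have h1 := okV_stage1 Q x (by omega)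
  simp [tablesC, stage2, okV, h1, putR]
  omega

lemma okA_tablesC (Q : Prog) (b : ℕ) (h : b < 2) : okA b (tablesC Q) = true := by
  have h1 := okA_stage1 Q b (by omega)
  simp [tablesC, stage2, okA, h1, putR]
  omega

lemma wf_putR : wfC putR = true := by decide

lemma wf_tablesC (Q : Prog) : wfC (tablesC Q) = true := by
  simp only [tablesC, stage2, wfC, wf_stage1, wf_putR]
  decide

end Pool.Agent.Lib54.LP
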